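import Pool.Agent.TOR.Defs

/-!
MODULE ALG (trace identities in SL2; needs only Defs).

* `pow_lin`: Cayley-Hamilton `F² = (tr F) F - 1` (as `det F = 1`), so by induction `F^n = α F + β` where `α β` are obtained by a
  recursion which depends only on `n` and `tr F`. For ONE matrix `F` it is enough to know: for each `n` there are real `α β` with
  `F^n = α • F + β • 1`.
* `step_trace`: put `F^q = α F + β`, `F^p = α' F + β'`. `tr (X F^q X F^p X)` is a linear combination of `tr (X³)`, `tr (X F X²)`,
  `tr (X² F X)`, `tr (X F X F X)`, each of which is a polynomial in `tr X, tr XF, tr F` (with `det X = det F = 1`); the same for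
  `tr (X F^q X F^p X F)`. Practical proof: write the entries of `X, X', F` as real variables (`Matrix.eta_fin_two`,
  `Matrix.trace_fin_two`, `Matrix.det_fin_two`, `Matrix.mul_apply`...) and use `linear_combination`, or derive the polynomial identities
  by hand: for `det X = 1` and every `Y`: `tr (X² Y) = tr X · tr (XY) - tr Y` (this is Cayley-Hamilton), and cyclicity
  `Matrix.trace_mul_comm`. E.g. `tr (XFXFX) = tr (X² F X F) = x tr(XFXF) - tr(FXF) = x tr((XF)²) - tr(F² X)`, with
  `tr((XF)²) = (tr XF)² - 2` (`det (XF) = 1`), `tr (F² X) = f tr(FX) - tr X`. And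
  `tr (XFXFXF) = tr((XF)³)`, `tr (X F X X F) = tr (X F X² F) = ...` with the formula with `X² = x X - 1`.
  The point of the swap `p ↔ q` (`X F^q X F^p X` against `X F^p X F^q X`): in the expansion the coefficients of the terms with one
  `F` are `α β' tr (X F X²) + β α' tr(X² F X)`, and both traces are the same by cyclicity (`tr (X³ F)`), and for the word followed by `F`:
  `α β' tr (X F X X F) + β α' tr (X X F X F)`: both equal `tr (X² F X F)` by cyclicity. So everything is symmetric in `(p,q)`.
* `mono_trace`: induction on `l` generalizing `l' i X X'`: nil/nil: `tr (F^{2i} X) = α tr (F X) + β tr X`. cons/cons: the new pair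
  `Y = X F^{2i+1-b} X F^{2i+b} X`, `Y' = X' F^{2i+1-b'} X' F^{2i+b'} X'` satisfies the hypotheses by `step_trace` (if `b ≠ b'` the two
  exponents are exchanged).
* `mono_det`: induction, `Matrix.det_mul`, `Matrix.det_pow`.
-/

set_option autoImplicit false

namespace Pool.Agent.TOR

open Matrix

private theorem ch51 {A : Matrix (Fin 2) (Fin 2) ℝ} (hA : A.det = 1) :
    A * A = A.trace • A - 1 := by
  rw [Matrix.det_fin_two] at hA
  ext i j
  fin_cases i <;> fin_cases j <;>
    simp only [Matrix.mul_apply, Fin.sum_univ_two, Matrix.trace_fin_two, Matrix.sub_apply,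
      Matrix.smul_apply, smul_eq_mul, Matrix.one_apply, Fin.zero_eta, Fin.mk_one, Fin.isValue,
      if_true, one_ne_zero, zero_ne_one, if_false]
  · linear_combination -hA
  · ring
  · ring
  · linear_combination -hA

private theorem tr_one51 : (1 : Matrix (Fin 2) (Fin 2) ℝ).trace = 2 := by
  simp [Matrix.trace_fin_two]

private theorem tr_sq51 {A : Matrix (Fin 2) (Fin 2) ℝ} (hA : A.det = 1) :
    (A * A).trace = A.trace ^ 2 - 2 := by
  rw [ch51 hA, Matrix.trace_sub, Matrix.trace_smul, tr_one51, smul_eq_mul]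
  ring

/-- `tr (X² Y) = tr X tr (XY) - tr Y` -/
private theorem tr_xx51 {A : Matrix (Fin 2) (Fin 2) ℝ} (hA : A.det = 1)
    (Y : Matrix (Fin 2) (Fin 2) ℝ) :
    (A * A * Y).trace = A.trace * (A * Y).trace - Y.trace := by
  rw [ch51 hA, sub_mul, smul_mul_assoc, one_mul, Matrix.trace_sub, Matrix.trace_smul, smul_eq_mul]

private theorem tr_x3_51 {A : Matrix (Fin 2) (Fin 2) ℝ} (hA : A.det = 1) :
    (A * A * A).trace = A.trace ^ 3 - 3 * A.trace := by
  rw [tr_xx51 hA, tr_sq51 hA]
  ring

/-- `tr (X³ F)` -/
private theorem tr_x3f51 {A F : Matrix (Fin 2) (Fin 2) ℝ} (hA : A.det = 1) :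
    (A * A * (A * F)).trace = (A.trace ^ 2 - 1) * (A * F).trace - A.trace * F.trace := by
  rw [tr_xx51 hA, ← Matrix.mul_assoc, tr_xx51 hA]
  ring

/-- `tr (X² F X F)` -/
private theorem tr_x2fxf51 {A F : Matrix (Fin 2) (Fin 2) ℝ} (hA : A.det = 1) (hF : F.det = 1) :
    (A * A * (F * A * F)).trace = A.trace * ((A * F).trace ^ 2 - 2)
      - (F.trace * (A * F).trace - A.trace) := by
  have hAF : (A * F).det = 1 := by rw [Matrix.det_mul, hA, hF, one_mul]
  have e1 : (A * (F * A * F)).trace = (A * F).trace ^ 2 - 2 := by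
    rw [← tr_sq51 hAF]
    simp only [Matrix.mul_assoc]
  have e2 : (F * A * F).trace = F.trace * (A * F).trace - A.trace := by
    rw [Matrix.trace_mul_comm, ← Matrix.mul_assoc, tr_xx51 hF, Matrix.trace_mul_comm F A]
  rw [tr_xx51 hA, e1, e2]

private theorem word1_51 {A F : Matrix (Fin 2) (Fin 2) ℝ} (hA : A.det = 1) (hF : F.det = 1)
    (a b c d : ℝ) :
    (A * (a • F + b • 1) * A * (c • F + d • 1) * A).trace =
      a * c * (A.trace * ((A * F).trace ^ 2 - 2) - (F.trace * (A * F).trace - A.trace))
      + (a * d + b * c) * ((A.trace ^ 2 - 1) * (A * F).trace - A.trace * F.trace)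
      + b * d * (A.trace ^ 3 - 3 * A.trace) := by
  have e1 : (A * F * A * F * A).trace = A.trace * ((A * F).trace ^ 2 - 2)
      - (F.trace * (A * F).trace - A.trace) := by
    rw [Matrix.trace_mul_comm, ← tr_x2fxf51 hA hF]
    simp only [Matrix.mul_assoc]
  have e2 : (A * F * A * A).trace = (A.trace ^ 2 - 1) * (A * F).trace - A.trace * F.trace := by
    have : A * F * A * A = (A * F) * (A * A) := by simp only [Matrix.mul_assoc]
    rw [this, Matrix.trace_mul_comm, tr_x3f51 hA]
  have e3 : (A * A * F * A).trace = (A.trace ^ 2 - 1) * (A * F).trace - A.trace * F.trace := by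
    rw [Matrix.trace_mul_comm, ← tr_x3f51 hA]
    simp only [Matrix.mul_assoc]
  have e4 := tr_x3_51 hA
  simp only [mul_add, add_mul, smul_mul_assoc, mul_smul_comm, mul_one, one_mul,
    Matrix.trace_add, Matrix.trace_smul, smul_eq_mul, e1, e2, e3, e4]
  ring

private theorem word2_51 {A F : Matrix (Fin 2) (Fin 2) ℝ} (hA : A.det = 1) (hF : F.det = 1)
    (a b c d : ℝ) :
    (A * (a • F + b • 1) * A * (c • F + d • 1) * A * F).trace =
      a * c * ((A * F).trace ^ 3 - 3 * (A * F).trace)
      + (a * d + b * c) * (A.trace * ((A * F).trace ^ 2 - 2)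
        - (F.trace * (A * F).trace - A.trace))
      + b * d * ((A.trace ^ 2 - 1) * (A * F).trace - A.trace * F.trace) := by
  have hAF : (A * F).det = 1 := by rw [Matrix.det_mul, hA, hF, one_mul]
  have e1 : (A * F * A * F * A * F).trace = (A * F).trace ^ 3 - 3 * (A * F).trace := by
    rw [← tr_x3_51 hAF]
    simp only [Matrix.mul_assoc]
  have e2 : (A * F * A * A * F).trace = A.trace * ((A * F).trace ^ 2 - 2)
        - (F.trace * (A * F).trace - A.trace) := by
    have : A * F * A * A * F = (A * F) * (A * A * F) := by simp only [Matrix.mul_assoc]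
    rw [this, Matrix.trace_mul_comm, ← tr_x2fxf51 hA hF]
    simp only [Matrix.mul_assoc]
  have e3 : (A * A * F * A * F).trace = A.trace * ((A * F).trace ^ 2 - 2)
        - (F.trace * (A * F).trace - A.trace) := by
    rw [← tr_x2fxf51 hA hF]
    simp only [Matrix.mul_assoc]
  have e4 : (A * A * A * F).trace = (A.trace ^ 2 - 1) * (A * F).trace - A.trace * F.trace := by
    rw [← tr_x3f51 hA]
    simp only [Matrix.mul_assoc]
  simp only [mul_add, add_mul, smul_mul_assoc, mul_smul_comm, mul_one, one_mul,
    Matrix.trace_add, Matrix.trace_smul, smul_eq_mul, e1, e2, e3, e4]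
  ring

theorem pow_lin {F : Matrix (Fin 2) (Fin 2) ℝ} (hF : F.det = 1) (n : ℕ) :
    ∃ α β : ℝ, F ^ n = α • F + β • (1 : Matrix (Fin 2) (Fin 2) ℝ) := by
  induction n with
  | zero => exact ⟨0, 1, by simp⟩
  | succ n ih =>
    obtain ⟨α, β, h⟩ := ih
    refine ⟨α * F.trace + β, -α, ?_⟩
    rw [pow_succ, h, add_mul, smul_mul_assoc, smul_mul_assoc, one_mul, ch51 hF]
    rw [smul_sub, smul_smul, add_smul, neg_smul]
    abel

theorem step_trace {F X X' : Matrix (Fin 2) (Fin 2) ℝ} (hF : F.det = 1) (hX : X.det = 1)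
    (hX' : X'.det = 1) (h1 : X.trace = X'.trace) (h2 : (X * F).trace = (X' * F).trace)
    (p q : ℕ) :
    (X * F ^ q * X * F ^ p * X).trace = (X' * F ^ q * X' * F ^ p * X').trace ∧
    (X * F ^ q * X * F ^ p * X * F).trace = (X' * F ^ q * X' * F ^ p * X' * F).trace ∧
    (X * F ^ q * X * F ^ p * X).trace = (X' * F ^ p * X' * F ^ q * X').trace ∧
    (X * F ^ q * X * F ^ p * X * F).trace = (X' * F ^ p * X' * F ^ q * X' * F).trace := by
  obtain ⟨α, β, hq⟩ := pow_lin hF q
  obtain ⟨α', β', hp⟩ := pow_lin hF p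
  rw [hq, hp]
  refine ⟨?_, ?_, ?_, ?_⟩
  · rw [word1_51 hX hF, word1_51 hX' hF, h1, h2]
  · rw [word2_51 hX hF, word2_51 hX' hF, h1, h2]
  · rw [word1_51 hX hF, word1_51 hX' hF, h1, h2]
    ring
  · rw [word2_51 hX hF, word2_51 hX' hF, h1, h2]
    ring

theorem mono_det {F X : Matrix (Fin 2) (Fin 2) ℝ} (hF : F.det = 1) (hX : X.det = 1)
    (l : List Bool) (i : ℕ) : (mono F l i X).det = 1 := by
  induction l generalizing i X with
  | nil => rw [mono, Matrix.det_mul, Matrix.det_pow, hF, hX, one_pow, one_mul]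
  | cons b bs ih =>
    rw [mono]
    apply ih
    simp only [Matrix.det_mul, Matrix.det_pow, hF, hX, one_pow, one_mul]

theorem mono_trace {F X X' : Matrix (Fin 2) (Fin 2) ℝ} (hF : F.det = 1) (hX : X.det = 1)
    (hX' : X'.det = 1) (h1 : X.trace = X'.trace) (h2 : (X * F).trace = (X' * F).trace)
    (l l' : List Bool) (h : l.length = l'.length) (i : ℕ) :
    (mono F l i X).trace = (mono F l' i X').trace := by
  induction l generalizing l' i X X' with
  | nil =>
    cases l' with
    | cons b' bs' => simp at h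
    | nil =>
      obtain ⟨α, β, hq⟩ := pow_lin hF (2 * i)
      rw [mono, mono, hq, add_mul, add_mul, smul_mul_assoc, smul_mul_assoc, smul_mul_assoc,
        smul_mul_assoc, one_mul, one_mul, Matrix.trace_add, Matrix.trace_add, Matrix.trace_smul,
        Matrix.trace_smul, Matrix.trace_smul, Matrix.trace_smul, Matrix.trace_mul_comm F X,
        Matrix.trace_mul_comm F X', h1, h2]
  | cons b bs ih =>
    cases l' with
    | nil => simp at h
    | cons b' bs' =>
      have hl : bs.length = bs'.length := by simpa using h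
      have d1 : (X * F ^ (2 * i + 1 - b.toNat) * X * F ^ (2 * i + b.toNat) * X).det = 1 := by
        simp only [Matrix.det_mul, Matrix.det_pow, hF, hX, one_pow, one_mul]
      have d2 : (X' * F ^ (2 * i + 1 - b'.toNat) * X' * F ^ (2 * i + b'.toNat) * X').det = 1 := by
        simp only [Matrix.det_mul, Matrix.det_pow, hF, hX', one_pow, one_mul]
      rw [mono, mono]
      have key := step_trace hF hX hX' h1 h2 (2 * i + b.toNat) (2 * i + 1 - b.toNat)
      obtain ⟨k1, k2, k3, k4⟩ := key
      have t1 : (X * F ^ (2 * i + 1 - b.toNat) * X * F ^ (2 * i + b.toNat) * X).trace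
          = (X' * F ^ (2 * i + 1 - b'.toNat) * X' * F ^ (2 * i + b'.toNat) * X').trace := by
        cases b <;> cases b'
        · exact k1
        · exact k3
        · exact k3
        · exact k1
      have t2 : (X * F ^ (2 * i + 1 - b.toNat) * X * F ^ (2 * i + b.toNat) * X * F).trace
          = (X' * F ^ (2 * i + 1 - b'.toNat) * X' * F ^ (2 * i + b'.toNat) * X' * F).trace := by
        cases b <;> cases b'
        · exact k2
        · exact k4
        · exact k4
        · exact k2
      exact ih d1 d2 t1 t2 bs' hl (i + 1)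

end Pool.Agent.TOR
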