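import Pool.Agent.TOR.Defs

/-!
MODULE BMP (the bump; needs only Defs). `bump P δ s = expNegInvGlue (cos (2πs/P) - cos (πδ/P))`.

* smooth: `expNegInvGlue.contDiff`, `Real.contDiff_cos`. `≥ 0`: `expNegInvGlue.nonneg`. Positive iff the argument is positive: `expNegInvGlue.pos_of_pos`,
  `expNegInvGlue.zero_of_nonpos`. Even, `P`-periodic: `Real.cos_neg`, `Real.cos_add_int_mul_two_pi`.
* `bump_pos_iff` for `0 < δ ≤ P`: `cos (2πs/P) > cos (πδ/P)` iff `|s - nP| < δ/2` for some integer `n`. (←) by periodicity `n = 0`;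
  `cos (2πs/P) = cos |2πs/P|`, `|2πs/P| < πδ/P ≤ π`, `Real.strictAntiOn_cos`. (→) take `n = round (s/P)` so that `|s - nP| ≤ P/2`; if `|s - nP| ≥ δ/2` then
  `cos (2π|s - nP|/P) ≤ cos (πδ/P)` as both angles are in `[0,π]` (`Real.cos_le_cos_of_nonneg_of_le_pi`).
-/

set_option autoImplicit false

namespace Pool.Agent.TOR

open scoped ContDiff

theorem bump_contDiff (P δ : ℝ) : ContDiff ℝ ∞ (bump P δ) := by
  unfold bump
  refine expNegInvGlue.contDiff.comp ?_
  refine ContDiff.sub ?_ contDiff_const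
  exact Real.contDiff_cos.comp ((contDiff_const.mul contDiff_id).div_const _)

theorem bump_nonneg (P δ s : ℝ) : 0 ≤ bump P δ s := by
  exact expNegInvGlue.nonneg _

theorem bump_add {P : ℝ} (hP : P ≠ 0) (δ s : ℝ) (n : ℤ) : bump P δ (s + n * P) = bump P δ s := by
  unfold bump
  have h : 2 * Real.pi * (s + n * P) / P = 2 * Real.pi * s / P + n * (2 * Real.pi) := by
    field_simp
  rw [h, Real.cos_add_int_mul_two_pi]

theorem bump_neg (P δ s : ℝ) : bump P δ (-s) = bump P δ s := by
  unfold bump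
  have h : 2 * Real.pi * (-s) / P = -(2 * Real.pi * s / P) := by ring
  rw [h, Real.cos_neg]

theorem bump_pos_iff {P δ : ℝ} (hδ : 0 < δ) (hδP : δ ≤ P) (s : ℝ) :
    0 < bump P δ s ↔ ∃ n : ℤ, |s - n * P| < δ / 2 := by
  have hP : 0 < P := lt_of_lt_of_le hδ hδP
  have hpi := Real.pi_pos
  have key : ∀ n : ℤ, bump P δ s =
      expNegInvGlue (Real.cos (2 * Real.pi * |s - n * P| / P) - Real.cos (Real.pi * δ / P)) := by
    intro n
    have h1 : bump P δ s = bump P δ (s - n * P) := by
      have := bump_add hP.ne' δ (s - n * P) n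
      rw [sub_add_cancel] at this
      exact this
    rw [h1]
    rcases abs_choice (s - n * P) with h2 | h2
    · rw [h2]; rfl
    · rw [h2, ← bump_neg]; rfl
  have hδ' : Real.pi * δ / P ≤ Real.pi := by
    rw [div_le_iff₀ hP]; gcongr
  have hδ0 : 0 ≤ Real.pi * δ / P := by positivity
  constructor
  · intro h
    refine ⟨round (s / P), ?_⟩
    by_contra hcon
    push Not at hcon
    have h1 : |s - (round (s / P) : ℤ) * P| ≤ P / 2 := by
      have h2 := abs_sub_round (s / P)
      have h3 : s - (round (s / P) : ℤ) * P = (s / P - (round (s / P) : ℤ)) * P := by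
        field_simp
      rw [h3, abs_mul, abs_of_pos hP]
      nlinarith
    rw [key (round (s / P)), expNegInvGlue.zero_of_nonpos] at h
    · exact absurd h (lt_irrefl _)
    · rw [sub_nonpos]
      refine Real.cos_le_cos_of_nonneg_of_le_pi hδ0 ?_ ?_
      · rw [div_le_iff₀ hP]
        nlinarith
      · rw [div_le_div_iff_of_pos_right hP]
        nlinarith
  · rintro ⟨n, hn⟩
    rw [key n]
    refine expNegInvGlue.pos_of_pos ?_
    rw [sub_pos]
    refine Real.cos_lt_cos_of_nonneg_of_le_pi (by positivity) hδ' ?_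
    rw [div_lt_div_iff_of_pos_right hP]
    nlinarith

end Pool.Agent.TOR
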