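import Pool.Agent.TOR.RRC

/-!
MODULE UUC (the positions; imports RRC, which may be a stub).

* `pos_add`: `pos l (j + 3^len) = pos l j + UU l`: induction on `j` with `rr_add`.
* `pos_strictMono`: `pos l (j+1) ≥ pos l j + 1`.
* `UU_congr`: `UU` depends only on the length. `pos l n = ∑_{t<n} (1 + rr l 0 (t+1))` (induction); general claim: for all `l, l'` of the same
  length and all `i`: `∑_{t < 3^len} rr l i (t+1) = ∑_{t<3^len} rr l' i (t+1)`: induction on `l`: `∑_{t < 3 n} f t = ∑_{u<n} (f (3u) + f (3u+1)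
  + f(3u+2))` (`Finset.sum_range_succ` induction) and `f (3u) + f(3u+1) = (2i+b) + (2i+1-b) = 4i+1`, `f (3u+2) = rr bs (i+1) (u+1)`.
* `three_le_UU`: `pos l j ≥ j` and `3^len ≥ 3`.
-/

set_option autoImplicit false

namespace Pool.Agent.TOR

theorem pos_add (l : List Bool) (j : ℕ) : pos l (j + 3 ^ l.length) = pos l j + UU l := by
  induction j with
  | zero => simp [pos, UU]
  | succ j ih =>
    have e : j + 1 + 3 ^ l.length = (j + 3 ^ l.length) + 1 := by omega
    have h : rr l 0 (((j + 3 ^ l.length : ℕ) : ℤ) + 1) = rr l 0 ((j : ℤ) + 1) := by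
      rw [← rr_add l 0 ((j : ℤ) + 1)]
      congr 1
      push_cast
      ring
    rw [e, pos, pos, ih, h]
    omega

theorem pos_strictMono (l : List Bool) : StrictMono (pos l) := by
  refine strictMono_nat_of_lt_succ fun n => ?_
  rw [pos]
  omega

theorem le_pos (l : List Bool) (j : ℕ) : j ≤ pos l j :=
  (pos_strictMono l).le_apply

private theorem UUC_sum3 (f : ℕ → ℕ) (n : ℕ) :
    ∑ t ∈ Finset.range (3 * n), f t
      = ∑ u ∈ Finset.range n, (f (3 * u) + f (3 * u + 1) + f (3 * u + 2)) := by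
  induction n with
  | zero => simp
  | succ n ih =>
    have e : 3 * (n + 1) = 3 * n + 1 + 1 + 1 := by omega
    rw [e, Finset.sum_range_succ, Finset.sum_range_succ, Finset.sum_range_succ,
      Finset.sum_range_succ, ih]
    ring

private theorem UUC_cons (b : Bool) (bs : List Bool) (i : ℕ) :
    ∑ t ∈ Finset.range (3 ^ (b :: bs).length), rr (b :: bs) i ((t : ℤ) + 1)
      = ∑ u ∈ Finset.range (3 ^ bs.length), (4 * i + 1 + rr bs (i + 1) ((u : ℤ) + 1)) := by
  rw [List.length_cons, pow_succ, mul_comm, UUC_sum3]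
  refine Finset.sum_congr rfl fun u _ => ?_
  have h1 : rr (b :: bs) i (((3 * u : ℕ) : ℤ) + 1) = 2 * i + b.toNat := by
    rw [rr, if_pos (by push_cast; omega)]
  have h2 : rr (b :: bs) i (((3 * u + 1 : ℕ) : ℤ) + 1) = 2 * i + 1 - b.toNat := by
    rw [rr, if_neg (by push_cast; omega), if_pos (by push_cast; omega)]
  have h3 : rr (b :: bs) i (((3 * u + 2 : ℕ) : ℤ) + 1) = rr bs (i + 1) ((u : ℤ) + 1) := by
    rw [rr, if_neg (by push_cast; omega), if_neg (by push_cast; omega)]
    congr 1
    push_cast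
    omega
  rw [h1, h2, h3]
  have hb : b.toNat ≤ 1 := Bool.toNat_le b
  omega

private theorem UUC_sum_congr : ∀ (l l' : List Bool) (_ : l.length = l'.length) (i : ℕ),
    ∑ t ∈ Finset.range (3 ^ l.length), rr l i ((t : ℤ) + 1)
      = ∑ t ∈ Finset.range (3 ^ l'.length), rr l' i ((t : ℤ) + 1)
  | [], [], _, i => rfl
  | [], _ :: _, h, _ => by simp at h
  | _ :: _, [], h, _ => by simp at h
  | b :: bs, b' :: bs', h, i => by
    have hl : bs.length = bs'.length := by simpa using h
    have ih := UUC_sum_congr bs bs' hl (i + 1)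
    rw [hl] at ih
    simp only [UUC_cons, Finset.sum_add_distrib, Finset.sum_const, Finset.card_range, hl, ih]

private theorem UUC_pos_eq (l : List Bool) (n : ℕ) :
    pos l n = ∑ t ∈ Finset.range n, (1 + rr l 0 ((t : ℤ) + 1)) := by
  induction n with
  | zero => rfl
  | succ n ih => rw [Finset.sum_range_succ, pos, ih, add_assoc]

theorem UU_congr {l l' : List Bool} (h : l.length = l'.length) : UU l = UU l' := by
  rw [UU, UU, UUC_pos_eq, UUC_pos_eq, Finset.sum_add_distrib, Finset.sum_add_distrib,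
    UUC_sum_congr l l' h 0, h]

theorem three_le_UU {l : List Bool} (h : l ≠ []) : 3 ≤ UU l := by
  refine le_trans ?_ (le_pos l (3 ^ l.length))
  have h1 : l.length ≠ 0 := by simpa using h
  calc 3 = 3 ^ 1 := rfl
    _ ≤ 3 ^ l.length := Nat.pow_le_pow_right (by norm_num) (Nat.one_le_iff_ne_zero.2 h1)

theorem UU_pos (l : List Bool) : 0 < UU l :=
  lt_of_lt_of_le (pow_pos (by norm_num) _) (le_pos l (3 ^ l.length))

theorem pos_lt_UU {l : List Bool} {j : ℕ} (hj : j < 3 ^ l.length) : pos l j < UU l :=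
  pos_strictMono l hj

end Pool.Agent.TOR
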