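import Pool.Agent.TOR.BMP
import Pool.Agent.TOR.UUC

/-!
MODULE CFG (the profile cell by cell; imports BMP and UUC, stubs are enough). `δ = dl P l = P / UU l`, so `δ * UU l = P`, `0 < δ ≤ P`.

* `bsum_term`: for `s ∈ [δn, δ(n+1)]` and `j < 3^len`: if `bump P δ (s - δ(pos l j + 1/2)) ≠ 0` then there is `m` with `n = pos l j + m UU l`:
  `bump_pos_iff`: `|s - δ(pos j + 1/2) - mP| < δ/2` says `δ k < s < δ(k+1)` with `k = pos j + m U`; with `s ∈ [δn, δ(n+1)]`: `k = n` (`k < n+1` and `n < k+1`).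
* `bsum_gap`: `n ∉ SS l`: all terms vanish.
* `bsum_cell`: `n = pos l j0 + m0 U`: the terms `j ≠ j0` vanish (`pos l j + m U = pos l j0 + m0 U` with `0 ≤ pos < U` (`pos_lt_UU`) gives `m = m0`,
  `pos j = pos j0`, `j = j0` by `pos_strictMono`), and the term `j0` is `bump P δ (s - δ(n+1/2) + m0 P)` (`bump_add`). `Finset.sum_eq_single`.
* `bsum_pos_iff`: `s` is in the closed cell `n = ⌊s/δ⌋`; if `n ∈ SS l` then `bsum = bump P δ (s - δ(n+1/2))` which is positive iff `s` is in the open cell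
  (`bump_pos_iff` with `n = 0`; conversely `|s - δ(n+1/2) - mP| < δ/2`, `|s - δ(n+1/2)| ≤ δ/2` and `δ ≤ P` force ... if `m ≠ 0` then
  `|m| P < δ`, impossible); if `n ∉ SS l`, `bsum = 0` and `s` is not in an open cell `k ∈ SS l` (else `k = n`).
-/

set_option autoImplicit false

namespace Pool.Agent.TOR

open Set
open scoped ContDiff

theorem dl_pos {P : ℝ} (hP : 0 < P) (l : List Bool) : 0 < dl P l := by
  have h : (0 : ℝ) < UU l := by exact_mod_cast UU_pos l
  exact div_pos hP h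

theorem dl_le {P : ℝ} (hP : 0 < P) (l : List Bool) : dl P l ≤ P := by
  have h : (1 : ℝ) ≤ UU l := by exact_mod_cast UU_pos l
  exact div_le_self hP.le h

theorem dl_mul (P : ℝ) (l : List Bool) : dl P l * UU l = P := by
  have h : (UU l : ℝ) ≠ 0 := by exact_mod_cast (UU_pos l).ne'
  exact div_mul_cancel₀ P h

theorem bsum_contDiff (P : ℝ) (l : List Bool) : ContDiff ℝ ∞ (bsum P l) := by
  unfold bsum
  exact ContDiff.sum fun j _ => (bump_contDiff P (dl P l)).comp (contDiff_id.sub contDiff_const)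

theorem bsum_nonneg (P : ℝ) (l : List Bool) (s : ℝ) : 0 ≤ bsum P l s := by
  exact Finset.sum_nonneg fun j _ => bump_nonneg _ _ _

theorem bsum_add {P : ℝ} (hP : 0 < P) (l : List Bool) (s : ℝ) : bsum P l (s + P) = bsum P l s := by
  unfold bsum
  refine Finset.sum_congr rfl fun j _ => ?_
  have h := bump_add hP.ne' (dl P l) (s - dl P l * ((pos l j : ℝ) + 1 / 2)) 1
  rw [← h]
  congr 1
  push_cast
  ring

private theorem bsum_term {P : ℝ} (hP : 0 < P) {l : List Bool} {n : ℤ} {s : ℝ}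
    (hs : s ∈ Icc (dl P l * n) (dl P l * (n + 1))) {j : ℕ}
    (hne : bump P (dl P l) (s - dl P l * ((pos l j : ℝ) + 1 / 2)) ≠ 0) :
    ∃ m : ℤ, n = pos l j + m * UU l := by
  have h0 : 0 < bump P (dl P l) (s - dl P l * ((pos l j : ℝ) + 1 / 2)) :=
    lt_of_le_of_ne (bump_nonneg _ _ _) (Ne.symm hne)
  have hd := dl_pos hP l
  obtain ⟨m, hm⟩ := (bump_pos_iff hd (dl_le hP l) _).1 h0
  refine ⟨m, ?_⟩
  have hmul := dl_mul P l
  have h1 : s - dl P l * ((pos l j : ℝ) + 1 / 2) - m * P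
      = s - dl P l * (((pos l j + m * UU l : ℤ) : ℝ) + 1 / 2) := by
    push_cast
    linear_combination ((m : ℝ)) * hmul
  rw [h1] at hm
  set k : ℤ := pos l j + m * UU l with hk
  have h2 := abs_lt.1 hm
  have h3 : dl P l * (n : ℝ) < dl P l * ((k : ℝ) + 1) := by
    have := hs.1
    nlinarith [h2.2]
  have h4 : dl P l * (k : ℝ) < dl P l * ((n : ℝ) + 1) := by
    have := hs.2
    nlinarith [h2.1]
  have h5 : (n : ℝ) < (k : ℝ) + 1 := lt_of_mul_lt_mul_left h3 hd.le
  have h6 : (k : ℝ) < (n : ℝ) + 1 := lt_of_mul_lt_mul_left h4 hd.le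
  have h7 : n < k + 1 := by exact_mod_cast h5
  have h8 : k < n + 1 := by exact_mod_cast h6
  omega

theorem bsum_gap {P : ℝ} (hP : 0 < P) {l : List Bool} {n : ℤ} (hn : n ∉ SS l) {s : ℝ}
    (hs : s ∈ Icc (dl P l * n) (dl P l * (n + 1))) : bsum P l s = 0 := by
  unfold bsum
  refine Finset.sum_eq_zero fun j hj => ?_
  by_contra hne
  obtain ⟨m, hm⟩ := bsum_term hP hs hne
  exact hn ⟨j, Finset.mem_range.1 hj, m, hm⟩

theorem bsum_cell {P : ℝ} (hP : 0 < P) {l : List Bool} {n : ℤ} (hn : n ∈ SS l) {s : ℝ}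
    (hs : s ∈ Icc (dl P l * n) (dl P l * (n + 1))) :
    bsum P l s = bump P (dl P l) (s - dl P l * (n + 1 / 2)) := by
  obtain ⟨j0, hj0, m0, hn0⟩ := hn
  unfold bsum
  rw [Finset.sum_eq_single j0]
  · have h := bump_add hP.ne' (dl P l) (s - dl P l * ((n : ℝ) + 1 / 2)) m0
    rw [← h]
    congr 1
    have hmul := dl_mul P l
    rw [hn0]
    push_cast
    linear_combination (m0 : ℝ) * hmul
  · intro j hj hne
    by_contra hb
    obtain ⟨m, hm⟩ := bsum_term hP hs hb
    apply hne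
    apply (pos_strictMono l).injective
    have h1 : (pos l j : ℤ) - pos l j0 = (m0 - m) * UU l := by
      rw [sub_mul]
      linarith [hm.symm.trans hn0]
    have h2 : ((pos l j : ℤ) - pos l j0) = 0 := by
      apply Int.eq_zero_of_abs_lt_dvd (m := (UU l : ℤ))
      · exact ⟨m0 - m, by rw [h1]; ring⟩
      · have h3 := pos_lt_UU (Finset.mem_range.1 hj)
        have h4 := pos_lt_UU hj0
        rw [abs_lt]
        constructor <;> omega
    omega
  · intro hj
    exact absurd (Finset.mem_range.2 hj0) hj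

theorem bsum_pos_iff {P : ℝ} (hP : 0 < P) (l : List Bool) (s : ℝ) :
    0 < bsum P l s ↔ ∃ n ∈ SS l, s ∈ Ioo (dl P l * (n : ℝ)) (dl P l * ((n : ℝ) + 1)) := by
  have hd := dl_pos hP l
  have hdP := dl_le hP l
  constructor
  · intro h
    have hs : s ∈ Icc (dl P l * (⌊s / dl P l⌋ : ℝ)) (dl P l * ((⌊s / dl P l⌋ : ℝ) + 1)) := by
      have h1 := Int.floor_le (s / dl P l)
      have h2 := (Int.lt_floor_add_one (s / dl P l)).le
      rw [le_div_iff₀ hd] at h1
      rw [div_le_iff₀ hd] at h2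
      constructor <;> linarith
    set n : ℤ := ⌊s / dl P l⌋ with hn
    by_cases hS : n ∈ SS l
    · refine ⟨n, hS, ?_⟩
      rw [bsum_cell hP hS hs] at h
      obtain ⟨m, hm⟩ := (bump_pos_iff hd hdP _).1 h
      have h2 := abs_lt.1 hm
      have hm0 : m = 0 := by
        by_contra hne
        have h3 : (1 : ℝ) ≤ |(m : ℝ)| := by
          have := Int.one_le_abs hne
          exact_mod_cast this
        have h4 : P ≤ |(m : ℝ) * P| := by
          rw [abs_mul, abs_of_pos hP]
          nlinarith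
        have h5 : |(m : ℝ) * P| < dl P l := by
          rw [abs_lt]
          constructor
          · nlinarith [h2.1, h2.2, hs.1, hs.2]
          · nlinarith [h2.1, h2.2, hs.1, hs.2]
        linarith
      rw [hm0] at h2
      simp only [Int.cast_zero, zero_mul, sub_zero] at h2
      constructor <;> nlinarith [h2.1, h2.2]
    · rw [bsum_gap hP hS hs] at h
      exact absurd h (lt_irrefl 0)
  · rintro ⟨n, hn, hs⟩
    rw [bsum_cell hP hn ⟨hs.1.le, hs.2.le⟩, bump_pos_iff hd hdP]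
    refine ⟨0, ?_⟩
    simp only [Int.cast_zero, zero_mul, sub_zero]
    rw [abs_lt]
    constructor <;> nlinarith [hs.1, hs.2]

theorem prof_eq_one_iff {P : ℝ} (hP : 0 < P) (l : List Bool) {eta : ℝ} (he : 0 < eta) (s : ℝ) :
    prof P l eta s = 1 ↔ ∀ n ∈ SS l, s ∉ Ioo (dl P l * (n : ℝ)) (dl P l * ((n : ℝ) + 1)) := by
  have h1 : prof P l eta s = 1 ↔ ¬ 0 < bsum P l s := by
    unfold prof
    constructor
    · intro h h0
      have := mul_pos he h0
      linarith
    · intro h
      have h0 : bsum P l s = 0 := le_antisymm (not_lt.1 h) (bsum_nonneg P l s)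
      rw [h0, mul_zero, add_zero]
  rw [h1, bsum_pos_iff hP]
  push Not
  rfl

theorem prof_contDiff (P : ℝ) (l : List Bool) (eta : ℝ) : ContDiff ℝ ∞ (prof P l eta) := by
  unfold prof
  exact contDiff_const.add (contDiff_const.mul (bsum_contDiff P l))

theorem one_le_prof (P : ℝ) (l : List Bool) {eta : ℝ} (he : 0 ≤ eta) (s : ℝ) :
    1 ≤ prof P l eta s := by
  unfold prof
  have := mul_nonneg he (bsum_nonneg P l s)
  linarith

theorem prof_add {P : ℝ} (hP : 0 < P) (l : List Bool) (eta s : ℝ) :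
    prof P l eta (s + P) = prof P l eta s := by
  unfold prof
  rw [bsum_add hP]

end Pool.Agent.TOR
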