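import Pool.Agent.TOR.CFG

/-!
MODULE CLO (closeness to the flat torus; imports CFG, a stub is enough).

`prof P l eta x - 1 = eta * bsum P l x`, `iteratedDeriv n (eta * f) = eta * iteratedDeriv n f` (`iteratedDeriv_const_mul` / `iteratedDeriv_fun_const_smul...`), and
`iteratedDeriv n (bsum P l)` is continuous and `P`-periodic (the iterated derivative of a periodic function is periodic: `iteratedDeriv_comp_add_const` or so), hence
bounded (`|·| ≤ C` on the compact `[0,P]`, every `s` is `s0 + m P`, `s0 ∈ [0,P)`: `Function.Periodic.exists_mem_Ico₀`, or `Function.Periodic.compact_of_continuous`...).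
Finitely many `i : Fin N`, `n ≤ K`: take the maximum `C` of the bounds and `eta = ε / (C + 1)`.
-/

set_option autoImplicit false

namespace Pool.Agent.TOR

theorem exists_bound {P : ℝ} (hP : 0 < P) (l : List Bool) (n : ℕ) :
    ∃ C : ℝ, 0 ≤ C ∧ ∀ s, |iteratedDeriv n (bsum P l) s| ≤ C := by
  have hc : Continuous (iteratedDeriv n (bsum P l)) :=
    (bsum_contDiff P l).continuous_iteratedDeriv n (by exact_mod_cast le_top)
  have hper : Function.Periodic (iteratedDeriv n (bsum P l)) P := by
    intro s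
    have h1 : (fun z => bsum P l (z + P)) = bsum P l := funext fun z => bsum_add hP l z
    have h2 := congrFun (iteratedDeriv_comp_add_const (n := n) (f := bsum P l) (s := P)) s
    rw [h1] at h2
    exact h2.symm
  obtain ⟨C, hC⟩ := (isCompact_Icc (a := (0 : ℝ)) (b := P)).exists_bound_of_continuousOn
    hc.continuousOn
  refine ⟨C, (norm_nonneg _).trans (hC 0 ⟨le_rfl, hP.le⟩), fun s => ?_⟩
  obtain ⟨y, hy, hy2⟩ := hper.exists_mem_Ico₀ hP s
  rw [hy2]
  exact hC y ⟨hy.1, hy.2.le⟩

theorem close_prof {P : ℝ} (hP : 0 < P) {N : ℕ} (K : ℕ) (L : Fin N → List Bool) {ε : ℝ}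
    (hε : 0 < ε) : ∃ eta : ℝ, 0 < eta ∧ ∀ i, ∀ n ≤ K, ∀ s,
      |iteratedDeriv n (fun x => prof P (L i) eta x - 1) s| ≤ ε := by
  choose C hC0 hC using fun (i : Fin N) (n : ℕ) => exists_bound hP (L i) n
  set D : ℝ := ∑ i, ∑ n ∈ Finset.range (K + 1), C i n with hD
  have hD0 : 0 ≤ D := Finset.sum_nonneg fun i _ => Finset.sum_nonneg fun n _ => hC0 i n
  refine ⟨ε / (D + 1), by positivity, fun i n hn s => ?_⟩
  have h1 : (fun x => prof P (L i) (ε / (D + 1)) x - 1)
      = fun x => (ε / (D + 1)) * bsum P (L i) x := by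
    funext x
    unfold prof
    ring
  rw [h1, iteratedDeriv_const_mul_field, abs_mul, abs_of_pos (by positivity)]
  have h2 : C i n ≤ D := by
    have h3 : C i n ≤ ∑ n ∈ Finset.range (K + 1), C i n :=
      Finset.single_le_sum (f := fun n => C i n) (fun n _ => hC0 i n)
        (Finset.mem_range.2 (by omega))
    have h4 : ∑ n ∈ Finset.range (K + 1), C i n ≤ D :=
      Finset.single_le_sum (f := fun i => ∑ n ∈ Finset.range (K + 1), C i n)
        (fun i _ => Finset.sum_nonneg fun n _ => hC0 i n) (Finset.mem_univ i)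
    exact h3.trans h4
  have h5 := hC i n s
  calc ε / (D + 1) * |iteratedDeriv n (bsum P (L i)) s| ≤ ε / (D + 1) * (D + 1) :=
        mul_le_mul_of_nonneg_left (by linarith) (by positivity)
    _ = ε := by field_simp

end Pool.Agent.TOR
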