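import Mathlib

/-!
TOR, definitions. The torus is `ℝ² / (Pℤ × ℤ)` with the metric `ds² + a(s)² dy²`, `a > 0` smooth and `P`-periodic.
-/

set_option autoImplicit false

namespace Pool.Agent.TOR

open scoped ContDiff

/-- the derivative of `u` in the first variable -/
noncomputable def ds (u : ℝ × ℝ → ℂ) (p : ℝ × ℝ) : ℂ := deriv (fun t => u (t, p.2)) p.1

/-- the derivative of `u` in the second variable -/
noncomputable def dy (u : ℝ × ℝ → ℂ) (p : ℝ × ℝ) : ℂ := deriv (fun t => u (p.1, t)) p.2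

/-- the Laplace-Beltrami operator of the metric `ds² + a(s)² dy²`:
`Δu = u_ss + (a'/a) u_s + a⁻² u_yy` -/
noncomputable def lap (a : ℝ → ℝ) (u : ℝ × ℝ → ℂ) (p : ℝ × ℝ) : ℂ :=
  ds (ds u) p + ((deriv a p.1 / a p.1 : ℝ) : ℂ) * ds u p + (((a p.1)⁻¹ ^ 2 : ℝ) : ℂ) * dy (dy u) p

theorem ds_add {u v : ℝ × ℝ → ℂ} (hu : ContDiff ℝ ∞ u) (hv : ContDiff ℝ ∞ v) (p : ℝ × ℝ) :
    ds (u + v) p = ds u p + ds v p := by
  have h1 : DifferentiableAt ℝ (fun t => u (t, p.2)) p.1 :=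
    ((hu.comp (contDiff_id.prodMk contDiff_const)).differentiable (by simp)) p.1
  have h2 : DifferentiableAt ℝ (fun t => v (t, p.2)) p.1 :=
    ((hv.comp (contDiff_id.prodMk contDiff_const)).differentiable (by simp)) p.1
  exact deriv_add h1 h2

theorem dy_add {u v : ℝ × ℝ → ℂ} (hu : ContDiff ℝ ∞ u) (hv : ContDiff ℝ ∞ v) (p : ℝ × ℝ) :
    dy (u + v) p = dy u p + dy v p := by
  have h1 : DifferentiableAt ℝ (fun t => u (p.1, t)) p.2 :=
    ((hu.comp (contDiff_const.prodMk contDiff_id)).differentiable (by simp)) p.2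
  have h2 : DifferentiableAt ℝ (fun t => v (p.1, t)) p.2 :=
    ((hv.comp (contDiff_const.prodMk contDiff_id)).differentiable (by simp)) p.2
  exact deriv_add h1 h2

theorem ds_smul (c : ℂ) (u : ℝ × ℝ → ℂ) (p : ℝ × ℝ) : ds (c • u) p = c * ds u p := by
  have h : (fun t => (c • u) (t, p.2)) = fun t => c * u (t, p.2) := by
    funext t; simp
  unfold ds
  rw [h, deriv_const_mul_field]

theorem dy_smul (c : ℂ) (u : ℝ × ℝ → ℂ) (p : ℝ × ℝ) : dy (c • u) p = c * dy u p := by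
  have h : (fun t => (c • u) (p.1, t)) = fun t => c * u (p.1, t) := by
    funext t; simp
  unfold dy
  rw [h, deriv_const_mul_field]

theorem ds_eq_fderiv {u : ℝ × ℝ → ℂ} (hu : ContDiff ℝ ∞ u) (p : ℝ × ℝ) :
    ds u p = fderiv ℝ u p (1, 0) := by
  have h1 : HasFDerivAt u (fderiv ℝ u p) (p.1, p.2) :=
    ((hu.differentiable (by simp)) p).hasFDerivAt
  have h2 : HasDerivAt (fun t : ℝ => ((t, p.2) : ℝ × ℝ)) (1, 0) p.1 :=
    (hasDerivAt_id p.1).prodMk (hasDerivAt_const p.1 p.2)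
  exact (h1.comp_hasDerivAt p.1 h2).deriv

theorem dy_eq_fderiv {u : ℝ × ℝ → ℂ} (hu : ContDiff ℝ ∞ u) (p : ℝ × ℝ) :
    dy u p = fderiv ℝ u p (0, 1) := by
  have h1 : HasFDerivAt u (fderiv ℝ u p) (p.1, p.2) :=
    ((hu.differentiable (by simp)) p).hasFDerivAt
  have h2 : HasDerivAt (fun t : ℝ => ((p.1, t) : ℝ × ℝ)) (0, 1) p.2 :=
    (hasDerivAt_const p.2 p.1).prodMk (hasDerivAt_id p.2)
  exact (h1.comp_hasDerivAt p.2 h2).deriv

theorem ds_contDiff {u : ℝ × ℝ → ℂ} (hu : ContDiff ℝ ∞ u) : ContDiff ℝ ∞ (ds u) := by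
  have h : ds u = fun p => fderiv ℝ u p (1, 0) := funext fun p => ds_eq_fderiv hu p
  rw [h]
  exact (hu.fderiv_right (m := ∞) (by simp)).clm_apply contDiff_const

theorem dy_contDiff {u : ℝ × ℝ → ℂ} (hu : ContDiff ℝ ∞ u) : ContDiff ℝ ∞ (dy u) := by
  have h : dy u = fun p => fderiv ℝ u p (0, 1) := funext fun p => dy_eq_fderiv hu p
  rw [h]
  exact (hu.fderiv_right (m := ∞) (by simp)).clm_apply contDiff_const

theorem lap_add (a : ℝ → ℝ) {u v : ℝ × ℝ → ℂ} (hu : ContDiff ℝ ∞ u) (hv : ContDiff ℝ ∞ v)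
    (p : ℝ × ℝ) : lap a (u + v) p = lap a u p + lap a v p := by
  have h1 : ds (u + v) = ds u + ds v := funext fun q => ds_add hu hv q
  have h2 : dy (u + v) = dy u + dy v := funext fun q => dy_add hu hv q
  unfold lap
  rw [h1, h2, ds_add (ds_contDiff hu) (ds_contDiff hv), dy_add (dy_contDiff hu) (dy_contDiff hv),
    Pi.add_apply]
  ring

theorem lap_smul (a : ℝ → ℝ) (c : ℂ) (u : ℝ × ℝ → ℂ) (p : ℝ × ℝ) :
    lap a (c • u) p = c * lap a u p := by
  have h1 : ds (c • u) = c • ds u := funext fun q => by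
    rw [ds_smul]; rfl
  have h2 : dy (c • u) = c • dy u := funext fun q => by
    rw [dy_smul]; rfl
  unfold lap
  rw [h1, h2, ds_smul, dy_smul, Pi.smul_apply, smul_eq_mul]
  ring

/-- the eigenspace of the Laplace-Beltrami operator of the torus `ℝ² / (Pℤ × ℤ)` with the metric
`ds² + a(s)² dy²` for the eigenvalue `lam`: the smooth `(P,1)`-periodic functions with
`Δu = - lam u` -/
noncomputable def eig (P : ℝ) (a : ℝ → ℝ) (lam : ℝ) : Submodule ℂ (ℝ × ℝ → ℂ) where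
  carrier := {u | ContDiff ℝ ∞ u ∧ (∀ p : ℝ × ℝ, u (p.1 + P, p.2) = u p) ∧
    (∀ p : ℝ × ℝ, u (p.1, p.2 + 1) = u p) ∧ ∀ p, lap a u p = -(lam : ℂ) * u p}
  zero_mem' := by
    refine ⟨contDiff_const, fun p => rfl, fun p => rfl, fun p => ?_⟩
    have h := lap_smul a 0 (0 : ℝ × ℝ → ℂ) p
    rw [zero_smul, zero_mul] at h
    rw [h]; simp
  add_mem' := by
    rintro u v ⟨hu, hu1, hu2, hu3⟩ ⟨hv, hv1, hv2, hv3⟩
    refine ⟨hu.add hv, fun p => ?_, fun p => ?_, fun p => ?_⟩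
    · simp [hu1, hv1]
    · simp [hu2, hv2]
    · rw [lap_add a hu hv, hu3, hv3, Pi.add_apply]; ring
  smul_mem' := by
    rintro c u ⟨hu, hu1, hu2, hu3⟩
    refine ⟨contDiff_const.smul hu, fun p => ?_, fun p => ?_, fun p => ?_⟩
    · simp [hu1]
    · simp [hu2]
    · rw [lap_smul, hu3, Pi.smul_apply, smul_eq_mul]; ring

/-- the two tori have the same eigenvalues with the same (finite) multiplicities -/
def Isospectral (P : ℝ) (a b : ℝ → ℝ) : Prop :=
  ∀ lam : ℝ, Module.Finite ℂ (eig P a lam) ∧ Module.Finite ℂ (eig P b lam) ∧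
    Module.finrank ℂ (eig P a lam) = Module.finrank ℂ (eig P b lam)

/-- `v` is in the lattice `Pℤ × ℤ` -/
def Lat (P : ℝ) (v : ℝ × ℝ) : Prop := ∃ m n : ℤ, v = ((m : ℝ) * P, (n : ℝ))

/-- there is an isometry (written on the universal cover `ℝ²`) of the torus with the metric
`ds² + a(s)² dy²` onto the torus with the metric `ds² + b(s)² dy²` -/
def TorusIsometric (P : ℝ) (a b : ℝ → ℝ) : Prop :=
  ∃ Φ Ψ : ℝ × ℝ → ℝ × ℝ, ContDiff ℝ 1 Φ ∧ ContDiff ℝ 1 Ψ ∧ (∀ p, Ψ (Φ p) = p) ∧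
    (∀ p, Φ (Ψ p) = p) ∧ (∀ p q, Lat P (p - q) → Lat P (Φ p - Φ q)) ∧
    (∀ p q, Lat P (p - q) → Lat P (Ψ p - Ψ q)) ∧
    ∀ p v, (fderiv ℝ Φ p v).1 ^ 2 + b (Φ p).1 ^ 2 * (fderiv ℝ Φ p v).2 ^ 2
      = v.1 ^ 2 + a p.1 ^ 2 * v.2 ^ 2

/-- the statement of the theorem -/
def Main : Prop := ∀ (N K : ℕ) (P ε : ℝ), 1 < P → 0 < ε →
    ∃ a : Fin N → ℝ → ℝ,
      (∀ i, ContDiff ℝ ∞ (a i) ∧ (∀ s, 0 < a i s) ∧ ∀ s, a i (s + P) = a i s) ∧
      (∀ i, ∀ n ≤ K, ∀ s, |iteratedDeriv n (fun x => a i x - 1) s| ≤ ε) ∧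
      (∀ i j, Isospectral P (a i) (a j)) ∧
      ∀ i j, i ≠ j → ¬ TorusIsometric P (a i) (a j)

/-! ### The configurations -/

/-- the gap lengths -/
def rr : List Bool → ℕ → ℤ → ℕ
  | [], i, _ => 2 * i
  | b :: bs, i, t =>
    if t % 3 = 1 then 2 * i + b.toNat else if t % 3 = 2 then 2 * i + 1 - b.toNat
    else rr bs (i + 1) (t / 3)

/-- the positions of the bumps (numbers of cells) -/
def pos (l : List Bool) : ℕ → ℕ
  | 0 => 0
  | j + 1 => pos l j + 1 + rr l 0 (j + 1)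

/-- the number of cells -/
def UU (l : List Bool) : ℕ := pos l (3 ^ l.length)

/-- the `P`-periodic bump, supported in `|s| ≤ δ/2` mod `P` -/
noncomputable def bump (P δ s : ℝ) : ℝ :=
  expNegInvGlue (Real.cos (2 * Real.pi * s / P) - Real.cos (Real.pi * δ / P))

/-- the length of a cell -/
noncomputable def dl (P : ℝ) (l : List Bool) : ℝ := P / (UU l : ℝ)

/-- the sum of the bumps -/
noncomputable def bsum (P : ℝ) (l : List Bool) (s : ℝ) : ℝ :=
  ∑ j ∈ Finset.range (3 ^ l.length), bump P (dl P l) (s - dl P l * ((pos l j : ℝ) + 1 / 2))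

/-- the profile -/
noncomputable def prof (P : ℝ) (l : List Bool) (eta s : ℝ) : ℝ := 1 + eta * bsum P l s

/-- the cells with a bump -/
def SS (l : List Bool) : Set ℤ := {n | ∃ j < 3 ^ l.length, ∃ m : ℤ, n = pos l j + m * UU l}

/-! ### Words in two matrices -/

/-- product of `f 0, f 1, …, f (n-1)`, later factors on the left -/
def prodM (f : ℕ → Matrix (Fin 2) (Fin 2) ℝ) : ℕ → Matrix (Fin 2) (Fin 2) ℝ
  | 0 => 1
  | n + 1 => f n * prodM f n

/-- the nested words -/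
def mono (F : Matrix (Fin 2) (Fin 2) ℝ) :
    List Bool → ℕ → Matrix (Fin 2) (Fin 2) ℝ → Matrix (Fin 2) (Fin 2) ℝ
  | [], i, X => F ^ (2 * i) * X
  | b :: bs, i, X =>
    mono F bs (i + 1) (X * F ^ (2 * i + 1 - b.toNat) * X * F ^ (2 * i + b.toNat) * X)

/-! ### The ordinary differential equation -/

/-- real solutions of `v' = w/a, w' = (κ²/a - λ a) v` -/
def Sol (a : ℝ → ℝ) (lam kap : ℝ) (v w : ℝ → ℝ) : Prop :=
  (∀ s, HasDerivAt v (w s / a s) s) ∧
    ∀ s, HasDerivAt w ((kap ^ 2 / a s - lam * a s) * v s) s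

/-- `M` is the transfer matrix from `s` to `t` -/
def IsTm (a : ℝ → ℝ) (lam kap s t : ℝ) (M : Matrix (Fin 2) (Fin 2) ℝ) : Prop :=
  ∀ v w, Sol a lam kap v w → v t = M 0 0 * v s + M 0 1 * w s ∧ w t = M 1 0 * v s + M 1 1 * w s

open Classical in
/-- the transfer matrix from `s` to `t` -/
noncomputable def tm (a : ℝ → ℝ) (lam kap s t : ℝ) : Matrix (Fin 2) (Fin 2) ℝ :=
  if h : ∃ M, IsTm a lam kap s t M then h.choose else 0

/-- the `P`-periodic smooth complex solutions `v` of the equation of the `k`-th Fourier mode,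
`kap = 2πk` -/
def mode (P : ℝ) (a : ℝ → ℝ) (lam kap : ℝ) : Submodule ℂ (ℝ → ℂ) where
  carrier := {v | ContDiff ℝ ∞ v ∧ (∀ s, v (s + P) = v s) ∧ ∀ s,
    deriv (deriv v) s + ((deriv a s / a s : ℝ) : ℂ) * deriv v s
      - (((a s)⁻¹ ^ 2 * kap ^ 2 : ℝ) : ℂ) * v s = -(lam : ℂ) * v s}
  zero_mem' := by
    refine ⟨contDiff_const, fun s => rfl, fun s => ?_⟩
    have h : deriv (0 : ℝ → ℂ) = 0 := by funext x; exact deriv_const x (0 : ℂ)
    rw [h, h]; simp
  add_mem' := by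
    rintro u v ⟨hu, hu1, hu2⟩ ⟨hv, hv1, hv2⟩
    refine ⟨hu.add hv, fun s => ?_, fun s => ?_⟩
    · simp [hu1, hv1]
    · have h : deriv (u + v) = deriv u + deriv v := funext fun s =>
        deriv_add ((hu.differentiable (by simp)) s) ((hv.differentiable (by simp)) s)
      have hu' : Differentiable ℝ (deriv u) :=
        ((contDiff_infty_iff_deriv.1 hu).2.differentiable (by simp))
      have hv' : Differentiable ℝ (deriv v) :=
        ((contDiff_infty_iff_deriv.1 hv).2.differentiable (by simp))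
      rw [h, deriv_add (hu' s) (hv' s), Pi.add_apply, Pi.add_apply]
      have e1 := hu2 s
      have e2 := hv2 s
      linear_combination e1 + e2
  smul_mem' := by
    rintro c u ⟨hu, hu1, hu2⟩
    refine ⟨contDiff_const.smul hu, fun s => ?_, fun s => ?_⟩
    · simp [hu1]
    · have h0 : ∀ (f : ℝ → ℂ), deriv (c • f) = c • deriv f := fun f => funext fun s => by
        have h : (c • f) = fun t => c * f t := by
          funext t; simp
        rw [h, deriv_const_mul_field]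
        rfl
      have h := h0 u
      have h2 := h0 (deriv u)
      rw [h, h2, Pi.smul_apply, Pi.smul_apply, Pi.smul_apply, smul_eq_mul, smul_eq_mul,
        smul_eq_mul]
      have e1 := hu2 s
      linear_combination c * e1

end Pool.Agent.TOR
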