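import Pool.Agent.TOR.UUC

/-!
MODULE ENU (the set of the cells determines the bits up to complement; imports UUC and RRC, stubs are enough).

`posZ l j = pos l (j mod 3^n) + (j / 3^n) UU l`, `n = len`.
* `posZ_succ`: `posZ l (j+1) = posZ l j + 1 + rr l 0 (j+1)` : write `j = m 3^n + r`, `0 ≤ r < 3^n`; if `r + 1 < 3^n` it is the definition of
  `pos` and `rr_add_mul`; if `r + 1 = 3^n` then `pos l (3^n) = UU l` = `pos l r + 1 + rr l 0 (r+1)`.
* `posZ_range`: `n ∈ SS l ↔ ∃ j, posZ l j = n` (definitions; `j = j0 + m 3^n`).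
* `shift_of_range`: two strictly increasing `p q : ℤ → ℤ` with the same range: for each `j` choose `f j` with `q (f j) = p j`; `f` is strictly
  increasing and surjective, and `f (j+1) = f j + 1` (otherwise `q (f j + 1)` is strictly between `p j` and `p (j+1)`: take `i` with
  `f i = f j + 1`, then `j < i < j+1`). So `f j = f 0 + j` (`Int.induction_on`).
* `SS_isometry`, `e = 1`: the ranges of `j ↦ posZ l j + c` and of `posZ l'` are equal. So `posZ l' (j + k) = posZ l j + c` for all `j`,
  hence `rr l' 0 (j + k) = rr l 0 j` for all `j` (differences; `posZ_succ`). `j = 0`: `rr l 0 0 = 2 n` (`rr_eq_max`, `3^n ∣ 0`), so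
  `3^n ∣ k` (`rr_eq_max` for `l'`), so `rr l' 0 j = rr l 0 j` (`rr_add_mul`), `rr_inj`: `l' = l`.
  `e = -1`: the ranges of `j ↦ c - posZ l (-j)` (strictly increasing) and of `posZ l'` are equal, so `posZ l' (j+k) = c - posZ l (-j)`;
  differences `j-1 → j`: `1 + rr l' 0 (j+k) = posZ l (-j+1) - posZ l (-j) = 1 + rr l 0 (-j+1)`. So `rr l' 0 (j + k) = rr l 0 (1 - j)` for all `j`;
  `j = 1`: `rr l' 0 (1+k)` is maximal so `3^n ∣ 1 + k`; with `j = 1 + i`: `rr l' 0 (i + (1 + k)) = rr l 0 (-i)`, so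
  `rr l' 0 i = rr l 0 (-i) = rr (l.map not) 0 i` (`rr_neg`), `l' = l.map not` (`rr_inj`).
-/

set_option autoImplicit false

namespace Pool.Agent.TOR

/-- positions for all integers -/
def posZ (l : List Bool) (j : ℤ) : ℤ :=
  (pos l (j % 3 ^ l.length).toNat : ℤ) + (j / 3 ^ l.length) * (UU l : ℤ)

private theorem ENU_posZ_eq (l : List Bool) {r : ℕ} (hr : r < 3 ^ l.length) (m : ℤ) :
    posZ l ((r : ℤ) + m * 3 ^ l.length) = (pos l r : ℤ) + m * (UU l : ℤ) := by
  have hN : (0 : ℤ) < 3 ^ l.length := by positivity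
  have hr' : (r : ℤ) < 3 ^ l.length := by exact_mod_cast hr
  have h1 : ((r : ℤ) + m * 3 ^ l.length) % 3 ^ l.length = r := by
    rw [Int.add_mul_emod_self_right, Int.emod_eq_of_lt (by positivity) hr']
  have h2 : ((r : ℤ) + m * 3 ^ l.length) / 3 ^ l.length = m := by
    rw [Int.add_mul_ediv_right _ _ hN.ne', Int.ediv_eq_zero_of_lt (by positivity) hr', zero_add]
  rw [posZ, h1, h2, Int.toNat_natCast]

private theorem ENU_decomp (l : List Bool) (j : ℤ) :
    ∃ (r : ℕ) (m : ℤ), r < 3 ^ l.length ∧ j = (r : ℤ) + m * 3 ^ l.length := by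
  have hN : (0 : ℤ) < 3 ^ l.length := by positivity
  have h0 : 0 ≤ j % 3 ^ l.length := Int.emod_nonneg _ hN.ne'
  have h1 : j % 3 ^ l.length < 3 ^ l.length := Int.emod_lt_of_pos _ hN
  refine ⟨(j % 3 ^ l.length).toNat, j / 3 ^ l.length, ?_, ?_⟩
  · have : (((j % 3 ^ l.length).toNat : ℕ) : ℤ) < 3 ^ l.length := by
      rw [Int.toNat_of_nonneg h0]; exact h1
    exact_mod_cast this
  · rw [Int.toNat_of_nonneg h0, mul_comm]
    exact (Int.emod_add_mul_ediv j _).symm

theorem posZ_succ (l : List Bool) (j : ℤ) :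
    posZ l (j + 1) = posZ l j + 1 + (rr l 0 (j + 1) : ℤ) := by
  obtain ⟨r, m, hr, rfl⟩ := ENU_decomp l j
  have hrr : rr l 0 ((r : ℤ) + m * 3 ^ l.length + 1) = rr l 0 ((r : ℤ) + 1) := by
    rw [← rr_add_mul l 0 ((r : ℤ) + 1) m]
    congr 1
    ring
  have hp : (pos l (r + 1) : ℤ) = pos l r + 1 + (rr l 0 ((r : ℤ) + 1) : ℤ) := by
    rw [pos]; push_cast; ring
  rw [hrr, ENU_posZ_eq l hr m]
  rcases lt_or_ge (r + 1) (3 ^ l.length) with h | h
  · have e : (r : ℤ) + m * 3 ^ l.length + 1 = ((r + 1 : ℕ) : ℤ) + m * 3 ^ l.length := by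
      push_cast; ring
    rw [e, ENU_posZ_eq l h m, hp]
    ring
  · have h' : r + 1 = 3 ^ l.length := le_antisymm hr h
    have e : (r : ℤ) + m * 3 ^ l.length + 1 = ((0 : ℕ) : ℤ) + (m + 1) * 3 ^ l.length := by
      have : (r : ℤ) + 1 = 3 ^ l.length := by exact_mod_cast h'
      rw [← this]; push_cast; ring
    have h0 : (pos l 0 : ℤ) = 0 := rfl
    have hU : (UU l : ℤ) = pos l r + 1 + (rr l 0 ((r : ℤ) + 1) : ℤ) := by
      rw [← hp, h', UU]
    rw [e, ENU_posZ_eq l (by positivity) (m + 1), h0]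
    linear_combination hU

theorem posZ_range (l : List Bool) (n : ℤ) : n ∈ SS l ↔ ∃ j, posZ l j = n := by
  constructor
  · rintro ⟨j, hj, m, rfl⟩
    exact ⟨(j : ℤ) + m * 3 ^ l.length, ENU_posZ_eq l hj m⟩
  · rintro ⟨j, rfl⟩
    obtain ⟨r, m, hr, rfl⟩ := ENU_decomp l j
    exact ⟨r, hr, m, ENU_posZ_eq l hr m⟩

theorem shift_of_range {p q : ℤ → ℤ} (hp : StrictMono p) (hq : StrictMono q)
    (h : ∀ n, (∃ j, p j = n) ↔ ∃ j, q j = n) : ∃ k : ℤ, ∀ j, q (j + k) = p j := by
  have h1 : ∀ j, ∃ i, q i = p j := fun j => (h (p j)).1 ⟨j, rfl⟩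
  choose f hf using h1
  have hmono : StrictMono f := fun a b hab => by
    have := hp hab
    rw [← hf a, ← hf b] at this
    exact hq.lt_iff_lt.1 this
  have hsurj : ∀ i, ∃ j, f j = i := fun i => by
    obtain ⟨j, hj⟩ := (h (q i)).2 ⟨i, rfl⟩
    refine ⟨j, hq.injective ?_⟩
    rw [hf, hj]
  have hstep : ∀ j, f (j + 1) = f j + 1 := by
    intro j
    have h2 : f j + 1 ≤ f (j + 1) := hmono (by omega)
    refine le_antisymm ?_ h2
    obtain ⟨i, hi⟩ := hsurj (f j + 1)
    have h3 : j < i := hmono.lt_iff_lt.1 (by omega)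
    rw [← hi]
    exact hmono.monotone (by omega)
  have hall : ∀ j, f j = j + f 0 := by
    intro j
    induction j using Int.induction_on with
    | zero => simp
    | succ i ih => rw [hstep, ih]; ring
    | pred i ih =>
      have := hstep (-(i : ℤ) - 1)
      rw [sub_add_cancel, ih] at this
      omega
  exact ⟨f 0, fun j => by rw [← hall, hf]⟩

private theorem ENU_mono (l : List Bool) : StrictMono (posZ l) :=
  strictMono_int_of_lt_succ fun j => by rw [posZ_succ]; omega

private theorem ENU_zero (l : List Bool) : rr l 0 0 = 2 * l.length := by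
  have := (rr_eq_max l 0 0).2 (dvd_zero _)
  simpa using this

private theorem ENU_shift (l : List Bool) {k : ℤ} (hk : (3 : ℤ) ^ l.length ∣ k) (j : ℤ) :
    rr l 0 (j + k) = rr l 0 j := by
  obtain ⟨c, rfl⟩ := hk
  rw [mul_comm]
  exact rr_add_mul l 0 j c

theorem SS_isometry {l l' : List Bool} (h : l.length = l'.length) {e : ℤ}
    (he : e = 1 ∨ e = -1) (c : ℤ) (hS : ∀ n, n ∈ SS l ↔ e * n + c ∈ SS l') :
    l' = l ∨ l' = l.map not := by
  rcases he with rfl | rfl
  · left
    obtain ⟨k, hk⟩ := shift_of_range (p := fun j => posZ l j + c) (q := posZ l')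
      (fun a b hab => by have := ENU_mono l hab; simpa using this) (ENU_mono l') (fun n => by
        rw [← posZ_range l' n]
        have h1 := hS (n - c)
        rw [one_mul, sub_add_cancel, posZ_range] at h1
        rw [← h1]
        exact exists_congr fun j => ⟨fun h => by omega, fun h => by omega⟩)
    have hr : ∀ j, rr l' 0 (j + k) = rr l 0 j := by
      intro j
      have h1 := hk (j - 1)
      have h2 := hk j
      have h3 := posZ_succ l' (j - 1 + k)
      have h4 := posZ_succ l (j - 1)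
      have e : j - 1 + k + 1 = j + k := by ring
      rw [e] at h3
      rw [sub_add_cancel] at h4
      omega
    have hd : (3 : ℤ) ^ l'.length ∣ k := by
      rw [← rr_eq_max l' 0 k]
      have := hr 0
      rw [zero_add] at this
      rw [this, ENU_zero, h, zero_add]
    exact (rr_inj l l' 0 h fun t => by rw [← hr t, ENU_shift l' hd]).symm
  · right
    obtain ⟨k, hk⟩ := shift_of_range (p := fun j => c - posZ l (-j)) (q := posZ l')
      (fun a b hab => by
        have := ENU_mono l (neg_lt_neg hab)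
        simp only
        omega) (ENU_mono l') (fun n => by
        rw [← posZ_range l' n]
        have h1 := hS (c - n)
        have e : -1 * (c - n) + c = n := by ring
        rw [e, posZ_range] at h1
        rw [← h1]
        constructor
        · rintro ⟨j, hj⟩
          exact ⟨-j, by omega⟩
        · rintro ⟨j, hj⟩
          exact ⟨-j, by rw [neg_neg]; omega⟩)
    have hr : ∀ j, rr l' 0 (j + (k + 1)) = rr l 0 (-j) := by
      intro j
      have h1 := hk j
      have h2 := hk (j + 1)
      have h3 := posZ_succ l' (j + k)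
      have h4 := posZ_succ l (-(j + 1))
      have e : j + 1 + k = j + k + 1 := by ring
      have e2 : -(j + 1) + 1 = -j := by ring
      have e3 : j + (k + 1) = j + k + 1 := by ring
      rw [e] at h2
      rw [e2] at h4
      rw [e3]
      omega
    have hd : (3 : ℤ) ^ l'.length ∣ k + 1 := by
      rw [← rr_eq_max l' 0 (k + 1)]
      have := hr 0
      rw [zero_add, neg_zero] at this
      rw [this, ENU_zero, h, zero_add]
    refine rr_inj l' (l.map not) 0 (by rw [List.length_map, h]) fun t => ?_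
    rw [← ENU_shift l' hd t, hr t, rr_neg]

end Pool.Agent.TOR
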