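import Pool.Agent.TOR.ISA

/-!
MODULE ISB (isometric tori have congruent sets `{a = 1}`, `{b = 1}`; imports ISA, a stub is enough).

* `iso_symm`: exchange `Φ` and `Ψ`. The metric identity for `Ψ`: `Φ ∘ Ψ = id`, so `DΦ_{Ψq} (DΨ_q w) = w` (chain rule, `fderiv_comp`/`HasFDerivAt.comp`,
  uniqueness of the derivative of `id`); apply the identity of `Φ` at `p = Ψ q`, `v = DΨ_q w`.
* `isometry_real`: a map `σ` defined on a set `J ⊆ ℝ` which preserves distances is `σ s = e s + c` on `J` with `e = ±1`: if `J` has at most one point it is clear; otherwise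
  take `s0 ≠ s1` in `J`, `e = (σ s1 - σ s0)/(s1 - s0) = ±1`; for `s ∈ J` the two equations `|σ s - σ s0| = |s - s0|`, `|σ s - σ s1| = |s - s1|` force
  `σ s = σ s0 + e (s - s0)`.
* `iso_set`: `σ s = (Φ (s,0)).1`, `ρ s = (Ψ (s,0)).1`. For `a s = 1`: `b (σ s) = 1` (`line_image`), and `ρ (σ s) = s`: `(Ψ (σ s, y)).1` does not depend on `y`
  (`line_image` for `Ψ`), and at `y = (Φ(s,0)).2`: `Ψ (σ s, y) = Ψ (Φ (s,0)) = (s,0)`. Both `σ, ρ` are 1-Lipschitz (`fst_lip`), so `σ` preserves distances on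
  `J = {a = 1}`: `|s - s'| = |ρ σ s - ρ σ s'| ≤ |σ s - σ s'| ≤ |s - s'|`. So `σ s = e s + c` on `J` and `a s = 1 → b (e s + c) = 1`. Conversely if
  `b (e s + c) = 1` let `t = ρ (e s + c)`: `a t = 1` and `σ t = e s + c` (symmetric argument), so `e t + c = e s + c`, `t = s`. (If `{a = 1}` is empty then `{b = 1}` is
  empty by `line_image` for `Ψ`: any `e, c`.)
-/

set_option autoImplicit false

namespace Pool.Agent.TOR

private theorem ISB_met {a b : ℝ → ℝ} {Φ Ψ : ℝ × ℝ → ℝ × ℝ} (hΦ : ContDiff ℝ 1 Φ)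
    (hΨ : ContDiff ℝ 1 Ψ) (hΦΨ : ∀ p, Φ (Ψ p) = p)
    (hmet : ∀ p v, (fderiv ℝ Φ p v).1 ^ 2 + b (Φ p).1 ^ 2 * (fderiv ℝ Φ p v).2 ^ 2
      = v.1 ^ 2 + a p.1 ^ 2 * v.2 ^ 2) (p v : ℝ × ℝ) :
    (fderiv ℝ Ψ p v).1 ^ 2 + a (Ψ p).1 ^ 2 * (fderiv ℝ Ψ p v).2 ^ 2
      = v.1 ^ 2 + b p.1 ^ 2 * v.2 ^ 2 := by
  have h1 : HasFDerivAt Ψ (fderiv ℝ Ψ p) p := ((hΨ.differentiable (by simp)) p).hasFDerivAt
  have h2 : HasFDerivAt Φ (fderiv ℝ Φ (Ψ p)) (Ψ p) :=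
    ((hΦ.differentiable (by simp)) (Ψ p)).hasFDerivAt
  have h3 : HasFDerivAt (Φ ∘ Ψ) ((fderiv ℝ Φ (Ψ p)).comp (fderiv ℝ Ψ p)) p := h2.comp p h1
  have h4 : Φ ∘ Ψ = id := funext hΦΨ
  rw [h4] at h3
  have h5 := h3.unique (hasFDerivAt_id p)
  have h6 : fderiv ℝ Φ (Ψ p) (fderiv ℝ Ψ p v) = v := by
    have := congrArg (fun T : (ℝ × ℝ) →L[ℝ] (ℝ × ℝ) => T v) h5
    simpa using this
  have h7 := hmet (Ψ p) (fderiv ℝ Ψ p v)
  rw [h6, hΦΨ] at h7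
  exact h7.symm

theorem iso_symm {P : ℝ} {a b : ℝ → ℝ} (h : TorusIsometric P a b) : TorusIsometric P b a := by
  obtain ⟨Φ, Ψ, hΦ, hΨ, hΨΦ, hΦΨ, hl, hl', hmet⟩ := h
  exact ⟨Ψ, Φ, hΨ, hΦ, hΦΨ, hΨΦ, hl', hl, ISB_met hΦ hΨ hΦΨ hmet⟩

theorem isometry_real {J : Set ℝ} {σ : ℝ → ℝ} (h : ∀ s ∈ J, ∀ t ∈ J, |σ s - σ t| = |s - t|) :
    ∃ e c : ℝ, (e = 1 ∨ e = -1) ∧ ∀ s ∈ J, σ s = e * s + c := by
  by_cases hJ : ∃ s0 ∈ J, ∃ s1 ∈ J, s0 ≠ s1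
  · obtain ⟨s0, h0, s1, h1, hne⟩ := hJ
    have hd : s1 - s0 ≠ 0 := sub_ne_zero.2 (Ne.symm hne)
    set e : ℝ := (σ s1 - σ s0) / (s1 - s0) with he
    have hed : σ s1 - σ s0 = e * (s1 - s0) := by rw [he]; field_simp
    have hsq : ∀ s ∈ J, ∀ t ∈ J, (σ s - σ t) ^ 2 = (s - t) ^ 2 := by
      intro s hs t ht
      rw [← sq_abs, h s hs t ht, sq_abs]
    have he2 : e ^ 2 = 1 := by
      have h2 := hsq s1 h1 s0 h0
      rw [hed, mul_pow] at h2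
      have h3 : (s1 - s0) ^ 2 ≠ 0 := pow_ne_zero 2 hd
      exact mul_right_cancel₀ h3 (by rw [h2, one_mul])
    refine ⟨e, σ s0 - e * s0, ?_, fun s hs => ?_⟩
    · have : (e - 1) * (e + 1) = 0 := by linarith [he2, sq e]
      rcases mul_eq_zero.1 (by nlinarith : (e - 1) * (e + 1) = 0) with h | h
      · left; linarith
      · right; linarith
    · have q1 := hsq s hs s0 h0
      have q2 := hsq s hs s1 h1
      have q3 : σ s - σ s1 = (σ s - σ s0) - e * (s1 - s0) := by rw [← hed]; ring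
      rw [q3] at q2
      have q4 : (s1 - s0) * (e * (σ s - σ s0) - (s - s0)) = 0 := by
        linear_combination (-1 / 2) * q2 + (1 / 2) * q1 + (1 / 2) * (s1 - s0) ^ 2 * he2
      have q5 : e * (σ s - σ s0) - (s - s0) = 0 := by
        rcases mul_eq_zero.1 q4 with h | h
        · exact absurd h hd
        · exact h
      have q6 : e * (e * (σ s - σ s0) - (s - s0)) = 0 := by rw [q5, mul_zero]
      have q7 : e ^ 2 * (σ s - σ s0) = e * (s - s0) := by linarith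
      rw [he2] at q7
      linarith
  · push Not at hJ
    by_cases hJ2 : ∃ s0, s0 ∈ J
    · obtain ⟨s0, h0⟩ := hJ2
      refine ⟨1, σ s0 - s0, Or.inl rfl, fun s hs => ?_⟩
      rw [← hJ s0 h0 s hs]
      ring
    · push Not at hJ2
      exact ⟨1, 0, Or.inl rfl, fun s hs => absurd hs (hJ2 s)⟩

theorem iso_set {P : ℝ} (hP : 1 < P) {a b : ℝ → ℝ} (ha : ∀ s, 1 ≤ a s) (hb : ∀ s, 1 ≤ b s)
    (h : TorusIsometric P a b) :
    ∃ e c : ℝ, (e = 1 ∨ e = -1) ∧ ∀ s, a s = 1 ↔ b (e * s + c) = 1 := by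
  obtain ⟨Φ, Ψ, hΦ, hΨ, hΨΦ, hΦΨ, hl, hl', hmet⟩ := h
  have hmet' := ISB_met hΦ hΨ hΦΨ hmet
  have hiΦ : Function.Injective Φ := fun p q hpq => by rw [← hΨΦ p, hpq, hΨΦ]
  have hiΨ : Function.Injective Ψ := fun p q hpq => by rw [← hΦΨ p, hpq, hΦΨ]
  have hA : ∀ s, a s = 1 → b (Φ (s, 0)).1 = 1 ∧ (Ψ ((Φ (s, 0)).1, 0)).1 = s := by
    intro s hs
    have h1 := (line_image hP hb hΦ hiΦ hl hmet hs 0).1
    refine ⟨h1, ?_⟩
    have h2 := (line_image hP ha hΨ hiΨ hl' hmet' h1 (Φ (s, 0)).2).2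
    rw [← h2, Prod.mk.eta, hΨΦ]
  have hB : ∀ s, b s = 1 → a (Ψ (s, 0)).1 = 1 ∧ (Φ ((Ψ (s, 0)).1, 0)).1 = s := by
    intro s hs
    have h1 := (line_image hP ha hΨ hiΨ hl' hmet' hs 0).1
    refine ⟨h1, ?_⟩
    have h2 := (line_image hP hb hΦ hiΦ hl hmet h1 (Ψ (s, 0)).2).2
    rw [← h2, Prod.mk.eta, hΦΨ]
  obtain ⟨e, c, he, hec⟩ := isometry_real (J := {s | a s = 1}) (σ := fun s => (Φ (s, 0)).1) (by
    intro s hs t ht
    refine le_antisymm (fst_lip hΦ hmet s t 0) ?_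
    have h1 := fst_lip hΨ hmet' (Φ (s, 0)).1 (Φ (t, 0)).1 0
    rw [(hA s hs).2, (hA t ht).2] at h1
    exact h1)
  refine ⟨e, c, he, fun s => ⟨fun hs => ?_, fun hs => ?_⟩⟩
  · have h1 : (Φ (s, 0)).1 = e * s + c := hec s hs
    rw [← h1]
    exact (hA s hs).1
  · obtain ⟨h1, h2⟩ := hB _ hs
    have h3 : (Φ ((Ψ (e * s + c, 0)).1, 0)).1 = e * (Ψ (e * s + c, 0)).1 + c := hec _ h1
    rw [h2] at h3
    have h4 : e ≠ 0 := by
      rcases he with h | h <;> rw [h] <;> norm_num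
    have h5 : s = (Ψ (e * s + c, 0)).1 := mul_left_cancel₀ h4 (by linarith)
    rw [h5]
    exact h1

end Pool.Agent.TOR
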