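import Pool.Agent.TOR.CFG
import Pool.Agent.TOR.ENU

/-!
MODULE SET (the set `{prof = 1}` determines the bits up to complement; imports CFG and ENU, stubs are enough). `δ = dl P l = dl P l'` (`UU_congr`).

* `cell_iff`: for real `x`: `Ioo x (x+δ) ⊆ {s | prof P l eta s ≠ 1}` iff `x = δ n` for some `n ∈ SS l`. (←) `prof_eq_one_iff`. (→) if `x/δ` is not an integer there is an
  integer `k` with `x < δ k < x + δ` (`k = ⌈x/δ⌉`), and `δ k` is in no open cell (`δ n < δ k < δ (n+1)` impossible), so `prof (δ k) = 1`, contradiction. So `x = δ n`, and the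
  midpoint `δ(n + 1/2)` is in an open cell `n' ∈ SS l`, `n' = n`.
* `set_rigid`: by the hypothesis, `Ioo x (x+δ) ⊆ {prof l ≠ 1}` iff its image under `s ↦ e s + c` is `⊆ {prof l' ≠ 1}`; the image is `Ioo (x + c) (x + c + δ)` for `e = 1`,
  `Ioo (c - x - δ) (c - x)` for `e = -1`. `0 ∈ SS l` (`pos l 0 = 0`), so `c = δ c'` resp. `c - δ = δ c'` with `c' ∈ SS l'` an integer. Then `n ∈ SS l ↔ n + c' ∈ SS l'`, resp.
  `n ∈ SS l ↔ -n + c' ∈ SS l'` (`δ > 0`). `SS_isometry`.
-/

set_option autoImplicit false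

namespace Pool.Agent.TOR

open Set

theorem cell_iff {P : ℝ} (hP : 0 < P) (l : List Bool) {eta : ℝ} (he : 0 < eta) (x : ℝ) :
    (∀ s ∈ Ioo x (x + dl P l), prof P l eta s ≠ 1) ↔ ∃ n ∈ SS l, x = dl P l * (n : ℝ) := by
  have hδ := dl_pos hP l
  set δ := dl P l with hδd
  constructor
  · intro h
    -- `x` is a multiple of `δ`
    have hx : ∃ n : ℤ, x = δ * (n : ℝ) := by
      by_contra hcon
      set k : ℤ := ⌈x / δ⌉ with hk
      have h1 : x / δ ≤ k := Int.le_ceil _
      have h2 : (k : ℝ) < x / δ + 1 := Int.ceil_lt_add_one _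
      have h3 : x ≤ δ * k := by
        have := (div_le_iff₀ hδ).1 h1
        linarith
      have h4 : δ * k < x + δ := by
        have h5 : δ * k < δ * (x / δ + 1) := mul_lt_mul_of_pos_left h2 hδ
        have h6 : δ * (x / δ + 1) = x + δ := by field_simp
        linarith
      have h5 : x < δ * k := lt_of_le_of_ne h3 fun h => hcon ⟨k, h⟩
      apply h (δ * k) ⟨h5, h4⟩
      rw [prof_eq_one_iff hP l he]
      intro n _ hn
      have h6 : (n : ℝ) < k := lt_of_mul_lt_mul_left hn.1 hδ.le
      have h7 : (k : ℝ) < (n : ℝ) + 1 := lt_of_mul_lt_mul_left hn.2 hδ.le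
      have h8 : n < k := by exact_mod_cast h6
      have h9 : k < n + 1 := by exact_mod_cast h7
      omega
    obtain ⟨n, hn⟩ := hx
    refine ⟨n, ?_, hn⟩
    have h1 : prof P l eta (x + δ / 2) ≠ 1 := h _ ⟨by linarith, by linarith⟩
    rw [Ne, prof_eq_one_iff hP l he] at h1
    push Not at h1
    obtain ⟨m, hm, hm2⟩ := h1
    have h2 : (m : ℝ) < n + 1 / 2 := by
      refine lt_of_mul_lt_mul_left (a := δ) ?_ hδ.le
      have := hm2.1
      rw [hn] at this
      linarith
    have h3 : (n : ℝ) + 1 / 2 < m + 1 := by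
      refine lt_of_mul_lt_mul_left (a := δ) ?_ hδ.le
      have := hm2.2
      rw [hn] at this
      linarith
    have h4 : m < n + 1 := by
      have : (m : ℝ) < ((n + 1 : ℤ) : ℝ) := by push_cast; linarith
      exact_mod_cast this
    have h5 : n < m + 1 := by
      have : (n : ℝ) < ((m + 1 : ℤ) : ℝ) := by push_cast; linarith
      exact_mod_cast this
    have h6 : m = n := by omega
    rwa [h6] at hm
  · rintro ⟨n, hn, rfl⟩ s hs h
    rw [prof_eq_one_iff hP l he] at h
    exact h n hn ⟨hs.1, by have := hs.2; linarith⟩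

theorem set_rigid {P : ℝ} (hP : 0 < P) {l l' : List Bool} (hl : l.length = l'.length)
    {eta : ℝ} (he : 0 < eta) {e c : ℝ} (hee : e = 1 ∨ e = -1)
    (h : ∀ s, prof P l eta s = 1 ↔ prof P l' eta (e * s + c) = 1) :
    l' = l ∨ l' = l.map not := by
  have hδ := dl_pos hP l
  have hdl : dl P l' = dl P l := by
    unfold dl
    rw [UU_congr hl]
  have h0 : (0 : ℤ) ∈ SS l := ⟨0, by positivity, 0, by simp [pos]⟩
  have hc := fun x => cell_iff hP l he x
  have hc' := fun x => cell_iff hP l' he x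
  rw [hdl] at hc'
  set δ := dl P l with hδd
  have hinj : ∀ m n : ℤ, δ * (m : ℝ) = δ * (n : ℝ) → m = n := fun m n hmn => by
    exact_mod_cast mul_left_cancel₀ hδ.ne' hmn
  rcases hee with rfl | rfl
  · -- translation
    have key : ∀ x, (∃ n ∈ SS l, x = δ * (n : ℝ)) ↔ ∃ n ∈ SS l', x + c = δ * (n : ℝ) := by
      intro x
      rw [← hc x, ← hc' (x + c)]
      constructor
      · intro h1 s hs h2
        refine h1 (s - c) ⟨by linarith [hs.1], by linarith [hs.2]⟩ ?_
        rw [h (s - c)]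
        rwa [one_mul, sub_add_cancel]
      · intro h1 s hs h2
        rw [h s, one_mul] at h2
        exact h1 (s + c) ⟨by linarith [hs.1], by linarith [hs.2]⟩ h2
    obtain ⟨c', -, hc1⟩ := (key 0).1 ⟨0, h0, by simp⟩
    rw [zero_add] at hc1
    refine SS_isometry hl (Or.inl rfl) c' fun n => ?_
    have h1 := key (δ * (n : ℝ))
    constructor
    · intro hn
      obtain ⟨m, hm, hm2⟩ := h1.1 ⟨n, hn, rfl⟩
      have h2 : n + c' = m := hinj _ _ (by push_cast; rw [← hm2, hc1]; ring)
      rw [one_mul, h2]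
      exact hm
    · intro hn
      rw [one_mul] at hn
      obtain ⟨m, hm, hm2⟩ := h1.2 ⟨n + c', hn, by push_cast; rw [hc1]; ring⟩
      rw [hinj _ _ hm2]
      exact hm
  · -- reflection
    have key : ∀ x, (∃ n ∈ SS l, x = δ * (n : ℝ)) ↔ ∃ n ∈ SS l', c - x - δ = δ * (n : ℝ) := by
      intro x
      rw [← hc x, ← hc' (c - x - δ)]
      constructor
      · intro h1 s hs h2
        refine h1 (c - s) ⟨by linarith [hs.2], by linarith [hs.1]⟩ ?_
        rw [h (c - s)]
        have : -1 * (c - s) + c = s := by ring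
        rwa [this]
      · intro h1 s hs h2
        rw [h s] at h2
        exact h1 (-1 * s + c) ⟨by linarith [hs.2], by linarith [hs.1]⟩ h2
    obtain ⟨c', -, hc1⟩ := (key 0).1 ⟨0, h0, by simp⟩
    rw [sub_zero] at hc1
    refine SS_isometry hl (Or.inr rfl) c' fun n => ?_
    have h1 := key (δ * (n : ℝ))
    constructor
    · intro hn
      obtain ⟨m, hm, hm2⟩ := h1.1 ⟨n, hn, rfl⟩
      have h2 : -1 * n + c' = m := hinj _ _ (by push_cast; rw [← hm2]; linarith)
      rw [h2]
      exact hm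
    · intro hn
      obtain ⟨m, hm, hm2⟩ := h1.2 ⟨-1 * n + c', hn, by push_cast; linarith⟩
      rw [hinj _ _ hm2]
      exact hm

end Pool.Agent.TOR
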