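import Pool.Agent.TOR.ISP
import Pool.Agent.TOR.ISB
import Pool.Agent.TOR.SET
import Pool.Agent.TOR.CLO

/-!
MODULE FIN (assembly).
-/

set_option autoImplicit false

namespace Pool.Agent.TOR

/-- the family of bit lists -/
def fam (N : ℕ) (i : Fin N) : List Bool := false :: List.ofFn fun j : Fin N => decide (j = i)

theorem fam_length (N : ℕ) (i : Fin N) : (fam N i).length = N + 1 := by
  simp [fam]

theorem fam_inj {N : ℕ} {i j : Fin N} (h : fam N i = fam N j) : i = j := by
  unfold fam at h
  have h1 := List.ofFn_injective (List.cons.inj h).2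
  have h2 := congrFun h1 i
  simpa using h2

theorem fam_not {N : ℕ} {i j : Fin N} : fam N i ≠ (fam N j).map not := by
  unfold fam
  intro h
  have h1 := (List.cons.inj h).1
  simp at h1

theorem main : Main := by
  intro N K P ε hP hε
  have hP0 : 0 < P := by linarith
  obtain ⟨eta, he, hcl⟩ := close_prof hP0 K (fam N) hε
  refine ⟨fun i => prof P (fam N i) eta, fun i => ⟨prof_contDiff P _ eta, fun s => ?_, fun s => ?_⟩,
    hcl, fun i j => ?_, fun i j hij hiso => ?_⟩
  · exact lt_of_lt_of_le one_pos (one_le_prof P _ he.le s)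
  · exact prof_add hP0 _ eta s
  · exact isospectral_prof hP0 (by rw [fam_length, fam_length]) he.le
  · obtain ⟨e, c, hee, h⟩ := iso_set hP (one_le_prof P _ he.le) (one_le_prof P _ he.le) hiso
    rcases set_rigid hP0 (by rw [fam_length, fam_length]) he hee h with h1 | h1
    · exact hij (fam_inj h1.symm)
    · exact fam_not h1

end Pool.Agent.TOR
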