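import Pool.Agent.TOR.Defs

/-!
MODULE FOA (Fourier coefficients of eigenfunctions are modes; needs only Defs).

`coef u k s = ∫_0^1 u(s,y) exp(-2πi k y) dy`.
* `coef_hasDeriv`: for `u` smooth, `HasDerivAt (coef u k) (coef (ds u) k s) s` (differentiation under the integral sign on the compact interval).
* `coef_contDiff`: by induction, `deriv (coef u k) = coef (ds u) k`.
* `coef_dy`: integration by parts in `y`; the boundary terms cancel by periodicity.
* `coef_mode`: for `u ∈ eig P a lam`: `v = coef u k` satisfies `v'' + (a'/a) v' = -lam v + a⁻² (2πk)² v`.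
-/

set_option autoImplicit false

namespace Pool.Agent.TOR

open scoped ContDiff

/-- the Fourier coefficients in the second variable -/
noncomputable def coef (u : ℝ × ℝ → ℂ) (k : ℤ) (s : ℝ) : ℂ :=
  ∫ y in (0 : ℝ)..1, u (s, y) * Complex.exp (-(2 * Real.pi * Complex.I * k * y))

private theorem foa_exp_cont (k : ℤ) :
    Continuous fun y : ℝ => Complex.exp (-(2 * Real.pi * Complex.I * k * y)) := by
  fun_prop

private theorem foa_cont {u : ℝ × ℝ → ℂ} (hu : Continuous u) (k : ℤ) :
    Continuous fun p : ℝ × ℝ => u p * Complex.exp (-(2 * Real.pi * Complex.I * k * p.2)) := by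
  fun_prop

private theorem foa_cont' {u : ℝ × ℝ → ℂ} (hu : Continuous u) (k : ℤ) (s : ℝ) :
    Continuous fun y : ℝ => u (s, y) * Complex.exp (-(2 * Real.pi * Complex.I * k * y)) := by
  fun_prop

private theorem foa_hasDeriv_ds {u : ℝ × ℝ → ℂ} (hu : ContDiff ℝ ∞ u) (s y : ℝ) :
    HasDerivAt (fun t => u (t, y)) (ds u (s, y)) s := by
  have h1 : DifferentiableAt ℝ (fun t => u (t, y)) s :=
    ((hu.comp (contDiff_id.prodMk contDiff_const)).differentiable (by simp)) s
  exact h1.hasDerivAt

private theorem foa_hasDeriv_dy {u : ℝ × ℝ → ℂ} (hu : ContDiff ℝ ∞ u) (s y : ℝ) :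
    HasDerivAt (fun t => u (s, t)) (dy u (s, y)) y := by
  have h1 : DifferentiableAt ℝ (fun t => u (s, t)) y :=
    ((hu.comp (contDiff_const.prodMk contDiff_id)).differentiable (by simp)) y
  exact h1.hasDerivAt

theorem coef_hasDeriv {u : ℝ × ℝ → ℂ} (hu : ContDiff ℝ ∞ u) (k : ℤ) (s : ℝ) :
    HasDerivAt (coef u k) (coef (ds u) k s) s := by
  have hc : Continuous u := hu.continuous
  have hdc : Continuous (ds u) := (ds_contDiff hu).continuous
  have hcomp : IsCompact (Set.Icc (s - 1) (s + 1) ×ˢ Set.Icc (0 : ℝ) 1) :=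
    isCompact_Icc.prod isCompact_Icc
  obtain ⟨C, hC⟩ := hcomp.exists_bound_of_continuousOn (foa_cont hdc k).continuousOn
  have hmem : Set.Icc (s - 1) (s + 1) ∈ nhds s := Icc_mem_nhds (by linarith) (by linarith)
  have h := intervalIntegral.hasDerivAt_integral_of_dominated_loc_of_deriv_le
    (μ := MeasureTheory.volume) (a := 0) (b := 1)
    (F := fun t y => u (t, y) * Complex.exp (-(2 * Real.pi * Complex.I * k * y)))
    (F' := fun t y => ds u (t, y) * Complex.exp (-(2 * Real.pi * Complex.I * k * y)))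
    (x₀ := s) (s := Set.Icc (s - 1) (s + 1)) (bound := fun _ => C) hmem
    (Filter.Eventually.of_forall fun t => (foa_cont' hc k t).aestronglyMeasurable)
    ((foa_cont' hc k s).intervalIntegrable 0 1)
    (foa_cont' hdc k s).aestronglyMeasurable
    (Filter.Eventually.of_forall fun y hy t ht => by
      rw [Set.uIoc_of_le zero_le_one] at hy
      exact hC (t, y) ⟨ht, hy.1.le, hy.2⟩)
    (continuous_const.intervalIntegrable 0 1)
    (Filter.Eventually.of_forall fun y _ t _ => (foa_hasDeriv_ds hu t y).mul_const _)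
  exact h.2

theorem coef_contDiff {u : ℝ × ℝ → ℂ} (hu : ContDiff ℝ ∞ u) (k : ℤ) :
    ContDiff ℝ ∞ (coef u k) := by
  have key : ∀ (n : ℕ) (v : ℝ × ℝ → ℂ), ContDiff ℝ ∞ v → ContDiff ℝ n (coef v k) := by
    intro n
    induction n with
    | zero =>
      intro v hv
      have hd : Differentiable ℝ (coef v k) := fun s => (coef_hasDeriv hv k s).differentiableAt
      exact contDiff_zero.2 hd.continuous
    | succ n ih =>
      intro v hv
      have hd : Differentiable ℝ (coef v k) := fun s => (coef_hasDeriv hv k s).differentiableAt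
      have he : deriv (coef v k) = coef (ds v) k := funext fun s => (coef_hasDeriv hv k s).deriv
      have h := ih (ds v) (ds_contDiff hv)
      rw [← he] at h
      have hs : ContDiff ℝ ((n : WithTop ℕ∞) + 1) (coef v k) := by
        rw [contDiff_succ_iff_deriv]
        exact ⟨hd, by simp, h⟩
      exact_mod_cast hs
  exact contDiff_infty.2 fun n => key n u hu

theorem coef_dy {u : ℝ × ℝ → ℂ} (hu : ContDiff ℝ ∞ u) (hper : ∀ p : ℝ × ℝ, u (p.1, p.2 + 1) = u p)
    (k : ℤ) (s : ℝ) : coef (dy u) k s = 2 * Real.pi * Complex.I * k * coef u k s := by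
  have hc : Continuous u := hu.continuous
  have hdc : Continuous (dy u) := (dy_contDiff hu).continuous
  set c : ℂ := 2 * Real.pi * Complex.I * k with hcdef
  have hexp : ∀ y : ℝ, HasDerivAt (fun t : ℝ => Complex.exp (-(c * t)))
      (-c * Complex.exp (-(c * y))) y := by
    intro y
    have h1 : HasDerivAt (fun t : ℝ => ((t : ℝ) : ℂ)) 1 y := Complex.ofRealCLM.hasDerivAt
    have h2 : HasDerivAt (fun t : ℝ => -(c * t)) (-(c * 1)) y := (h1.const_mul c).neg
    have h3 := h2.cexp
    convert h3 using 1
    ring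
  have hder : ∀ y : ℝ, HasDerivAt (fun t : ℝ => u (s, t) * Complex.exp (-(c * t)))
      (dy u (s, y) * Complex.exp (-(c * y)) + u (s, y) * (-c * Complex.exp (-(c * y)))) y :=
    fun y => (foa_hasDeriv_dy hu s y).mul (hexp y)
  have hi1 : IntervalIntegrable (fun y : ℝ => dy u (s, y) * Complex.exp (-(c * y)))
      MeasureTheory.volume 0 1 := by
    have : Continuous fun y : ℝ => dy u (s, y) * Complex.exp (-(c * y)) := by fun_prop
    exact this.intervalIntegrable 0 1
  have hi2 : IntervalIntegrable (fun y : ℝ => u (s, y) * (-c * Complex.exp (-(c * y))))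
      MeasureTheory.volume 0 1 := by
    have : Continuous fun y : ℝ => u (s, y) * (-c * Complex.exp (-(c * y))) := by fun_prop
    exact this.intervalIntegrable 0 1
  have hint := intervalIntegral.integral_eq_sub_of_hasDerivAt (a := 0) (b := 1)
    (fun y _ => hder y) (hi1.add hi2)
  rw [intervalIntegral.integral_add hi1 hi2] at hint
  have e0 : u (s, 1) = u (s, 0) := by
    have := hper (s, 0)
    simpa using this
  have e1 : Complex.exp (-(c * ((1 : ℝ) : ℂ))) = 1 := by
    have h := Complex.exp_int_mul_two_pi_mul_I (-k)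
    rw [← h]
    congr 1
    rw [hcdef]
    push_cast
    ring
  have e2 : Complex.exp (-(c * ((0 : ℝ) : ℂ))) = 1 := by simp
  rw [e0, e1, e2, sub_self] at hint
  have e3 : (∫ y in (0 : ℝ)..1, u (s, y) * (-c * Complex.exp (-(c * y))))
      = -c * ∫ y in (0 : ℝ)..1, u (s, y) * Complex.exp (-(c * y)) := by
    rw [← intervalIntegral.integral_const_mul]
    congr 1
    funext y
    ring
  rw [e3] at hint
  change (∫ y in (0 : ℝ)..1, dy u (s, y) * Complex.exp (-(c * y)))
    = c * ∫ y in (0 : ℝ)..1, u (s, y) * Complex.exp (-(c * y))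
  linear_combination hint

private theorem foa_dy_per {u : ℝ × ℝ → ℂ}
    (hper : ∀ p : ℝ × ℝ, u (p.1, p.2 + 1) = u p) (p : ℝ × ℝ) :
    dy u (p.1, p.2 + 1) = dy u p := by
  have h : (fun t => u (p.1, t + 1)) = fun t => u (p.1, t) := funext fun t => hper (p.1, t)
  have h2 : deriv (fun t => u (p.1, t + 1)) p.2 = deriv (fun t => u (p.1, t)) (p.2 + 1) :=
    deriv_comp_add_const (fun t => u (p.1, t)) 1 p.2
  rw [h] at h2
  unfold dy
  exact h2.symm

theorem coef_mode {P : ℝ} {a : ℝ → ℝ} {lam : ℝ} {u : ℝ × ℝ → ℂ} (hu : u ∈ eig P a lam) (k : ℤ) :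
    coef u k ∈ mode P a lam (2 * Real.pi * k) := by
  obtain ⟨h1, h2, h3, h4⟩ := hu
  refine ⟨coef_contDiff h1 k, fun s => ?_, fun s => ?_⟩
  · unfold coef
    congr 1
    funext y
    rw [h2 (s, y)]
  · have e1 : deriv (coef u k) = coef (ds u) k := funext fun s => (coef_hasDeriv h1 k s).deriv
    have e2 : deriv (coef (ds u) k) = coef (ds (ds u)) k :=
      funext fun s => (coef_hasDeriv (ds_contDiff h1) k s).deriv
    have e3 : coef (dy (dy u)) k s
        = 2 * Real.pi * Complex.I * k * (2 * Real.pi * Complex.I * k * coef u k s) := by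
      rw [coef_dy (dy_contDiff h1) (foa_dy_per h3) k s, coef_dy h1 h3 k s]
    have e4 : coef (ds (ds u)) k s + ((deriv a s / a s : ℝ) : ℂ) * coef (ds u) k s
        + (((a s)⁻¹ ^ 2 : ℝ) : ℂ) * coef (dy (dy u)) k s = -(lam : ℂ) * coef u k s := by
      have c1 := foa_cont' (ds_contDiff (ds_contDiff h1)).continuous k s
      have c2 := foa_cont' (ds_contDiff h1).continuous k s
      have c3 := foa_cont' (dy_contDiff (dy_contDiff h1)).continuous k s
      have i1 := c1.intervalIntegrable (μ := MeasureTheory.volume) 0 1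
      have i2 := (c2.intervalIntegrable (μ := MeasureTheory.volume) 0 1).const_mul
        ((deriv a s / a s : ℝ) : ℂ)
      have i3 := (c3.intervalIntegrable (μ := MeasureTheory.volume) 0 1).const_mul
        (((a s)⁻¹ ^ 2 : ℝ) : ℂ)
      unfold coef
      rw [← intervalIntegral.integral_const_mul, ← intervalIntegral.integral_const_mul,
        ← intervalIntegral.integral_const_mul, ← intervalIntegral.integral_add i1 i2,
        ← intervalIntegral.integral_add (i1.add i2) i3]
      congr 1
      funext y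
      have := h4 (s, y)
      unfold lap at this
      linear_combination Complex.exp (-(2 * Real.pi * Complex.I * k * y)) * this
    rw [e1, e2]
    rw [e3] at e4
    have hI : Complex.I * Complex.I = -1 := Complex.I_mul_I
    push_cast at e4 ⊢
    linear_combination e4 - ((a s : ℂ)⁻¹) ^ 2 * (2 * Real.pi * k) ^ 2 * coef u k s * hI

end Pool.Agent.TOR
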