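import Pool.Agent.TOR.FOA

/-!
MODULE FOB (completeness, and modes give eigenfunctions; imports FOA, a stub is enough for `coef`).

* `eq_zero_of_coef`: for fixed `s`, `y ↦ u(s,y)` is a continuous 1-periodic function with all Fourier coefficients zero, so it vanishes. Use
  `ContinuousMap` on `AddCircle (1:ℝ)` (`Function.Periodic.lift`), `fourierCoeff_eq_intervalIntegral` (with `T = 1`, `a = 0`), and
  `hasSum_fourier_series_apply_of_summable` / `has_pointwise_sum_fourier_series_of_summable` (the coefficients are `0`, hence summable), uniqueness of sums.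
* `emb`: for `v ∈ mode P a lam (2πk)`, `u(s,y) = v(s) exp(2πi k y)` is in `eig P a lam`: `ds u = v' e`, `ds ds u = v'' e`, `dy dy u = -(2πk)² u`.
* `coef_emb`: `coef (emb k v) m s = if m = k then v s else 0` : `∫_0^1 exp(2πi (k-m) y) dy` (`integral_exp_mul_complex`, or
  `fourierCoeff` orthonormality).
* `coef_add`, `coef_smul`: linearity.
-/

set_option autoImplicit false

namespace Pool.Agent.TOR

open scoped ContDiff

/-- the function `v(s) e^{2πiky}` -/
noncomputable def emb (k : ℤ) (v : ℝ → ℂ) (p : ℝ × ℝ) : ℂ :=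
  v p.1 * Complex.exp (2 * Real.pi * Complex.I * k * p.2)

theorem eq_zero_of_coef {u : ℝ × ℝ → ℂ} (hu : Continuous u)
    (hper : ∀ p : ℝ × ℝ, u (p.1, p.2 + 1) = u p) (h : ∀ k s, coef u k s = 0) : u = 0 := by
  funext p
  obtain ⟨s, y⟩ := p
  have hp : Function.Periodic (fun y : ℝ => u (s, y)) 1 := fun y => hper (s, y)
  have hc : Continuous (hp.lift) := by
    refine Continuous.quotient_lift (f := fun y : ℝ => u (s, y)) ?_ _
    fun_prop
  let g : C(AddCircle (1 : ℝ), ℂ) := ⟨hp.lift, hc⟩
  have hg : ∀ x : ℝ, g (x : AddCircle (1 : ℝ)) = u (s, x) := fun x => hp.lift_coe x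
  have hco : ∀ k : ℤ, fourierCoeff g k = 0 := by
    intro k
    rw [fourierCoeff_eq_intervalIntegral _ k 0]
    have h1 := h k s
    unfold coef at h1
    rw [zero_add, one_div, inv_one, one_smul, ← h1]
    refine intervalIntegral.integral_congr fun x _ => ?_
    show (fourier (-k) (x : AddCircle (1 : ℝ)) : ℂ) • g (x : AddCircle (1 : ℝ)) = _
    rw [hg, fourier_coe_apply, smul_eq_mul, mul_comm]
    congr 2
    push_cast
    ring
  have hs : Summable (fourierCoeff g) := by
    have : fourierCoeff g = fun _ => 0 := funext hco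
    rw [this]
    exact summable_zero
  have h2 := has_pointwise_sum_fourier_series_of_summable hs (y : AddCircle (1 : ℝ))
  have h3 : (fun i => fourierCoeff g i • (fourier i (y : AddCircle (1 : ℝ)) : ℂ)) = fun _ => 0 :=
    funext fun i => by rw [hco, zero_smul]
  rw [h3, hg] at h2
  exact h2.unique hasSum_zero

private theorem fob_exp_contDiff (k : ℤ) :
    ContDiff ℝ ∞ fun y : ℝ => Complex.exp (2 * Real.pi * Complex.I * k * y) := by
  have h : ContDiff ℝ ∞ fun y : ℝ => (2 * Real.pi * Complex.I * k * y : ℂ) :=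
    contDiff_const.mul Complex.ofRealCLM.contDiff
  exact h.cexp

private theorem fob_exp_deriv (k : ℤ) (y : ℝ) :
    HasDerivAt (fun y : ℝ => Complex.exp (2 * Real.pi * Complex.I * k * y))
      ((2 * Real.pi * Complex.I * k) * Complex.exp (2 * Real.pi * Complex.I * k * y)) y := by
  have h0 : HasDerivAt (fun y : ℝ => (y : ℂ)) 1 y := Complex.ofRealCLM.hasDerivAt
  have h1 : HasDerivAt (fun y : ℝ => (2 * Real.pi * Complex.I * k * y : ℂ))
      ((2 * Real.pi * Complex.I * k) * 1) y := h0.const_mul _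
  have h2 := h1.cexp
  rw [mul_one] at h2
  rw [mul_comm (2 * Real.pi * Complex.I * k : ℂ)]
  exact h2

private theorem fob_emb_contDiff (k : ℤ) {v : ℝ → ℂ} (hv : ContDiff ℝ ∞ v) :
    ContDiff ℝ ∞ (emb k v) :=
  (hv.comp contDiff_fst).mul ((fob_exp_contDiff k).comp contDiff_snd)

private theorem fob_ds_emb (k : ℤ) {v : ℝ → ℂ} (hv : ContDiff ℝ ∞ v) :
    ds (emb k v) = emb k (deriv v) := by
  funext p
  have h1 : HasDerivAt v (deriv v p.1) p.1 := ((hv.differentiable (by simp)) p.1).hasDerivAt
  exact (h1.mul_const (Complex.exp (2 * Real.pi * Complex.I * k * p.2))).deriv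

private theorem fob_dy_emb (k : ℤ) (v : ℝ → ℂ) :
    dy (emb k v) = (2 * Real.pi * Complex.I * k : ℂ) • emb k v := by
  funext p
  have h1 := ((fob_exp_deriv k p.2).const_mul (v p.1)).deriv
  unfold dy
  refine h1.trans ?_
  simp only [Pi.smul_apply, smul_eq_mul, emb]
  ring

theorem emb_mem {P : ℝ} {a : ℝ → ℝ} {lam : ℝ} {k : ℤ} {v : ℝ → ℂ}
    (hv : v ∈ mode P a lam (2 * Real.pi * k)) : emb k v ∈ eig P a lam := by
  obtain ⟨hv1, hv2, hv3⟩ := hv
  have hdv : ContDiff ℝ ∞ (deriv v) := (contDiff_infty_iff_deriv.1 hv1).2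
  refine ⟨fob_emb_contDiff k hv1, fun p => ?_, fun p => ?_, fun p => ?_⟩
  · simp only [emb]
    rw [hv2]
  · simp only [emb]
    congr 1
    have h1 : (2 * Real.pi * Complex.I * k * ((p.2 + 1 : ℝ) : ℂ) : ℂ) =
        2 * Real.pi * Complex.I * k * p.2 + k * (2 * Real.pi * Complex.I) := by
      push_cast
      ring
    rw [h1, Complex.exp_add, Complex.exp_int_mul_two_pi_mul_I, mul_one]
  · unfold lap
    rw [fob_ds_emb k hv1, fob_ds_emb k hdv, fob_dy_emb]
    have h1 : dy ((2 * Real.pi * Complex.I * k : ℂ) • emb k v) p =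
        (2 * Real.pi * Complex.I * k) * ((2 * Real.pi * Complex.I * k) * emb k v p) := by
      rw [dy_smul, fob_dy_emb]
      rfl
    rw [h1]
    have h2 := hv3 p.1
    have h3 : (2 * Real.pi * Complex.I * k : ℂ) * (2 * Real.pi * Complex.I * k) =
        -(((2 * Real.pi * k) ^ 2 : ℝ) : ℂ) := by
      have : (Complex.I * Complex.I : ℂ) = -1 := Complex.I_mul_I
      push_cast
      linear_combination (4 * (Real.pi : ℂ) ^ 2 * k ^ 2) * this
    simp only [emb]
    push_cast at h2 h3 ⊢
    linear_combination Complex.exp (2 * Real.pi * Complex.I * k * p.2) * h2 +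
      ((a p.1 : ℂ)⁻¹ ^ 2 * v p.1 * Complex.exp (2 * Real.pi * Complex.I * k * p.2)) * h3

theorem coef_emb (k m : ℤ) (v : ℝ → ℂ) (s : ℝ) :
    coef (emb k v) m s = if m = k then v s else 0 := by
  unfold coef emb
  have h1 : ∀ y : ℝ, v s * Complex.exp (2 * Real.pi * Complex.I * k * y) *
      Complex.exp (-(2 * Real.pi * Complex.I * m * y)) =
      v s * Complex.exp ((2 * Real.pi * Complex.I * (k - m)) * y) := by
    intro y
    rw [mul_assoc, ← Complex.exp_add]
    congr 2
    ring
  simp only [h1]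
  rw [intervalIntegral.integral_const_mul]
  split_ifs with h
  · subst h
    simp
  · have h2 : (2 * Real.pi * Complex.I * (k - m) : ℂ) ≠ 0 := by
      have h3 : ((k : ℂ) - m) ≠ 0 := by
        rw [sub_ne_zero]
        exact fun h4 => h (by exact_mod_cast h4.symm)
      have h4 : (Real.pi : ℂ) ≠ 0 := by exact_mod_cast Real.pi_ne_zero
      exact mul_ne_zero (mul_ne_zero (mul_ne_zero two_ne_zero h4) Complex.I_ne_zero) h3
    rw [integral_exp_mul_complex h2]
    have h5 : Complex.exp (2 * Real.pi * Complex.I * (k - m) * ((1 : ℝ) : ℂ)) = 1 := by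
      have h6 : (2 * Real.pi * Complex.I * (k - m) * ((1 : ℝ) : ℂ) : ℂ) =
          ((k - m : ℤ) : ℂ) * (2 * Real.pi * Complex.I) := by
        push_cast
        ring
      rw [h6, Complex.exp_int_mul_two_pi_mul_I]
    rw [h5]
    simp

private theorem fob_int {u : ℝ × ℝ → ℂ} (hu : Continuous u) (k : ℤ) (s : ℝ) :
    IntervalIntegrable (fun y : ℝ => u (s, y) * Complex.exp (-(2 * Real.pi * Complex.I * k * y)))
      MeasureTheory.volume 0 1 := by
  refine Continuous.intervalIntegrable ?_ _ _
  fun_prop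

theorem coef_add {u u' : ℝ × ℝ → ℂ} (hu : Continuous u) (hu' : Continuous u') (k : ℤ) :
    coef (u + u') k = coef u k + coef u' k := by
  funext s
  unfold coef
  rw [Pi.add_apply, ← intervalIntegral.integral_add (fob_int hu k s) (fob_int hu' k s)]
  refine intervalIntegral.integral_congr fun y _ => ?_
  simp only [Pi.add_apply]
  ring

theorem coef_smul (c : ℂ) (u : ℝ × ℝ → ℂ) (k : ℤ) : coef (c • u) k = c • coef u k := by
  funext s
  unfold coef
  rw [Pi.smul_apply, smul_eq_mul, ← intervalIntegral.integral_const_mul]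
  refine intervalIntegral.integral_congr fun y _ => ?_
  simp only [Pi.smul_apply, smul_eq_mul]
  ring

theorem coef_sum {ι : Type} (t : Finset ι) {u : ι → ℝ × ℝ → ℂ} (hu : ∀ i ∈ t, Continuous (u i))
    (k : ℤ) : coef (∑ i ∈ t, u i) k = ∑ i ∈ t, coef (u i) k := by
  classical
  induction t using Finset.induction_on with
  | empty =>
    funext s
    simp [coef]
  | insert i t hi ih =>
    rw [Finset.sum_insert hi, Finset.sum_insert hi, coef_add (hu i (Finset.mem_insert_self i t)),
      ih fun j hj => hu j (Finset.mem_insert_of_mem hj)]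
    have h1 := continuous_finsetSum t fun j hj => hu j (Finset.mem_insert_of_mem hj)
    have h2 : (∑ x ∈ t, u x) = fun a => ∑ i ∈ t, u i a := by
      funext a
      rw [Finset.sum_apply]
    rw [h2]
    exact h1

end Pool.Agent.TOR
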