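import Pool.Agent.TOR.FOB

/-!
MODULE FOC (the eigenspace is the product of finitely many mode spaces; imports FOA, FOB, stubs are enough).

If `mode P a lam (2πk) = ⊥` for `k ∉ T` (`T` a finite set of integers) the linear map `eig → Π_{k ∈ T} mode(2πk)`, `u ↦ (coef u k)_k` (`coef_mode`,
`coef_add`, `coef_smul`) is injective (`eq_zero_of_coef`: for `k ∉ T`, `coef u k ∈ ⊥`) and surjective (`u = ∑_{k ∈ T} emb k (v_k)`, `emb_mem`, `coef_sum`,
`coef_emb`). So `LinearEquiv.ofBijective`; `Module.finrank_pi_fintype`, and finiteness: `Module.Finite.equiv`, `Module.Finite.pi`.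
Index type: `k : T` (subtype), so `∑ k : T, finrank (mode P a lam (2πk))`; convert with `Finset.sum_coe_sort` / `Finset.sum_attach`.
-/

set_option autoImplicit false

namespace Pool.Agent.TOR

private noncomputable def focMap (P : ℝ) (a : ℝ → ℝ) (lam : ℝ) (T : Finset ℤ) :
    eig P a lam →ₗ[ℂ] ((k : T) → mode P a lam (2 * Real.pi * (k : ℤ))) where
  toFun u k := ⟨coef u.1 k, coef_mode u.2 k⟩
  map_add' u v := by
    funext k
    apply Subtype.ext
    exact coef_add u.2.1.continuous v.2.1.continuous k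
  map_smul' c u := by
    funext k
    apply Subtype.ext
    exact coef_smul c u.1 k

private theorem foc_inj {P : ℝ} {a : ℝ → ℝ} {lam : ℝ} (T : Finset ℤ)
    (hT : ∀ k : ℤ, k ∉ T → mode P a lam (2 * Real.pi * k) = ⊥) :
    Function.Injective (focMap P a lam T) := by
  rw [← LinearMap.ker_eq_bot, LinearMap.ker_eq_bot']
  intro u hu
  apply Subtype.ext
  refine eq_zero_of_coef u.2.1.continuous u.2.2.2.1 fun k s => ?_
  by_cases hk : k ∈ T
  · have h1 := congrFun hu ⟨k, hk⟩
    have h2 := congrArg Subtype.val h1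
    exact congrFun h2 s
  · have h1 := coef_mode u.2 k
    rw [hT k hk, Submodule.mem_bot] at h1
    rw [h1]
    rfl

private theorem foc_surj {P : ℝ} {a : ℝ → ℝ} {lam : ℝ} (T : Finset ℤ) :
    Function.Surjective (focMap P a lam T) := by
  classical
  intro v
  have hmem : (∑ k : T, emb k (v k).1) ∈ eig P a lam :=
    Submodule.sum_mem _ fun k _ => emb_mem (v k).2
  refine ⟨⟨∑ k : T, emb k (v k).1, hmem⟩, ?_⟩
  funext m
  apply Subtype.ext
  show coef (∑ k : T, emb k (v k).1) m = (v m).1
  rw [coef_sum Finset.univ fun k _ => (emb_mem (v k).2).1.continuous]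
  funext s
  rw [Finset.sum_apply, Finset.sum_eq_single m]
  · rw [coef_emb, if_pos rfl]
  · intro k _ hk
    rw [coef_emb, if_neg]
    exact fun h => hk (Subtype.ext h.symm)
  · intro h
    exact absurd (Finset.mem_univ m) h

theorem eig_finrank {P : ℝ} {a : ℝ → ℝ} {lam : ℝ} (T : Finset ℤ)
    (hT : ∀ k : ℤ, k ∉ T → mode P a lam (2 * Real.pi * k) = ⊥)
    (hfin : ∀ k : ℤ, Module.Finite ℂ (mode P a lam (2 * Real.pi * k))) :
    Module.Finite ℂ (eig P a lam) ∧ Module.finrank ℂ (eig P a lam)
      = ∑ k ∈ T, Module.finrank ℂ (mode P a lam (2 * Real.pi * k)) := by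
  have hf : ∀ k : T, Module.Finite ℂ (mode P a lam (2 * Real.pi * (k : ℤ))) := fun k => hfin k
  let e := LinearEquiv.ofBijective (focMap P a lam T) ⟨foc_inj T hT, foc_surj T⟩
  refine ⟨Module.Finite.equiv e.symm, ?_⟩
  rw [LinearEquiv.finrank_eq e, Module.finrank_pi_fintype]
  exact Finset.sum_coe_sort T fun k : ℤ => Module.finrank ℂ (mode P a lam (2 * Real.pi * k))

end Pool.Agent.TOR
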