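import Pool.Agent.TOR.Defs

/-!
MODULE ISA (isometries map the lines `a = 1` to lines `b = 1`; needs only Defs).

`Φ` is `C¹`, injective, maps lattice-equivalent points to lattice-equivalent points, and
`(DΦ_p v).1² + b((Φ p).1)² (DΦ_p v).2² = v.1² + a(p.1)² v.2²`, `b ≥ 1`.
* `fst_lip`: `f t = (Φ (t,y)).1` has derivative `(DΦ (1,0)).1`, whose square is `≤ 1` (take `v = (1,0)`). Mean value inequality
  (`Convex.norm_image_sub_le_of_norm_hasDerivWithin_le` on `univ` or `image_sub_le...`).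
* `line_image`: let `a s0 = 1`, `g t = Φ (s0, t)`, `g' = DΦ_{(s0,t)} (0,1)`, so `g₁'² + b(g₁)² g₂'² = 1`; so `|g₁'| ≤ 1`, `|g₂'| ≤ 1`. For every `t`:
  `(s0,t+1) - (s0,t) = (0,1)` is in the lattice so `g(t+1) - g(t) = (mP, n)`; `|mP| ≤ 1 < P` gives `m = 0`; `|n| ≤ 1`, and `n ≠ 0` by injectivity of `Φ`. So
  `|g₂(t+1) - g₂(t)| = 1`; with `|g₂'| ≤ 1`: `g₂'(r)² = 1` for all `r ∈ [t, t+1]` (the function `h = g₂` if `n = 1` (or `-g₂`): `h' ≤ 1`, `h(t+1) - h(t) = 1`; the function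
  `r ↦ (r - t) - (h r - h t)` is monotone on `[t,t+1]`, `0` at both ends, so constant, so `h' = 1` on the open interval and (continuity, or use overlapping intervals:
  each real `r` is in the interior of `[r - 1/2, r+1/2]`) everywhere). So `1 = g₁'² + b²·1 ≥ g₁'² + 1`, so `g₁' = 0` and `b(g₁)² = 1`, `b(g₁) = 1`. `g₁` constant.
-/

set_option autoImplicit false

namespace Pool.Agent.TOR

private theorem ISA_deriv {Φ : ℝ × ℝ → ℝ × ℝ} (hΦ : ContDiff ℝ 1 Φ) {c : ℝ → ℝ × ℝ} {c' : ℝ × ℝ}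
    {t : ℝ} (hc : HasDerivAt c c' t) :
    HasDerivAt (fun t => (Φ (c t)).1) (fderiv ℝ Φ (c t) c').1 t ∧
      HasDerivAt (fun t => (Φ (c t)).2) (fderiv ℝ Φ (c t) c').2 t := by
  have h1 : HasFDerivAt Φ (fderiv ℝ Φ (c t)) (c t) :=
    ((hΦ.differentiable (by simp)) (c t)).hasFDerivAt
  have h2 : HasDerivAt (fun t => Φ (c t)) (fderiv ℝ Φ (c t) c') t := h1.comp_hasDerivAt t hc
  exact ⟨(ContinuousLinearMap.fst ℝ ℝ ℝ).hasFDerivAt.comp_hasDerivAt t h2,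
    (ContinuousLinearMap.snd ℝ ℝ ℝ).hasFDerivAt.comp_hasDerivAt t h2⟩

private theorem ISA_mvt {f f' : ℝ → ℝ} (hf : ∀ t, HasDerivAt f (f' t) t) (hb : ∀ t, f' t ^ 2 ≤ 1)
    (s t : ℝ) : |f t - f s| ≤ |t - s| := by
  have h := Convex.norm_image_sub_le_of_norm_hasDerivWithin_le (f := f) (f' := f') (C := 1)
    (s := Set.univ) (x := s) (y := t) (fun x _ => (hf x).hasDerivWithinAt)
    (fun x _ => by
      rw [Real.norm_eq_abs]
      have := hb x
      rw [← sq_abs] at this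
      nlinarith [abs_nonneg (f' x)])
    convex_univ (Set.mem_univ _) (Set.mem_univ _)
  simpa only [Real.norm_eq_abs, one_mul] using h

theorem fst_lip {a b : ℝ → ℝ} {Φ : ℝ × ℝ → ℝ × ℝ} (hΦ : ContDiff ℝ 1 Φ)
    (hmet : ∀ p v, (fderiv ℝ Φ p v).1 ^ 2 + b (Φ p).1 ^ 2 * (fderiv ℝ Φ p v).2 ^ 2
      = v.1 ^ 2 + a p.1 ^ 2 * v.2 ^ 2) (s s' y : ℝ) :
    |(Φ (s, y)).1 - (Φ (s', y)).1| ≤ |s - s'| := by
  have hc : ∀ t : ℝ, HasDerivAt (fun t : ℝ => ((t, y) : ℝ × ℝ)) (1, 0) t := fun t =>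
    (hasDerivAt_id t).prodMk (hasDerivAt_const t y)
  refine ISA_mvt (fun t => (ISA_deriv hΦ (hc t)).1) (fun t => ?_) s' s
  have h1 := hmet (t, y) (1, 0)
  have h2 : 0 ≤ b (Φ (t, y)).1 ^ 2 * (fderiv ℝ Φ (t, y) (1, 0)).2 ^ 2 := by positivity
  simp only [one_pow, ne_eq, OfNat.ofNat_ne_zero, not_false_eq_true, zero_pow, mul_zero,
    add_zero] at h1
  linarith

theorem line_image {P : ℝ} (hP : 1 < P) {a b : ℝ → ℝ} (hb : ∀ s, 1 ≤ b s)
    {Φ : ℝ × ℝ → ℝ × ℝ} (hΦ : ContDiff ℝ 1 Φ) (hinj : Function.Injective Φ)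
    (hlat : ∀ p q, Lat P (p - q) → Lat P (Φ p - Φ q))
    (hmet : ∀ p v, (fderiv ℝ Φ p v).1 ^ 2 + b (Φ p).1 ^ 2 * (fderiv ℝ Φ p v).2 ^ 2
      = v.1 ^ 2 + a p.1 ^ 2 * v.2 ^ 2) {s0 : ℝ} (h0 : a s0 = 1) (y : ℝ) :
    b (Φ (s0, y)).1 = 1 ∧ (Φ (s0, y)).1 = (Φ (s0, 0)).1 := by
  have hc : ∀ t : ℝ, HasDerivAt (fun t : ℝ => ((s0, t) : ℝ × ℝ)) (0, 1) t := fun t =>
    (hasDerivAt_const t s0).prodMk (hasDerivAt_id t)
  have d1 := fun t => (ISA_deriv hΦ (hc t)).1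
  have d2 := fun t => (ISA_deriv hΦ (hc t)).2
  have hm : ∀ t, (fderiv ℝ Φ (s0, t) (0, 1)).1 ^ 2
      + b (Φ (s0, t)).1 ^ 2 * (fderiv ℝ Φ (s0, t) (0, 1)).2 ^ 2 = 1 := by
    intro t
    have h1 := hmet (s0, t) (0, 1)
    simp only [h0, one_pow, mul_one, ne_eq, OfNat.ofNat_ne_zero, not_false_eq_true, zero_pow,
      zero_add] at h1
    exact h1
  have hbsq : ∀ x, 1 ≤ b x ^ 2 := fun x => by
    have := hb x
    nlinarith
  have b1 : ∀ t, (fderiv ℝ Φ (s0, t) (0, 1)).1 ^ 2 ≤ 1 := fun t => by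
    have h2 : 0 ≤ b (Φ (s0, t)).1 ^ 2 * (fderiv ℝ Φ (s0, t) (0, 1)).2 ^ 2 := by positivity
    linarith [hm t]
  have b2 : ∀ t, (fderiv ℝ Φ (s0, t) (0, 1)).2 ^ 2 ≤ 1 := fun t => by
    have h2 := hbsq (Φ (s0, t)).1
    have h3 := sq_nonneg (fderiv ℝ Φ (s0, t) (0, 1)).2
    have h4 := sq_nonneg (fderiv ℝ Φ (s0, t) (0, 1)).1
    nlinarith [hm t]
  have hone : ∀ t, |(Φ (s0, t + 1)).2 - (Φ (s0, t)).2| = 1 := by
    intro t
    obtain ⟨m, n, hmn⟩ := hlat (s0, t + 1) (s0, t) ⟨0, 1, by simp⟩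
    have e1 : (Φ (s0, t + 1)).1 - (Φ (s0, t)).1 = m * P := by
      have := congrArg Prod.fst hmn
      simpa using this
    have e2 : (Φ (s0, t + 1)).2 - (Φ (s0, t)).2 = n := by
      have := congrArg Prod.snd hmn
      simpa using this
    have l1 := ISA_mvt d1 b1 t (t + 1)
    have l2 := ISA_mvt d2 b2 t (t + 1)
    rw [e1, add_sub_cancel_left, abs_one] at l1
    rw [e2, add_sub_cancel_left, abs_one] at l2
    have hm0 : m = 0 := by
      by_contra hcon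
      have h3 : (1 : ℝ) ≤ |(m : ℝ)| := by
        have : (1 : ℤ) ≤ |m| := Int.one_le_abs hcon
        exact_mod_cast this
      rw [abs_mul, abs_of_pos (lt_trans one_pos hP)] at l1
      nlinarith
    have hn0 : n ≠ 0 := by
      rintro rfl
      have h4 : Φ (s0, t + 1) = Φ (s0, t) := by
        refine Prod.ext ?_ ?_
        · rw [hm0] at e1
          simp only [Int.cast_zero, zero_mul] at e1
          linarith
        · simp only [Int.cast_zero] at e2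
          linarith
      have h5 := congrArg Prod.snd (hinj h4)
      simp only at h5
      linarith
    rw [e2]
    refine le_antisymm l2 ?_
    have : (1 : ℤ) ≤ |n| := Int.one_le_abs hn0
    exact_mod_cast this
  have hsq : ∀ r, (fderiv ℝ Φ (s0, r) (0, 1)).2 ^ 2 = 1 := by
    intro r
    set t := r - 1 / 2 with ht
    obtain ⟨σ, hσ, hσ2⟩ : ∃ σ : ℝ, σ ^ 2 = 1 ∧ σ * ((Φ (s0, t + 1)).2 - (Φ (s0, t)).2) = 1 := by
      have h1 := hone t
      rcases abs_choice ((Φ (s0, t + 1)).2 - (Φ (s0, t)).2) with h2 | h2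
      · exact ⟨1, by norm_num, by rw [one_mul, ← h2, h1]⟩
      · exact ⟨-1, by norm_num, by rw [neg_one_mul, ← h2, h1]⟩
    have hh : ∀ x, HasDerivAt (fun x => x - t - σ * ((Φ (s0, x)).2 - (Φ (s0, t)).2))
        (1 - σ * (fderiv ℝ Φ (s0, x) (0, 1)).2) x := by
      intro x
      exact ((hasDerivAt_id x).sub_const t).sub (((d2 x).sub_const _).const_mul σ)
    have hmono : Monotone (fun x => x - t - σ * ((Φ (s0, x)).2 - (Φ (s0, t)).2)) := by
      refine monotone_of_deriv_nonneg (fun x => (hh x).differentiableAt) fun x => ?_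
      rw [(hh x).deriv]
      have h3 := b2 x
      nlinarith [sq_nonneg (σ - (fderiv ℝ Φ (s0, x) (0, 1)).2)]
    have hzero : ∀ x ∈ Set.Ioo t (t + 1),
        (fun x => x - t - σ * ((Φ (s0, x)).2 - (Φ (s0, t)).2)) x = 0 := by
      intro x hx
      have h4 := hmono hx.1.le
      have h5 := hmono hx.2.le
      simp only at h4 h5 ⊢
      have h6 : σ * ((Φ (s0, t + 1)).2 - (Φ (s0, t)).2) = 1 := hσ2
      have h7 : t - t - σ * ((Φ (s0, t)).2 - (Φ (s0, t)).2) = 0 := by ring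
      linarith
    have hev : (fun x => x - t - σ * ((Φ (s0, x)).2 - (Φ (s0, t)).2)) =ᶠ[nhds r] fun _ => 0 := by
      filter_upwards [Ioo_mem_nhds (show t < r by rw [ht]; linarith)
        (show r < t + 1 by rw [ht]; linarith)] with x hx
      exact hzero x hx
    have h8 := (hh r).unique ((hasDerivAt_const r (0 : ℝ)).congr_of_eventuallyEq hev)
    have h9 : σ * (fderiv ℝ Φ (s0, r) (0, 1)).2 = 1 := by linarith
    have h10 : σ ^ 2 * (fderiv ℝ Φ (s0, r) (0, 1)).2 ^ 2 = 1 := by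
      rw [← mul_pow, h9, one_pow]
    rwa [hσ, one_mul] at h10
  have hfin : ∀ t, b (Φ (s0, t)).1 = 1 ∧ (fderiv ℝ Φ (s0, t) (0, 1)).1 = 0 := by
    intro t
    have h1 := hm t
    rw [hsq t, mul_one] at h1
    have h2 := hb (Φ (s0, t)).1
    have h3 := hbsq (Φ (s0, t)).1
    have h4 : (fderiv ℝ Φ (s0, t) (0, 1)).1 ^ 2 = 0 := by
      nlinarith [sq_nonneg (fderiv ℝ Φ (s0, t) (0, 1)).1]
    refine ⟨?_, by simpa using h4⟩
    rw [h4] at h1
    nlinarith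
  refine ⟨(hfin y).1, ?_⟩
  have hconst := is_const_of_deriv_eq_zero (f := fun t => (Φ (s0, t)).1)
    (fun t => (d1 t).differentiableAt) (fun t => by rw [(d1 t).deriv]; exact (hfin t).2) y 0
  exact hconst

end Pool.Agent.TOR
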