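import Pool.Agent.TOR.KRA

/-!
MODULE KRB (the dimension of the mode space; imports KRA and TMA, stubs are enough).

Let `M = tm a lam kap 0 P`. The linear map `E : mode → ℂ × ℂ`, `v ↦ (v 0, a 0 * deriv v 0)` is injective (`mode_sol`, `sol_eq`: the real and imaginary
parts have zero data so vanish). Its range is `{x | M x = x}`: `⊆`: `mode_sol` and `isTm_tm` and periodicity of `v` (and of `deriv v`, and `a`);
`⊇`: `x = x' + i x''`, take real solutions with data `x', x''` at `0`; `M x' = x'`, `M x'' = x''` so they satisfy the hypothesis of `mode_of_sol`.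
* If `M = 1`: the range is everything, `finrank = 2`.
* If `M ≠ 1` and `tr M = 2`, `det M = 1`: `det (M - 1) = 2 - tr M = 0`; the range is `≠ ⊤` (some entry of `M - 1` is nonzero) and `≠ ⊥` (there is a real
  nonzero vector with `M x = x`: `Matrix.exists_mulVec_eq_zero_iff` for `M - 1`, or by hand: one of `(M01, 1 - M00)`, `(1 - M11, M10)` is nonzero, or `x = (1,0)`),
  so `finrank = 1` (`Submodule.finrank_lt` and positivity).
* If `tr M ≠ 2`: `det(M - 1) ≠ 0`, the range is `⊥`, `finrank = 0`.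
-/

set_option autoImplicit false

namespace Pool.Agent.TOR

open scoped ContDiff

/-- The initial data of a mode. -/
private noncomputable def KRB_E (P : ℝ) (a : ℝ → ℝ) (lam kap : ℝ) :
    mode P a lam kap →ₗ[ℂ] ℂ × ℂ where
  toFun v := ((v : ℝ → ℂ) 0, (a 0 : ℂ) * deriv (v : ℝ → ℂ) 0)
  map_add' u v := by
    have hu : DifferentiableAt ℝ (u : ℝ → ℂ) 0 := (u.2.1.differentiable (by simp)) 0
    have hv : DifferentiableAt ℝ (v : ℝ → ℂ) 0 := (v.2.1.differentiable (by simp)) 0
    have h : deriv ((u : ℝ → ℂ) + (v : ℝ → ℂ)) 0 = deriv (u : ℝ → ℂ) 0 + deriv (v : ℝ → ℂ) 0 :=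
      deriv_add hu hv
    rw [Submodule.coe_add, h]
    ext <;> simp [mul_add]
  map_smul' c u := by
    have h : deriv (c • (u : ℝ → ℂ)) 0 = c * deriv (u : ℝ → ℂ) 0 := by
      have h0 : (c • (u : ℝ → ℂ)) = fun t => c * (u : ℝ → ℂ) t := by
        funext t; simp
      rw [h0, deriv_const_mul_field]
    rw [Submodule.coe_smul, h, RingHom.id_apply]
    refine Prod.ext ?_ ?_
    · simp
    · simp only [Prod.smul_mk, smul_eq_mul]
      ring

private theorem KRB_zero_sol (a : ℝ → ℝ) (lam kap : ℝ) :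
    Sol a lam kap (fun _ => 0) (fun _ => 0) := by
  constructor
  · intro s
    simpa using hasDerivAt_const s (0 : ℝ)
  · intro s
    simpa using hasDerivAt_const s (0 : ℝ)

private theorem KRB_inj {a : ℝ → ℝ} {P : ℝ} (ha : ContDiff ℝ ∞ a) (hpos : ∀ s, 0 < a s)
    (lam kap : ℝ) : Function.Injective (KRB_E P a lam kap) := by
  rw [← LinearMap.ker_eq_bot, LinearMap.ker_eq_bot']
  intro v hv
  have h1 : (v : ℝ → ℂ) 0 = 0 := congrArg Prod.fst hv
  have h2 : (a 0 : ℂ) * deriv (v : ℝ → ℂ) 0 = 0 := congrArg Prod.snd hv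
  have h3 : deriv (v : ℝ → ℂ) 0 = 0 := by
    rcases mul_eq_zero.1 h2 with h | h
    · exact absurd (by exact_mod_cast h) (hpos 0).ne'
    · exact h
  obtain ⟨s1, s2⟩ := mode_sol ha hpos v.2
  obtain ⟨e1, _⟩ := sol_eq ha.continuous hpos (s0 := 0) s1 (KRB_zero_sol a lam kap) (by simp [h1])
    (by simp [h3])
  obtain ⟨e2, _⟩ := sol_eq ha.continuous hpos (s0 := 0) s2 (KRB_zero_sol a lam kap) (by simp [h1])
    (by simp [h3])
  apply Subtype.ext
  funext s
  apply Complex.ext
  · exact congrFun e1 s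
  · exact congrFun e2 s

/-- The fixed vectors of a real matrix. -/
private def KRB_R (M : Matrix (Fin 2) (Fin 2) ℝ) : Submodule ℂ (ℂ × ℂ) where
  carrier := {x | (M 0 0 : ℂ) * x.1 + (M 0 1 : ℂ) * x.2 = x.1 ∧
    (M 1 0 : ℂ) * x.1 + (M 1 1 : ℂ) * x.2 = x.2}
  zero_mem' := by simp
  add_mem' := by
    rintro x y ⟨h1, h2⟩ ⟨h3, h4⟩
    constructor
    · simp only [Prod.fst_add, Prod.snd_add]
      linear_combination h1 + h3
    · simp only [Prod.fst_add, Prod.snd_add]
      linear_combination h2 + h4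
  smul_mem' := by
    rintro c x ⟨h1, h2⟩
    constructor
    · simp only [Prod.smul_fst, Prod.smul_snd, smul_eq_mul]
      linear_combination c * h1
    · simp only [Prod.smul_fst, Prod.smul_snd, smul_eq_mul]
      linear_combination c * h2

private theorem KRB_range {a : ℝ → ℝ} {P : ℝ} (ha : ContDiff ℝ ∞ a) (hpos : ∀ s, 0 < a s)
    (hper : ∀ s, a (s + P) = a s) (lam kap : ℝ) :
    LinearMap.range (KRB_E P a lam kap) = KRB_R (tm a lam kap 0 P) := by
  have htm := isTm_tm ha.continuous hpos lam kap 0 P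
  set M := tm a lam kap 0 P with hM
  have haP : a P = a 0 := by
    have := hper 0
    rwa [zero_add] at this
  apply le_antisymm
  · rintro x ⟨v, rfl⟩
    obtain ⟨s1, s2⟩ := mode_sol ha hpos v.2
    have hvP : (v : ℝ → ℂ) P = (v : ℝ → ℂ) 0 := by
      have := v.2.2.1 0
      rwa [zero_add] at this
    have hdP : deriv (v : ℝ → ℂ) P = deriv (v : ℝ → ℂ) 0 := by
      have h1 : (fun s => (v : ℝ → ℂ) (s + P)) = (v : ℝ → ℂ) := funext v.2.2.1
      have h2 := deriv_comp_add_const (f := (v : ℝ → ℂ)) (a := P) (x := (0 : ℝ))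
      rw [h1, zero_add] at h2
      exact h2.symm
    obtain ⟨t1, t2⟩ := htm _ _ s1
    obtain ⟨t3, t4⟩ := htm _ _ s2
    simp only [hvP, hdP, haP] at t1 t2 t3 t4
    show (M 0 0 : ℂ) * (v : ℝ → ℂ) 0 + (M 0 1 : ℂ) * ((a 0 : ℂ) * deriv (v : ℝ → ℂ) 0) =
      (v : ℝ → ℂ) 0 ∧ (M 1 0 : ℂ) * (v : ℝ → ℂ) 0 +
      (M 1 1 : ℂ) * ((a 0 : ℂ) * deriv (v : ℝ → ℂ) 0) = (a 0 : ℂ) * deriv (v : ℝ → ℂ) 0
    constructor
    · apply Complex.ext
      · simp only [Complex.add_re, Complex.mul_re, Complex.ofReal_re, Complex.ofReal_im,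
          Complex.mul_im]
        linarith
      · simp only [Complex.add_im, Complex.mul_re, Complex.ofReal_re, Complex.ofReal_im,
          Complex.mul_im]
        linarith
    · apply Complex.ext
      · simp only [Complex.add_re, Complex.mul_re, Complex.ofReal_re, Complex.ofReal_im,
          Complex.mul_im]
        linarith
      · simp only [Complex.add_im, Complex.mul_re, Complex.ofReal_re, Complex.ofReal_im,
          Complex.mul_im]
        linarith
  · rintro x ⟨hx1, hx2⟩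
    obtain ⟨v1, w1, s1, d1, d1'⟩ := exists_sol ha.continuous hpos lam kap 0 x.1.re x.2.re
    obtain ⟨v2, w2, s2, d2, d2'⟩ := exists_sol ha.continuous hpos lam kap 0 x.1.im x.2.im
    obtain ⟨t1, t2⟩ := htm _ _ s1
    obtain ⟨t3, t4⟩ := htm _ _ s2
    rw [d1, d1'] at t1 t2
    rw [d2, d2'] at t3 t4
    have r1 := congrArg Complex.re hx1
    have r2 := congrArg Complex.im hx1
    have r3 := congrArg Complex.re hx2
    have r4 := congrArg Complex.im hx2
    simp only [Complex.add_re, Complex.add_im, Complex.mul_re, Complex.mul_im, Complex.ofReal_re,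
      Complex.ofReal_im, zero_mul, sub_zero, add_zero] at r1 r2 r3 r4
    obtain ⟨hmem, hder⟩ := mode_of_sol (P := P) ha hpos hper s1 s2
      ⟨by rw [t1, d1]; linarith, by rw [t2, d1']; linarith⟩
      ⟨by rw [t3, d2]; linarith, by rw [t4, d2']; linarith⟩
    refine ⟨⟨_, hmem⟩, ?_⟩
    have ha0 := (hpos 0).ne'
    show (((v1 0 : ℂ) + Complex.I * (v2 0 : ℂ)), (a 0 : ℂ) *
      deriv (fun s => (v1 s : ℂ) + Complex.I * (v2 s : ℂ)) 0) = x
    rw [hder 0, d1, d2, d1', d2']
    refine Prod.ext ?_ ?_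
    · simp only
      rw [mul_comm]
      exact Complex.re_add_im x.1
    · simp only
      have h3 : (a 0 : ℂ) * (((x.2.re / a 0 : ℝ) : ℂ) + Complex.I * ((x.2.im / a 0 : ℝ) : ℂ)) =
          (x.2.re : ℂ) + (x.2.im : ℂ) * Complex.I := by
        have ha0' : (a 0 : ℂ) ≠ 0 := by exact_mod_cast ha0
        push_cast
        field_simp
      rw [h3]
      exact Complex.re_add_im x.2

private theorem KRB_rank (M : Matrix (Fin 2) (Fin 2) ℝ) (hdet : M.det = 1) (hM : M ≠ 1) :
    Module.finrank ℂ (KRB_R M) = if M.trace = 2 then 1 else 0 := by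
  rw [Matrix.det_fin_two] at hdet
  rw [Matrix.trace_fin_two]
  have hdetC : (M 0 0 : ℂ) * (M 1 1 : ℂ) - (M 0 1 : ℂ) * (M 1 0 : ℂ) = 1 := by exact_mod_cast hdet
  split_ifs with htr
  · have htrC : (M 0 0 : ℂ) + (M 1 1 : ℂ) = 2 := by exact_mod_cast htr
    have hne : KRB_R M ≠ ⊤ := by
      intro htop
      apply hM
      have h1 : ((1, 0) : ℂ × ℂ) ∈ KRB_R M := by rw [htop]; trivial
      have h2 : ((0, 1) : ℂ × ℂ) ∈ KRB_R M := by rw [htop]; trivial
      obtain ⟨h3, h4⟩ := h1
      obtain ⟨h5, h6⟩ := h2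
      simp only [mul_one, mul_zero, add_zero, zero_add] at h3 h4 h5 h6
      have g3 : M 0 0 = 1 := by exact_mod_cast h3
      have g4 : M 1 0 = 0 := by exact_mod_cast h4
      have g5 : M 0 1 = 0 := by exact_mod_cast h5
      have g6 : M 1 1 = 1 := by exact_mod_cast h6
      ext i j
      fin_cases i <;> fin_cases j <;> simp [g3, g4, g5, g6]
    have hlt := Submodule.finrank_lt hne
    have h2 : Module.finrank ℂ (ℂ × ℂ) = 2 := by
      rw [Module.finrank_prod, Module.finrank_self]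
    rw [h2] at hlt
    have hpos : 0 < Module.finrank ℂ (KRB_R M) := by
      rw [Module.finrank_pos_iff, Submodule.nontrivial_iff_ne_bot, Submodule.ne_bot_iff]
      by_cases hz : M 0 1 = 0 ∧ M 0 0 = 1
      · refine ⟨(0, 1), ?_, by simp⟩
        have h11 : M 1 1 = 1 := by linarith [hz.2]
        constructor
        · simp [hz.1]
        · simp [h11]
      · refine ⟨((M 0 1 : ℂ), 1 - (M 0 0 : ℂ)), ⟨?_, ?_⟩, ?_⟩
        · simp only
          ring
        · simp only
          linear_combination (-1 : ℂ) * hdetC + htrC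
        · intro h0
          apply hz
          have g1 : (M 0 1 : ℂ) = 0 := congrArg Prod.fst h0
          have g2 : 1 - (M 0 0 : ℂ) = 0 := congrArg Prod.snd h0
          refine ⟨by exact_mod_cast g1, ?_⟩
          have g3 : (M 0 0 : ℂ) = 1 := by linear_combination (-1 : ℂ) * g2
          exact_mod_cast g3
    omega
  · have hbot : KRB_R M = ⊥ := by
      rw [Submodule.eq_bot_iff]
      rintro x ⟨h1, h2⟩
      have hd : (2 : ℂ) - ((M 0 0 : ℂ) + (M 1 1 : ℂ)) ≠ 0 := by
        intro h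
        apply htr
        have : (M 0 0 : ℂ) + (M 1 1 : ℂ) = 2 := by linear_combination (-1 : ℂ) * h
        exact_mod_cast this
      have e1 : (2 - ((M 0 0 : ℂ) + (M 1 1 : ℂ))) * x.1 = 0 := by
        linear_combination ((M 1 1 : ℂ) - 1) * h1 - (M 0 1 : ℂ) * h2 - x.1 * hdetC
      have e2 : (2 - ((M 0 0 : ℂ) + (M 1 1 : ℂ))) * x.2 = 0 := by
        linear_combination ((M 0 0 : ℂ) - 1) * h2 - (M 1 0 : ℂ) * h1 - x.2 * hdetC
      refine Prod.ext ?_ ?_
      · exact (mul_eq_zero.1 e1).resolve_left hd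
      · exact (mul_eq_zero.1 e2).resolve_left hd
    rw [hbot, finrank_bot]

theorem mode_finite {a : ℝ → ℝ} {P : ℝ} (ha : ContDiff ℝ ∞ a) (hpos : ∀ s, 0 < a s)
    (hper : ∀ s, a (s + P) = a s) (lam kap : ℝ) : Module.Finite ℂ (mode P a lam kap) := by
  have _ := hper
  exact Module.Finite.of_injective (KRB_E P a lam kap) (KRB_inj ha hpos lam kap)

open Classical in
theorem mode_finrank {a : ℝ → ℝ} {P : ℝ} (ha : ContDiff ℝ ∞ a) (hpos : ∀ s, 0 < a s)
    (hper : ∀ s, a (s + P) = a s) (lam kap : ℝ) :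
    Module.finrank ℂ (mode P a lam kap) = if tm a lam kap 0 P = 1 then 2
      else if (tm a lam kap 0 P).trace = 2 then 1 else 0 := by
  have h1 := LinearMap.finrank_range_of_inj (KRB_inj (P := P) ha hpos lam kap)
  rw [← h1, KRB_range ha hpos hper]
  split_ifs with hM htr
  · have htop : KRB_R (tm a lam kap 0 P) = ⊤ := by
      rw [hM, Submodule.eq_top_iff']
      intro x
      constructor <;> simp
    rw [htop, finrank_top, Module.finrank_prod, Module.finrank_self]
  · rw [KRB_rank _ (tm_det ha.continuous hpos lam kap 0 P) hM, if_pos htr]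
  · rw [KRB_rank _ (tm_det ha.continuous hpos lam kap 0 P) hM, if_neg htr]

end Pool.Agent.TOR
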