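import Pool.Agent.TOR.Defs

/-!
MODULE VAN (no modes for large `κ`; needs only Defs).

Let `v ∈ mode`, `h s = Re (a s * deriv v s * conj (v s))`. `h` is `P`-periodic and
`h' = Re (a (v'' + (a'/a) v') conj v) + a |v'|² = (κ²/a - λ a) |v|² + a |v'|² ≥ 0` (the equation of `mode`: `v'' + (a'/a) v' = (a⁻² κ² - λ) v`), where
`κ²/a - λ a > 0` as `λ a² < κ²`. A periodic function with nonnegative derivative is constant (`monotone_of_deriv_nonneg`; for
`s ≤ t`, `h s ≤ h t ≤ h (s + n P) = h s` for `n` large, `0 < P`), so `h' = 0`, so `(κ²/a - λ a) |v|² = 0`, `v = 0`.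
(It may be easier with real and imaginary parts of `v`, or with `v` replaced by the pair: everything is a real linear equation with real coefficients, so
`Re v` and `Im v` satisfy the same equation; for real `v`: `h = a v' v`.)
-/

set_option autoImplicit false

namespace Pool.Agent.TOR

open scoped ContDiff

theorem mode_eq_bot {a : ℝ → ℝ} {P : ℝ} (hP : 0 < P) (ha : ContDiff ℝ ∞ a)
    (hpos : ∀ s, 0 < a s) (hper : ∀ s, a (s + P) = a s) {lam kap : ℝ}
    (h : ∀ s, lam * a s ^ 2 < kap ^ 2) : mode P a lam kap = ⊥ := by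
  rw [Submodule.eq_bot_iff]
  rintro v ⟨hv, hvp, heq⟩
  have hv' : ContDiff ℝ ∞ (deriv v) := (contDiff_infty_iff_deriv.1 hv).2
  have hd : ∀ s, HasDerivAt v (deriv v s) s := fun s =>
    ((hv.differentiable (by simp)) s).hasDerivAt
  have hd2 : ∀ s, HasDerivAt (deriv v) (deriv (deriv v) s) s := fun s =>
    ((hv'.differentiable (by simp)) s).hasDerivAt
  have had : ∀ s, HasDerivAt a (deriv a s) s := fun s =>
    ((ha.differentiable (by simp)) s).hasDerivAt
  have hre : ∀ {f : ℝ → ℂ} {f' : ℂ} {s : ℝ}, HasDerivAt f f' s →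
      HasDerivAt (fun t => (f t).re) f'.re s := fun {f f' s} hf =>
    (Complex.reCLM.hasFDerivAt.comp_hasDerivAt s hf)
  have him : ∀ {f : ℝ → ℂ} {f' : ℂ} {s : ℝ}, HasDerivAt f f' s →
      HasDerivAt (fun t => (f t).im) f'.im s := fun {f f' s} hf =>
    (Complex.imCLM.hasFDerivAt.comp_hasDerivAt s hf)
  have er : ∀ s, (deriv (deriv v) s).re + deriv a s / a s * (deriv v s).re
      - ((a s)⁻¹ ^ 2 * kap ^ 2) * (v s).re = -lam * (v s).re := fun s => by
    have e := congrArg Complex.re (heq s)
    rw [Complex.sub_re, Complex.add_re, Complex.re_ofReal_mul, Complex.re_ofReal_mul,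
      ← Complex.ofReal_neg, Complex.re_ofReal_mul] at e
    exact e
  have ei : ∀ s, (deriv (deriv v) s).im + deriv a s / a s * (deriv v s).im
      - ((a s)⁻¹ ^ 2 * kap ^ 2) * (v s).im = -lam * (v s).im := fun s => by
    have e := congrArg Complex.im (heq s)
    rw [Complex.sub_im, Complex.add_im, Complex.im_ofReal_mul, Complex.im_ofReal_mul,
      ← Complex.ofReal_neg, Complex.im_ofReal_mul] at e
    exact e
  let H : ℝ → ℝ := fun s =>
    a s * ((deriv v s).re * (v s).re + (deriv v s).im * (v s).im)
  have hH : ∀ s, HasDerivAt H ((kap ^ 2 / a s - lam * a s) * ((v s).re ^ 2 + (v s).im ^ 2)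
      + a s * ((deriv v s).re ^ 2 + (deriv v s).im ^ 2)) s := by
    intro s
    have h1 := (had s).mul (((hre (hd2 s)).mul (hre (hd s))).add ((him (hd2 s)).mul (him (hd s))))
    refine h1.congr_deriv ?_
    have hs := (hpos s).ne'
    have e1 := er s
    have e2 := ei s
    have e1' : (deriv (deriv v) s).re = -(deriv a s / a s * (deriv v s).re)
      + ((a s)⁻¹ ^ 2 * kap ^ 2) * (v s).re - lam * (v s).re := by linarith
    have e2' : (deriv (deriv v) s).im = -(deriv a s / a s * (deriv v s).im)
      + ((a s)⁻¹ ^ 2 * kap ^ 2) * (v s).im - lam * (v s).im := by linarith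
    simp only [Pi.add_apply, Pi.mul_apply]
    rw [e1', e2']
    field_simp
    ring
  have hq : ∀ s, 0 < kap ^ 2 / a s - lam * a s := by
    intro s
    have hs := hpos s
    have h1 := h s
    have h2 : kap ^ 2 / a s - lam * a s = (kap ^ 2 - lam * a s ^ 2) / a s := by
      field_simp
    rw [h2]
    exact div_pos (by linarith) hs
  have hnn : ∀ s, 0 ≤ (kap ^ 2 / a s - lam * a s) * ((v s).re ^ 2 + (v s).im ^ 2)
      + a s * ((deriv v s).re ^ 2 + (deriv v s).im ^ 2) := by
    intro s
    have := hq s
    have := hpos s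
    positivity
  have hmono : Monotone H := monotone_of_deriv_nonneg (fun s => (hH s).differentiableAt)
    fun s => by rw [(hH s).deriv]; exact hnn s
  have hdp : ∀ s, deriv v (s + P) = deriv v s := by
    intro s
    have h1 : (fun t => v (t + P)) = v := funext hvp
    have h2 := deriv_comp_add_const v P s
    rw [h1] at h2
    exact h2.symm
  have hHp : Function.Periodic H P := by
    intro s
    change a (s + P) * ((deriv v (s + P)).re * (v (s + P)).re
      + (deriv v (s + P)).im * (v (s + P)).im) = _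
    rw [hper, hdp, hvp]
  have hconst : ∀ s t, H s = H t := by
    have key : ∀ s t, s ≤ t → H s = H t := by
      intro s t hst
      apply le_antisymm (hmono hst)
      obtain ⟨n, hn⟩ := exists_nat_gt ((t - s) / P)
      have h1 : t ≤ s + n * P := by
        rw [div_lt_iff₀ hP] at hn
        linarith
      have h2 := hmono h1
      rwa [(hHp.nat_mul n) s] at h2
    intro s t
    rcases le_total s t with hst | hst
    · exact key s t hst
    · exact (key t s hst).symm
  funext s
  have h0 : (kap ^ 2 / a s - lam * a s) * ((v s).re ^ 2 + (v s).im ^ 2)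
      + a s * ((deriv v s).re ^ 2 + (deriv v s).im ^ 2) = 0 := by
    have h1 := (hH s).unique (f := H) (by
      have h2 : H = fun _ => H s := funext fun t => hconst t s
      have h3 : HasDerivAt (fun _ : ℝ => H s) 0 s := hasDerivAt_const s (H s)
      rwa [← h2] at h3)
    exact h1
  have h1 := hq s
  have h2 := hpos s
  have h3 : (v s).re ^ 2 + (v s).im ^ 2 = 0 := by
    have h4 : 0 ≤ (v s).re ^ 2 + (v s).im ^ 2 := by positivity
    have h5 : 0 ≤ a s * ((deriv v s).re ^ 2 + (deriv v s).im ^ 2) := by positivity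
    have h6 : 0 ≤ (kap ^ 2 / a s - lam * a s) * ((v s).re ^ 2 + (v s).im ^ 2) := by positivity
    have h7 : (kap ^ 2 / a s - lam * a s) * ((v s).re ^ 2 + (v s).im ^ 2) = 0 := by linarith
    rcases mul_eq_zero.1 h7 with h8 | h8
    · exact absurd h8 h1.ne'
    · exact h8
  have h4 : (v s).re = 0 := by nlinarith [sq_nonneg (v s).re, sq_nonneg (v s).im]
  have h5 : (v s).im = 0 := by nlinarith [sq_nonneg (v s).re, sq_nonneg (v s).im]
  exact Complex.ext h4 h5

end Pool.Agent.TOR
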