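import Pool.Agent.TOR.TMA

/-!
MODULE WRB (continuous dependence on `λ`; imports TMA, a stub is enough).

`sol_dep`: `(v', w')` is a fixed solution for `mu`; `(v,w)` a solution for `lam` with the same data at `0`, `|lam - mu| ≤ 1`. On `[0,P]`, in `ℝ × ℝ` with
the sup norm, `(v,w)` solves `z' = f_lam(s,z)`, `f_lam (s,z) = (z.2 / a s, (κ²/a s - lam a s) z.1)` which is Lipschitz in `z` with a constant `K` uniform for
`|lam - mu| ≤ 1` (bounds of `1/a`, `κ²/a + (|mu|+1) a` on the compact `[0,P]`), and `(v',w')` satisfies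
`‖(v',w')' - f_lam(s,(v',w'))‖ = |lam - mu| a |v'| ≤ |lam - mu| C` with `C = sup_{[0,P]} a |v'|`. Gronwall:
`dist_le_of_approx_trajectories_ODE` (with `δ = 0, εf = 0, εg = |lam - mu| C`): `dist ≤ gronwallBound 0 K (|lam-mu| C) s ≤ |lam - mu| C'` for `s ∈ [0,P]`
(`gronwallBound_of_K_ne_0` (take `K ≥ 1`): `= |lam-mu| C / K (exp (K s) - 1)`).
`integral_tendsto`: for `a v_lam v'` with `|v_lam - v_mu| ≤ C' |lam - mu|` on `[0,P]`: `|∫ a v_lam u - ∫ a v_mu u| ≤ C'' |lam - mu|`
(`intervalIntegral.norm_integral_le_of_norm_le_const`).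
-/

set_option autoImplicit false

namespace Pool.Agent.TOR

open Set

private theorem WRB_bound {f : ℝ → ℝ} (hf : Continuous f) (P : ℝ) :
    ∃ C : ℝ, 0 ≤ C ∧ ∀ s ∈ Icc 0 P, |f s| ≤ C := by
  obtain ⟨C, hC⟩ := isCompact_Icc.exists_bound_of_continuousOn (s := Icc 0 P) hf.continuousOn
  refine ⟨|C|, abs_nonneg C, fun s hs => ?_⟩
  have := hC s hs
  rw [Real.norm_eq_abs] at this
  exact le_trans this (le_abs_self C)

private theorem WRB_cont_v {a : ℝ → ℝ} {lam kap : ℝ} {v w : ℝ → ℝ} (h : Sol a lam kap v w) :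
    Continuous v := continuous_iff_continuousAt.2 fun s => (h.1 s).continuousAt

private theorem WRB_cont_w {a : ℝ → ℝ} {lam kap : ℝ} {v w : ℝ → ℝ} (h : Sol a lam kap v w) :
    Continuous w := continuous_iff_continuousAt.2 fun s => (h.2 s).continuousAt


theorem sol_dep {a : ℝ → ℝ} (ha : Continuous a) (hpos : ∀ s, 0 < a s) {mu kap P : ℝ}
    (hP : 0 ≤ P) {v' w' : ℝ → ℝ} (h' : Sol a mu kap v' w') :
    ∃ C : ℝ, 0 ≤ C ∧ ∀ lam, |lam - mu| ≤ 1 → ∀ v w, Sol a lam kap v w → v 0 = v' 0 → w 0 = w' 0 →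
      ∀ s ∈ Icc 0 P, |v s - v' s| ≤ C * |lam - mu| ∧ |w s - w' s| ≤ C * |lam - mu| := by
  obtain ⟨A1, hA1, b1⟩ := WRB_bound (f := fun s => 1 / a s)
    (continuous_const.div ha (fun s => (hpos s).ne')) P
  obtain ⟨A2, hA2, b2⟩ := WRB_bound (f := fun s => kap ^ 2 / a s)
    (continuous_const.div ha (fun s => (hpos s).ne')) P
  obtain ⟨A3, hA3, b3⟩ := WRB_bound ha P
  obtain ⟨C0, hC0, b4⟩ := WRB_bound (f := fun s => a s * v' s) (ha.mul (WRB_cont_v h')) P
  set K : ℝ := A1 + A2 + (|mu| + 1) * A3 + 1 with hK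
  have hmu := abs_nonneg mu
  have hK1 : 1 ≤ K := by
    have : 0 ≤ (|mu| + 1) * A3 := by positivity
    linarith
  have hKp : 0 < K := by linarith
  refine ⟨C0 / K * (Real.exp (K * P) - 1), ?_, ?_⟩
  · have : 1 ≤ Real.exp (K * P) := Real.one_le_exp (by positivity)
    apply mul_nonneg (by positivity)
    linarith
  intro lam hlam v w h hv hw
  set D : ℝ → ℝ × ℝ := fun s => (v s - v' s, w s - w' s) with hD
  set D' : ℝ → ℝ × ℝ := fun s => (w s / a s - w' s / a s,
    (kap ^ 2 / a s - lam * a s) * v s - (kap ^ 2 / a s - mu * a s) * v' s) with hD'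
  have hder : ∀ s, HasDerivAt D (D' s) s := by
    intro s
    exact ((h.1 s).fun_sub (h'.1 s)).prodMk ((h.2 s).fun_sub (h'.2 s))
  have hcont : Continuous D := continuous_iff_continuousAt.2 fun s => (hder s).continuousAt
  have hbound : ∀ s ∈ Ico 0 P, ‖D' s‖ ≤ K * ‖D s‖ + C0 * |lam - mu| := by
    intro s hs
    have hs' : s ∈ Icc 0 P := ⟨hs.1, hs.2.le⟩
    have n1 : |v s - v' s| ≤ ‖D s‖ := by
      have := norm_fst_le (D s)
      rwa [Real.norm_eq_abs] at this
    have n2 : |w s - w' s| ≤ ‖D s‖ := by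
      have := norm_snd_le (D s)
      rwa [Real.norm_eq_abs] at this
    have hDn : 0 ≤ ‖D s‖ := norm_nonneg _
    have c1 : |1 / a s| ≤ A1 := b1 s hs'
    have c2 : |kap ^ 2 / a s| ≤ A2 := b2 s hs'
    have c3 : |a s| ≤ A3 := b3 s hs'
    have c4 : |a s * v' s| ≤ C0 := b4 s hs'
    have hlm : |lam| ≤ |mu| + 1 := by
      have : |lam| ≤ |mu| + |lam - mu| := by
        have := abs_add_le mu (lam - mu)
        rwa [add_sub_cancel] at this
      linarith
    have hx : 0 ≤ C0 * |lam - mu| := by positivity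
    rw [Prod.norm_def]
    apply max_le
    · rw [Real.norm_eq_abs]
      have e1 : (D' s).1 = 1 / a s * (w s - w' s) := by
        show w s / a s - w' s / a s = _
        ring
      rw [e1, abs_mul]
      have e2 : |1 / a s| * |w s - w' s| ≤ A1 * ‖D s‖ := mul_le_mul c1 n2 (abs_nonneg _) hA1
      have e3 : A1 * ‖D s‖ ≤ K * ‖D s‖ := by
        apply mul_le_mul_of_nonneg_right _ hDn
        have : 0 ≤ (|mu| + 1) * A3 := by positivity
        linarith
      linarith
    · rw [Real.norm_eq_abs]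
      have e1 : (D' s).2 = (kap ^ 2 / a s - lam * a s) * (v s - v' s)
          - (lam - mu) * (a s * v' s) := by
        show (kap ^ 2 / a s - lam * a s) * v s - (kap ^ 2 / a s - mu * a s) * v' s = _
        ring
      rw [e1]
      refine le_trans (abs_sub _ _) ?_
      rw [abs_mul, abs_mul]
      have e2 : |kap ^ 2 / a s - lam * a s| ≤ A2 + (|mu| + 1) * A3 := by
        refine le_trans (abs_sub _ _) ?_
        rw [abs_mul]
        exact add_le_add c2 (mul_le_mul hlm c3 (abs_nonneg _) (by positivity))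
      have e3 : |kap ^ 2 / a s - lam * a s| * |v s - v' s| ≤
          (A2 + (|mu| + 1) * A3) * ‖D s‖ := mul_le_mul e2 n1 (abs_nonneg _) (by positivity)
      have e4 : (A2 + (|mu| + 1) * A3) * ‖D s‖ ≤ K * ‖D s‖ := by
        apply mul_le_mul_of_nonneg_right _ hDn
        linarith
      have e5 : |lam - mu| * |a s * v' s| ≤ |lam - mu| * C0 :=
        mul_le_mul_of_nonneg_left c4 (abs_nonneg _)
      linarith
  have h0 : ‖D 0‖ ≤ 0 := by
    have : D 0 = 0 := by
      show (v 0 - v' 0, w 0 - w' 0) = ((0 : ℝ), (0 : ℝ))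
      rw [hv, hw, sub_self, sub_self]
    rw [this, norm_zero]
  have hgr := norm_le_gronwallBound_of_norm_deriv_right_le hcont.continuousOn
    (fun s _ => (hder s).hasDerivWithinAt) h0 hbound
  intro s hs
  have h1 := hgr s hs
  rw [gronwallBound_of_K_ne_0 hKp.ne'] at h1
  simp only [zero_mul, zero_add, sub_zero] at h1
  have h2 : Real.exp (K * s) ≤ Real.exp (K * P) :=
    Real.exp_le_exp.2 (mul_le_mul_of_nonneg_left hs.2 hKp.le)
  have h3 : C0 * |lam - mu| / K * (Real.exp (K * s) - 1) ≤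
      C0 / K * (Real.exp (K * P) - 1) * |lam - mu| := by
    have h4 : C0 / K * (Real.exp (K * P) - 1) * |lam - mu| =
      C0 * |lam - mu| / K * (Real.exp (K * P) - 1) := by ring
    rw [h4]
    apply mul_le_mul_of_nonneg_left (by linarith)
    positivity
  constructor
  · have := norm_fst_le (D s)
    rw [Real.norm_eq_abs] at this
    exact le_trans this (le_trans h1 h3)
  · have := norm_snd_le (D s)
    rw [Real.norm_eq_abs] at this
    exact le_trans this (le_trans h1 h3)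

theorem integral_dep {a : ℝ → ℝ} (ha : Continuous a) (hpos : ∀ s, 0 < a s) {mu kap P : ℝ}
    (hP : 0 ≤ P) {v' w' : ℝ → ℝ} (h' : Sol a mu kap v' w') {u : ℝ → ℝ} (hu : Continuous u) :
    ∃ C : ℝ, 0 ≤ C ∧ ∀ lam, |lam - mu| ≤ 1 → ∀ v w, Sol a lam kap v w → v 0 = v' 0 → w 0 = w' 0 →
      |(∫ s in (0 : ℝ)..P, a s * v s * u s) - ∫ s in (0 : ℝ)..P, a s * v' s * u s|
        ≤ C * |lam - mu| := by
  obtain ⟨C1, hC1, b1⟩ := sol_dep ha hpos hP h'
  obtain ⟨C2, hC2, b2⟩ := WRB_bound (f := fun s => a s * u s) (ha.mul hu) P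
  refine ⟨C2 * C1 * P, by positivity, ?_⟩
  intro lam hlam v w h hv hw
  have hb := b1 lam hlam v w h hv hw
  have i1 : IntervalIntegrable (fun s => a s * v s * u s) MeasureTheory.volume 0 P :=
    ((ha.mul (WRB_cont_v h)).mul hu).intervalIntegrable 0 P
  have i2 : IntervalIntegrable (fun s => a s * v' s * u s) MeasureTheory.volume 0 P :=
    ((ha.mul (WRB_cont_v h')).mul hu).intervalIntegrable 0 P
  rw [← intervalIntegral.integral_sub i1 i2]
  have h1 := intervalIntegral.norm_integral_le_of_norm_le_const (a := (0 : ℝ)) (b := P)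
    (C := C2 * (C1 * |lam - mu|)) (f := fun s => a s * v s * u s - a s * v' s * u s) (by
      intro s hs
      rw [uIoc_of_le hP] at hs
      have hs' : s ∈ Icc 0 P := ⟨hs.1.le, hs.2⟩
      rw [Real.norm_eq_abs]
      have e1 : a s * v s * u s - a s * v' s * u s = (a s * u s) * (v s - v' s) := by ring
      rw [e1, abs_mul]
      exact mul_le_mul (b2 s hs') (hb s hs').1 (abs_nonneg _) hC2)
  rw [Real.norm_eq_abs, sub_zero, abs_of_nonneg hP] at h1
  refine le_trans h1 (le_of_eq ?_)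
  ring

end Pool.Agent.TOR
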