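import Pool.Agent.TOR.WRA
import Pool.Agent.TOR.WRB

/-!
MODULE WRO (equal traces for all `λ` imply: one period matrix is `1` iff the other is; imports WRA, WRB, stubs are enough).

* `deriv_trace`: the function `lam ↦ tr (tm a lam kap 0 P)` satisfies: there is `C` with
  `|tr M_lam - tr M_mu - (lam - mu) G| ≤ C (lam - mu)²` for `|lam - mu| ≤ 1`, where
  `G = A I_12 - B I_11 + C I_22 - D I_12`, `I_ij = ∫_0^P a v_i v_j` (solutions for `mu` with data `(1,0)`, `(0,1)`), `M_mu = !![A,B;C,D]`: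
  `trace_sub` and `integral_dep` (four times), `I_21 = I_12`.
* `G = -∫_0^P a (B v1² + (D - A) v1 v2 - C v2²)`.
* If `M_mu = 1`: `G = 0`. If `M_mu ≠ 1`, `A + D = 2`, `AD - BC = 1`: `(D - A)² + 4 B C = 0`, so the quadratic form
  `Q(x,y) = B x² + (D-A) x y - C y²` satisfies: if `B ≠ 0`: `Q = B (x + (D-A)/(2B) y)²`; if `B = 0` then `D = A = 1` and `Q = -C y²`, `C ≠ 0`. So
  `G = ∓ c ∫ a (α v1 + β v2)²` with `c > 0`, `(α, β) ≠ 0`; the solution `v = α v1 + β v2` is not identically zero on `[0,P]` (otherwise `v = 0` on `(0,P)`,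
  `v(0) = α = 0` by continuity, `w = a v' = 0` on `(0,P)`, `w(0) = β = 0` by continuity), so the integral of the continuous nonnegative function
  `a v²` is positive (`intervalIntegral.integral_pos`). So `G ≠ 0`.
* `one_iff`: if `M_a(mu) = 1` then `tr M_b(mu) = 2`, `G_a = 0`, and the equality of the traces for all `lam` gives `|lam - mu| |G_b| ≤ C (lam - mu)²`, so
  `G_b = 0` (divide by `|lam - mu|` and let `lam → mu`), so `M_b(mu) = 1`. Symmetric.
-/

set_option autoImplicit false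

namespace Pool.Agent.TOR

open Set

private theorem WRO_cont {a : ℝ → ℝ} {lam kap : ℝ} {v w : ℝ → ℝ} (h : Sol a lam kap v w) :
    Continuous v :=
  continuous_iff_continuousAt.2 fun s => (h.1 s).continuousAt

private theorem WRO_pos {a : ℝ → ℝ} (ha : Continuous a) (hpos : ∀ s, 0 < a s) {mu kap P : ℝ}
    (hP : 0 < P) {v w : ℝ → ℝ} (h : Sol a mu kap v w) (h0 : ¬ (v 0 = 0 ∧ w 0 = 0)) :
    0 < ∫ s in (0 : ℝ)..P, a s * v s ^ 2 := by
  have hc := WRO_cont h
  refine intervalIntegral.integral_pos hP (by fun_prop) (fun s _ => ?_) ?_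
  · have := (hpos s).le
    positivity
  · by_contra hcon
    push Not at hcon
    have hz : ∀ s ∈ Icc 0 P, v s = 0 := by
      intro s hs
      by_contra hne
      have h1 := hcon s hs
      have h2 : 0 < a s * v s ^ 2 := by
        have := hpos s
        positivity
      linarith
    have hmid : P / 2 ∈ Ioo 0 P := ⟨by linarith, by linarith⟩
    have hev : v =ᶠ[nhds (P / 2)] fun _ => 0 := by
      filter_upwards [Ioo_mem_nhds hmid.1 hmid.2] with s hs
      exact hz s ⟨hs.1.le, hs.2.le⟩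
    have hd : HasDerivAt v 0 (P / 2) := (hasDerivAt_const (P / 2) (0 : ℝ)).congr_of_eventuallyEq hev
    have hw : w (P / 2) = 0 := by
      have h1 := (h.1 (P / 2)).unique hd
      rcases div_eq_zero_iff.1 h1 with h2 | h2
      · exact h2
      · exact absurd h2 (hpos _).ne'
    have hv : v (P / 2) = 0 := hz _ ⟨hmid.1.le, hmid.2.le⟩
    have hsol : Sol a mu kap (fun _ => 0) (fun _ => 0) := by
      constructor
      · intro s
        simpa using hasDerivAt_const s (0 : ℝ)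
      · intro s
        simpa using hasDerivAt_const s (0 : ℝ)
    obtain ⟨e1, e2⟩ := sol_eq ha hpos h hsol hv hw
    exact h0 ⟨by rw [e1], by rw [e2]⟩

private theorem WRO_G {a : ℝ → ℝ} (ha : Continuous a) {P A B C D : ℝ} {v1 v2 : ℝ → ℝ}
    (c1 : Continuous v1) (c2 : Continuous v2) :
    -∫ s in (0 : ℝ)..P, a s * (B * v1 s ^ 2 + (D - A) * (v1 s * v2 s) - C * v2 s ^ 2) =
      A * (∫ s in (0 : ℝ)..P, a s * v1 s * v2 s) - B * (∫ s in (0 : ℝ)..P, a s * v1 s * v1 s)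
        + C * (∫ s in (0 : ℝ)..P, a s * v2 s * v2 s)
        - D * (∫ s in (0 : ℝ)..P, a s * v2 s * v1 s) := by
  have i12 : IntervalIntegrable (fun s => a s * v1 s * v2 s) MeasureTheory.volume 0 P :=
    ((ha.mul c1).mul c2).intervalIntegrable _ _
  have i11 : IntervalIntegrable (fun s => a s * v1 s * v1 s) MeasureTheory.volume 0 P :=
    ((ha.mul c1).mul c1).intervalIntegrable _ _
  have i22 : IntervalIntegrable (fun s => a s * v2 s * v2 s) MeasureTheory.volume 0 P :=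
    ((ha.mul c2).mul c2).intervalIntegrable _ _
  have i21 : IntervalIntegrable (fun s => a s * v2 s * v1 s) MeasureTheory.volume 0 P :=
    ((ha.mul c2).mul c1).intervalIntegrable _ _
  rw [← intervalIntegral.integral_const_mul, ← intervalIntegral.integral_const_mul,
    ← intervalIntegral.integral_const_mul, ← intervalIntegral.integral_const_mul,
    ← intervalIntegral.integral_sub (i12.const_mul A) (i11.const_mul B),
    ← intervalIntegral.integral_add ((i12.const_mul A).sub (i11.const_mul B)) (i22.const_mul C),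
    ← intervalIntegral.integral_sub (((i12.const_mul A).sub (i11.const_mul B)).add
      (i22.const_mul C)) (i21.const_mul D), ← intervalIntegral.integral_neg]
  refine intervalIntegral.integral_congr fun s _ => ?_
  ring

theorem deriv_trace {a : ℝ → ℝ} (ha : Continuous a) (hpos : ∀ s, 0 < a s) {mu kap P : ℝ}
    (hP : 0 ≤ P) {v1 w1 v2 w2 : ℝ → ℝ} (h1 : Sol a mu kap v1 w1) (h2 : Sol a mu kap v2 w2)
    (e1 : v1 0 = 1 ∧ w1 0 = 0) (e2 : v2 0 = 0 ∧ w2 0 = 1) :
    ∃ C : ℝ, 0 ≤ C ∧ ∀ lam, |lam - mu| ≤ 1 →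
      |(tm a lam kap 0 P).trace - (tm a mu kap 0 P).trace - (lam - mu) *
        (-∫ s in (0 : ℝ)..P, a s * ((tm a mu kap 0 P) 0 1 * v1 s ^ 2
          + ((tm a mu kap 0 P) 1 1 - (tm a mu kap 0 P) 0 0) * (v1 s * v2 s)
          - (tm a mu kap 0 P) 1 0 * v2 s ^ 2))| ≤ C * |lam - mu| ^ 2 := by
  have c1 := WRO_cont h1
  have c2 := WRO_cont h2
  obtain ⟨C11, n11, H11⟩ := integral_dep ha hpos hP h1 c1
  obtain ⟨C12, n12, H12⟩ := integral_dep ha hpos hP h1 c2
  obtain ⟨C21, n21, H21⟩ := integral_dep ha hpos hP h2 c1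
  obtain ⟨C22, n22, H22⟩ := integral_dep ha hpos hP h2 c2
  set M := tm a mu kap 0 P with hM
  refine ⟨|M 0 0| * C12 + |M 0 1| * C11 + |M 1 0| * C22 + |M 1 1| * C21, by positivity,
    fun lam hlam => ?_⟩
  obtain ⟨u1, z1, s1, d1, d1'⟩ := exists_sol ha hpos lam kap 0 1 0
  obtain ⟨u2, z2, s2, d2, d2'⟩ := exists_sol ha hpos lam kap 0 0 1
  have key := trace_sub (P := P) ha hpos s1 s2 h1 h2 ⟨d1, d1'⟩ ⟨d2, d2'⟩ e1 e2
  rw [← hM] at key
  rw [key, WRO_G ha c1 c2]
  have k11 := H11 lam hlam u1 z1 s1 (by rw [d1, e1.1]) (by rw [d1', e1.2])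
  have k12 := H12 lam hlam u1 z1 s1 (by rw [d1, e1.1]) (by rw [d1', e1.2])
  have k21 := H21 lam hlam u2 z2 s2 (by rw [d2, e2.1]) (by rw [d2', e2.2])
  have k22 := H22 lam hlam u2 z2 s2 (by rw [d2, e2.1]) (by rw [d2', e2.2])
  set J11 := ∫ s in (0 : ℝ)..P, a s * v1 s * v1 s
  set J12 := ∫ s in (0 : ℝ)..P, a s * v1 s * v2 s
  set J21 := ∫ s in (0 : ℝ)..P, a s * v2 s * v1 s
  set J22 := ∫ s in (0 : ℝ)..P, a s * v2 s * v2 s
  set I11 := ∫ s in (0 : ℝ)..P, a s * u1 s * v1 s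
  set I12 := ∫ s in (0 : ℝ)..P, a s * u1 s * v2 s
  set I21 := ∫ s in (0 : ℝ)..P, a s * u2 s * v1 s
  set I22 := ∫ s in (0 : ℝ)..P, a s * u2 s * v2 s
  have hid : (lam - mu) * (M 0 0 * I12 - M 0 1 * I11 + M 1 0 * I22 - M 1 1 * I21) -
      (lam - mu) * (M 0 0 * J12 - M 0 1 * J11 + M 1 0 * J22 - M 1 1 * J21) =
      (lam - mu) * (M 0 0 * (I12 - J12) - M 0 1 * (I11 - J11) + M 1 0 * (I22 - J22)
        - M 1 1 * (I21 - J21)) := by ring
  rw [hid, abs_mul]
  have t1 : |M 0 0 * (I12 - J12)| ≤ |M 0 0| * (C12 * |lam - mu|) := by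
    rw [abs_mul]; exact mul_le_mul_of_nonneg_left k12 (abs_nonneg _)
  have t2 : |M 0 1 * (I11 - J11)| ≤ |M 0 1| * (C11 * |lam - mu|) := by
    rw [abs_mul]; exact mul_le_mul_of_nonneg_left k11 (abs_nonneg _)
  have t3 : |M 1 0 * (I22 - J22)| ≤ |M 1 0| * (C22 * |lam - mu|) := by
    rw [abs_mul]; exact mul_le_mul_of_nonneg_left k22 (abs_nonneg _)
  have t4 : |M 1 1 * (I21 - J21)| ≤ |M 1 1| * (C21 * |lam - mu|) := by
    rw [abs_mul]; exact mul_le_mul_of_nonneg_left k21 (abs_nonneg _)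
  have t5 : |M 0 0 * (I12 - J12) - M 0 1 * (I11 - J11) + M 1 0 * (I22 - J22)
        - M 1 1 * (I21 - J21)| ≤ (|M 0 0| * C12 + |M 0 1| * C11 + |M 1 0| * C22
        + |M 1 1| * C21) * |lam - mu| := by
    have a1 := abs_le.1 t1
    have a2 := abs_le.1 t2
    have a3 := abs_le.1 t3
    have a4 := abs_le.1 t4
    rw [abs_le]
    constructor <;> linarith
  calc |lam - mu| * |M 0 0 * (I12 - J12) - M 0 1 * (I11 - J11) + M 1 0 * (I22 - J22)
        - M 1 1 * (I21 - J21)| ≤ |lam - mu| * ((|M 0 0| * C12 + |M 0 1| * C11 + |M 1 0| * C22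
        + |M 1 1| * C21) * |lam - mu|) := mul_le_mul_of_nonneg_left t5 (abs_nonneg _)
    _ = _ := by ring

theorem integral_ne_zero {a : ℝ → ℝ} (ha : Continuous a) (hpos : ∀ s, 0 < a s) {mu kap P : ℝ}
    (hP : 0 < P) {v1 w1 v2 w2 : ℝ → ℝ} (h1 : Sol a mu kap v1 w1) (h2 : Sol a mu kap v2 w2)
    (e1 : v1 0 = 1 ∧ w1 0 = 0) (e2 : v2 0 = 0 ∧ w2 0 = 1)
    (htr : (tm a mu kap 0 P).trace = 2) (hne : tm a mu kap 0 P ≠ 1) :
    (∫ s in (0 : ℝ)..P, a s * ((tm a mu kap 0 P) 0 1 * v1 s ^ 2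
          + ((tm a mu kap 0 P) 1 1 - (tm a mu kap 0 P) 0 0) * (v1 s * v2 s)
          - (tm a mu kap 0 P) 1 0 * v2 s ^ 2)) ≠ 0 := by
  have c1 := WRO_cont h1
  have c2 := WRO_cont h2
  have hdet := tm_det ha hpos mu kap 0 P
  set M := tm a mu kap 0 P with hM
  rw [Matrix.det_fin_two] at hdet
  rw [Matrix.trace_fin_two] at htr
  have hdisc : (M 1 1 - M 0 0) ^ 2 + 4 * M 0 1 * M 1 0 = 0 := by
    have : (M 1 1 - M 0 0) ^ 2 + 4 * M 0 1 * M 1 0 =
      (M 0 0 + M 1 1) ^ 2 - 4 * (M 0 0 * M 1 1 - M 0 1 * M 1 0) := by ring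
    rw [this, htr, hdet]
    norm_num
  by_cases hB : M 0 1 = 0
  · have hDA : M 1 1 - M 0 0 = 0 := by
      rw [hB] at hdisc
      have : (M 1 1 - M 0 0) ^ 2 = 0 := by linarith
      exact pow_eq_zero_iff (two_ne_zero) |>.1 this
    have hA : M 0 0 = 1 := by linarith
    have hD : M 1 1 = 1 := by linarith
    have hC : M 1 0 ≠ 0 := by
      intro hC
      apply hne
      ext i j
      fin_cases i <;> fin_cases j <;> simp [hA, hB, hC, hD]
    have hpos2 := WRO_pos ha hpos hP h2 (by rw [e2.1, e2.2]; simp)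
    have hint : (∫ s in (0 : ℝ)..P, a s * (M 0 1 * v1 s ^ 2
          + (M 1 1 - M 0 0) * (v1 s * v2 s) - M 1 0 * v2 s ^ 2)) =
        -M 1 0 * ∫ s in (0 : ℝ)..P, a s * v2 s ^ 2 := by
      rw [← intervalIntegral.integral_const_mul]
      refine intervalIntegral.integral_congr fun s _ => ?_
      rw [hB, hDA]
      ring
    rw [hint]
    exact mul_ne_zero (neg_ne_zero.2 hC) hpos2.ne'
  · have hsol := Sol.comb h1 h2 1 ((M 1 1 - M 0 0) / (2 * M 0 1))
    have hpos2 := WRO_pos ha hpos hP hsol (by rw [e1.1, e2.1]; simp)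
    have hint : (∫ s in (0 : ℝ)..P, a s * (M 0 1 * v1 s ^ 2
          + (M 1 1 - M 0 0) * (v1 s * v2 s) - M 1 0 * v2 s ^ 2)) =
        M 0 1 * ∫ s in (0 : ℝ)..P, a s *
          (1 * v1 s + (M 1 1 - M 0 0) / (2 * M 0 1) * v2 s) ^ 2 := by
      rw [← intervalIntegral.integral_const_mul]
      refine intervalIntegral.integral_congr fun s _ => ?_
      have hC : M 1 0 = -(M 1 1 - M 0 0) ^ 2 / (4 * M 0 1) := by
        field_simp
        linarith
      rw [hC]
      field_simp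
      ring
    rw [hint]
    exact mul_ne_zero hB hpos2.ne'

theorem one_iff {a b : ℝ → ℝ} (ha : Continuous a) (hapos : ∀ s, 0 < a s) (hb : Continuous b)
    (hbpos : ∀ s, 0 < b s) {P : ℝ} (hP : 0 < P) (kap : ℝ)
    (h : ∀ lam, (tm a lam kap 0 P).trace = (tm b lam kap 0 P).trace) (mu : ℝ) :
    tm a mu kap 0 P = 1 ↔ tm b mu kap 0 P = 1 := by
  have main : ∀ {a b : ℝ → ℝ}, Continuous a → (∀ s, 0 < a s) → Continuous b → (∀ s, 0 < b s) →
      (∀ lam, (tm a lam kap 0 P).trace = (tm b lam kap 0 P).trace) →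
      tm a mu kap 0 P = 1 → tm b mu kap 0 P = 1 := by
    intro a b ha hapos hb hbpos h h1
    by_contra hne
    obtain ⟨v1, w1, s1, d1, d1'⟩ := exists_sol ha hapos mu kap 0 1 0
    obtain ⟨v2, w2, s2, d2, d2'⟩ := exists_sol ha hapos mu kap 0 0 1
    obtain ⟨u1, z1, r1, f1, f1'⟩ := exists_sol hb hbpos mu kap 0 1 0
    obtain ⟨u2, z2, r2, f2, f2'⟩ := exists_sol hb hbpos mu kap 0 0 1
    obtain ⟨Ca, nCa, HCa⟩ := deriv_trace ha hapos hP.le s1 s2 ⟨d1, d1'⟩ ⟨d2, d2'⟩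
    obtain ⟨Cb, nCb, HCb⟩ := deriv_trace hb hbpos hP.le r1 r2 ⟨f1, f1'⟩ ⟨f2, f2'⟩
    have htr : (tm b mu kap 0 P).trace = 2 := by
      rw [← h mu, h1, Matrix.trace_one]
      norm_num
    have hG := integral_ne_zero hb hbpos hP r1 r2 ⟨f1, f1'⟩ ⟨f2, f2'⟩ htr hne
    set G := (∫ s in (0 : ℝ)..P, b s * ((tm b mu kap 0 P) 0 1 * u1 s ^ 2
          + ((tm b mu kap 0 P) 1 1 - (tm b mu kap 0 P) 0 0) * (u1 s * u2 s)
          - (tm b mu kap 0 P) 1 0 * u2 s ^ 2)) with hGdef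
    have hGpos : 0 < |G| := abs_pos.2 hG
    set t : ℝ := min 1 (|G| / (2 * (Ca + Cb + 1))) with ht
    have ht0 : 0 < t := lt_min one_pos (by positivity)
    have ht1 : t ≤ 1 := min_le_left _ _
    have ht2 : (Ca + Cb + 1) * t ≤ |G| / 2 := by
      have : t ≤ |G| / (2 * (Ca + Cb + 1)) := min_le_right _ _
      calc (Ca + Cb + 1) * t ≤ (Ca + Cb + 1) * (|G| / (2 * (Ca + Cb + 1))) :=
            mul_le_mul_of_nonneg_left this (by positivity)
        _ = |G| / 2 := by field_simp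
    have hlam : |mu + t - mu| ≤ 1 := by
      rw [add_sub_cancel_left, abs_of_pos ht0]; exact ht1
    have qa := HCa (mu + t) hlam
    have qb := HCb (mu + t) hlam
    have hz : (∫ s in (0 : ℝ)..P, a s * ((tm a mu kap 0 P) 0 1 * v1 s ^ 2
          + ((tm a mu kap 0 P) 1 1 - (tm a mu kap 0 P) 0 0) * (v1 s * v2 s)
          - (tm a mu kap 0 P) 1 0 * v2 s ^ 2)) = 0 := by
      rw [h1]
      simp
    rw [hz, neg_zero, mul_zero, sub_zero, add_sub_cancel_left, abs_of_pos ht0, h (mu + t),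
      h mu] at qa
    rw [add_sub_cancel_left, abs_of_pos ht0] at qb
    have a1 := abs_le.1 qa
    have a2 := abs_le.1 qb
    have q1 : |t * G| ≤ (Ca + Cb) * t ^ 2 := by
      rw [abs_le]
      constructor <;> nlinarith
    rw [abs_mul, abs_of_pos ht0] at q1
    have q2 : |G| ≤ (Ca + Cb) * t := by
      have : t * |G| ≤ t * ((Ca + Cb) * t) := by nlinarith
      exact le_of_mul_le_mul_left this ht0
    nlinarith
  exact ⟨main ha hapos hb hbpos h, main hb hbpos ha hapos fun lam => (h lam).symm⟩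

end Pool.Agent.TOR
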