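import Pool.Agent.TOR.MON
import Pool.Agent.TOR.ALG
import Pool.Agent.TOR.WRO
import Pool.Agent.TOR.KRB
import Pool.Agent.TOR.VAN
import Pool.Agent.TOR.FOC

/-!
MODULE ISP (the tori of two bit lists of the same length are isospectral). `dl P l = dl P l'` (`UU_congr`), so `F, X` are the same, `tm_prof` and `mono_trace`
(`X = X'`) give equal traces for all `lam kap`; `one_iff`; `mode_finrank`: equal dimensions of all mode spaces. For given `lam`: the finite set
`T = Finset.Icc (-K) K` with `K` so large that `lam (prof)² < (2πk)²` for `|k| > K` for both profiles (`prof` is bounded: continuous periodic; or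
`expNegInvGlue ≤ 1` gives `prof ≤ 1 + eta 3^len`; `lam a² ≤ |lam| C² < (2πk)²` if `k² ≥ |k| > |lam| C²`). `mode_eq_bot`, `eig_finrank`.
-/

set_option autoImplicit false

namespace Pool.Agent.TOR

private theorem ISP_bdd {P : ℝ} (hP : 0 < P) (l : List Bool) {eta : ℝ} (he : 0 ≤ eta) :
    ∃ C : ℝ, 0 ≤ C ∧ ∀ s, prof P l eta s ^ 2 ≤ C := by
  have hper : Function.Periodic (prof P l eta) P := prof_add hP l eta
  obtain ⟨C, hC⟩ := isBounded_iff_forall_norm_le.1
    (hper.isBounded_of_continuous hP.ne' (prof_contDiff P l eta).continuous)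
  refine ⟨C ^ 2, sq_nonneg _, fun s => ?_⟩
  have h1 := hC _ (Set.mem_range_self s)
  have h2 := one_le_prof P l he s
  rw [Real.norm_eq_abs, abs_of_nonneg (by linarith)] at h1
  exact pow_le_pow_left₀ (by linarith) h1 2

private theorem ISP_bot {P : ℝ} (hP : 0 < P) (l : List Bool) {eta : ℝ} (he : 0 ≤ eta) (lam : ℝ) :
    ∃ N : ℕ, ∀ k : ℤ, (N : ℤ) < |k| → mode P (prof P l eta) lam (2 * Real.pi * k) = ⊥ := by
  obtain ⟨C, hC0, hC⟩ := ISP_bdd hP l he
  obtain ⟨N, hN⟩ := exists_nat_gt (|lam| * C)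
  refine ⟨N, fun k hk => ?_⟩
  refine mode_eq_bot hP (prof_contDiff P l eta) (fun s => by linarith [one_le_prof P l he s])
    (prof_add hP l eta) fun s => ?_
  have h1 : (N : ℝ) < |(k : ℝ)| := by exact_mod_cast hk
  have h2 : lam * prof P l eta s ^ 2 ≤ |lam| * C := by
    calc lam * prof P l eta s ^ 2 ≤ |lam| * prof P l eta s ^ 2 := by
          gcongr
          exact le_abs_self lam
      _ ≤ |lam| * C := by
          gcongr
          exact hC s
  have h3 : (1 : ℝ) ≤ |(k : ℝ)| := by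
    have h4 : (0 : ℤ) < |k| := lt_of_le_of_lt (Int.natCast_nonneg N) hk
    have h5 : (1 : ℤ) ≤ |k| := h4
    exact_mod_cast h5
  have hpi := Real.pi_gt_three
  calc lam * prof P l eta s ^ 2 ≤ |lam| * C := h2
    _ < N := hN
    _ < |(k : ℝ)| := h1
    _ ≤ |(k : ℝ)| * |(k : ℝ)| := by nlinarith
    _ ≤ (2 * Real.pi * k) ^ 2 := by
        rw [← sq, sq_abs, mul_pow]
        have h6 : 1 ≤ (2 * Real.pi) ^ 2 := by nlinarith
        have h7 := sq_nonneg (k : ℝ)
        nlinarith

private theorem ISP_trace {P : ℝ} (hP : 0 < P) {l l' : List Bool} (h : l.length = l'.length)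
    {eta : ℝ} (he : 0 ≤ eta) (lam kap : ℝ) :
    (tm (prof P l eta) lam kap 0 P).trace = (tm (prof P l' eta) lam kap 0 P).trace := by
  have hdl : dl P l = dl P l' := by
    unfold dl
    rw [UU_congr h]
  rw [tm_prof hP l he, tm_prof hP l' he, hdl]
  refine mono_trace ?_ ?_ ?_ rfl rfl l l' h 0
  · exact tm_det continuous_const (fun _ => one_pos) _ _ _ _
  all_goals
    refine tm_det ?_ (fun s => ?_) _ _ _ _
    · exact continuous_const.add (continuous_const.mul (bump_contDiff P _).continuous)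
    · have := mul_nonneg he (bump_nonneg P (dl P l') s)
      linarith

theorem isospectral_prof {P : ℝ} (hP : 0 < P) {l l' : List Bool} (h : l.length = l'.length)
    {eta : ℝ} (he : 0 ≤ eta) : Isospectral P (prof P l eta) (prof P l' eta) := by
  classical
  have hca := prof_contDiff P l eta
  have hcb := prof_contDiff P l' eta
  have hpa : ∀ s, 0 < prof P l eta s := fun s => by linarith [one_le_prof P l he s]
  have hpb : ∀ s, 0 < prof P l' eta s := fun s => by linarith [one_le_prof P l' he s]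
  have hra := prof_add hP l eta
  have hrb := prof_add hP l' eta
  intro lam
  obtain ⟨N1, hN1⟩ := ISP_bot hP l he lam
  obtain ⟨N2, hN2⟩ := ISP_bot hP l' he lam
  have hT : ∀ k : ℤ, k ∉ Finset.Icc (-((N1 + N2 : ℕ) : ℤ)) ((N1 + N2 : ℕ) : ℤ) →
      (N1 : ℤ) < |k| ∧ (N2 : ℤ) < |k| := by
    intro k hk
    rw [Finset.mem_Icc, ← abs_le, not_le] at hk
    push_cast at hk
    constructor <;> omega
  obtain ⟨f1, g1⟩ := eig_finrank (P := P) (a := prof P l eta) (lam := lam)
    (Finset.Icc (-((N1 + N2 : ℕ) : ℤ)) ((N1 + N2 : ℕ) : ℤ)) (fun k hk => hN1 k (hT k hk).1)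
    (fun k => mode_finite hca hpa hra _ _)
  obtain ⟨f2, g2⟩ := eig_finrank (P := P) (a := prof P l' eta) (lam := lam)
    (Finset.Icc (-((N1 + N2 : ℕ) : ℤ)) ((N1 + N2 : ℕ) : ℤ)) (fun k hk => hN2 k (hT k hk).2)
    (fun k => mode_finite hcb hpb hrb _ _)
  refine ⟨f1, f2, ?_⟩
  rw [g1, g2]
  refine Finset.sum_congr rfl fun k _ => ?_
  rw [mode_finrank hca hpa hra, mode_finrank hcb hpb hrb]
  have ht := fun mu => ISP_trace hP h he mu (2 * Real.pi * k)
  have hone := one_iff hca.continuous hpa hcb.continuous hpb hP (2 * Real.pi * k) ht lam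
  rw [ht lam]
  simp only [hone]

end Pool.Agent.TOR
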