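import Pool.Agent.TOR.TMA

/-!
MODULE KRA (the mode space in terms of real solutions; imports TMA, a stub is enough).
`a` smooth, positive, `P`-periodic.

* `mode_sol`: let `v` be in `mode P a lam kap` and `w s = a s * deriv v s` (complex valued). Then `v' = w / a` and
  `w' = a' v' + a v'' = a (v'' + (a'/a) v') = a (a⁻² κ² v - λ v) = (κ²/a - λ a) v`. Real and imaginary parts (compose with `Complex.reCLM`,
  `Complex.imCLM`; `HasDerivAt.comp`-type lemmas `Complex.reCLM.hasFDerivAt.comp_hasDerivAt`): `Sol` for `(re v, re w)` and `(im v, im w)`.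
* `sol_contDiff`: a real solution is smooth: `ContDiff ℝ n v ∧ ContDiff ℝ n w` for every `n : ℕ` by induction (`contDiff_succ_iff_deriv` /
  `contDiff_infty_iff_deriv`; `deriv v = w/a`, `deriv w = (κ²/a - λ a) v`).
* `sol_periodic`: a real solution with `(v P, w P) = (v 0, w 0)` is `P`-periodic: `(v(·+P), w(·+P))` is a solution (`a` periodic), `sol_eq`.
* `mode_of_sol`: if `(v1,w1)`, `(v2,w2)` are real periodic solutions then `v = v1 + i v2` is in `mode`: `deriv v = (w1 + i w2)/a`, and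
  `deriv (deriv v) = (w' a - w a')/a²`.
-/

set_option autoImplicit false

namespace Pool.Agent.TOR

open Set
open scoped ContDiff

variable {a : ℝ → ℝ} {P : ℝ}

private theorem kra_lin (ha : ContDiff ℝ ∞ a) (hpos : ∀ s, 0 < a s) {lam kap : ℝ} {v : ℝ → ℂ}
    (h : v ∈ mode P a lam kap) (L : ℂ →L[ℝ] ℝ) :
    Sol a lam kap (fun s => L (v s)) (fun s => a s * L (deriv v s)) := by
  obtain ⟨hv, _, he⟩ := h
  have hv1 : ∀ s, HasDerivAt v (deriv v s) s := fun s =>
    ((hv.differentiable (by simp)) s).hasDerivAt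
  have hv2 : ∀ s, HasDerivAt (deriv v) (deriv (deriv v) s) s := fun s =>
    (((contDiff_infty_iff_deriv.1 hv).2.differentiable (by simp)) s).hasDerivAt
  have ha1 : ∀ s, HasDerivAt a (deriv a s) s := fun s =>
    ((ha.differentiable (by simp)) s).hasDerivAt
  refine ⟨fun s => ?_, fun s => ?_⟩
  · have h1 : HasDerivAt (fun s => L (v s)) (L (deriv v s)) s :=
      L.hasFDerivAt.comp_hasDerivAt s (hv1 s)
    have h2 : a s * L (deriv v s) / a s = L (deriv v s) := by
      have := (hpos s).ne'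
      field_simp
    simp only [h2]
    exact h1
  · have h1 : HasDerivAt (fun s => L (deriv v s)) (L (deriv (deriv v) s)) s :=
      L.hasFDerivAt.comp_hasDerivAt s (hv2 s)
    have h2 := (ha1 s).mul h1
    have h3 := congrArg L (he s)
    rw [neg_mul, ← Complex.real_smul, ← Complex.real_smul, ← Complex.real_smul, map_sub, map_add,
      map_neg, map_smul, map_smul, map_smul, smul_eq_mul, smul_eq_mul, smul_eq_mul] at h3
    have h4 : (kap ^ 2 / a s - lam * a s) * L (v s) =
        deriv a s * L (deriv v s) + a s * L (deriv (deriv v) s) := by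
      have h5 : L (deriv (deriv v) s) = -(lam * L (v s)) + (a s)⁻¹ ^ 2 * kap ^ 2 * L (v s) -
        deriv a s / a s * L (deriv v s) := by linarith
      rw [h5]
      have := (hpos s).ne'
      field_simp
      ring
    rw [h4]
    exact h2

private theorem kra_cplx {f1 f2 : ℝ → ℝ} {d1 d2 s : ℝ} (h1 : HasDerivAt f1 d1 s)
    (h2 : HasDerivAt f2 d2 s) :
    HasDerivAt (fun s => (f1 s : ℂ) + Complex.I * (f2 s : ℂ)) ((d1 : ℂ) + Complex.I * (d2 : ℂ)) s :=
  h1.ofReal_comp.add (h2.ofReal_comp.const_mul Complex.I)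

theorem mode_sol (ha : ContDiff ℝ ∞ a) (hpos : ∀ s, 0 < a s) {lam kap : ℝ} {v : ℝ → ℂ}
    (h : v ∈ mode P a lam kap) :
    Sol a lam kap (fun s => (v s).re) (fun s => a s * (deriv v s).re) ∧
    Sol a lam kap (fun s => (v s).im) (fun s => a s * (deriv v s).im) := by
  exact ⟨kra_lin ha hpos h Complex.reCLM, kra_lin ha hpos h Complex.imCLM⟩

theorem sol_contDiff (ha : ContDiff ℝ ∞ a) (hpos : ∀ s, 0 < a s) {lam kap : ℝ} {v w : ℝ → ℝ}
    (h : Sol a lam kap v w) : ContDiff ℝ ∞ v ∧ ContDiff ℝ ∞ w := by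
  have hdv : deriv v = fun s => w s / a s := funext fun s => (h.1 s).deriv
  have hdw : deriv w = fun s => (kap ^ 2 / a s - lam * a s) * v s := funext fun s => (h.2 s).deriv
  have hv : Differentiable ℝ v := fun s => (h.1 s).differentiableAt
  have hw : Differentiable ℝ w := fun s => (h.2 s).differentiableAt
  have key : ∀ n : ℕ, ContDiff ℝ n v ∧ ContDiff ℝ n w := by
    intro n
    induction n with
    | zero => exact ⟨contDiff_zero.2 hv.continuous, contDiff_zero.2 hw.continuous⟩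
    | succ n ih =>
      have han : ContDiff ℝ n a := ha.of_le (by exact_mod_cast le_top)
      refine ⟨?_, ?_⟩
      · rw [Nat.cast_succ, contDiff_succ_iff_deriv, hdv]
        exact ⟨hv, by simp, ih.2.div han (fun s => (hpos s).ne')⟩
      · rw [Nat.cast_succ, contDiff_succ_iff_deriv, hdw]
        exact ⟨hw, by simp, ((contDiff_const.div han (fun s => (hpos s).ne')).sub
          (contDiff_const.mul han)).mul ih.1⟩
  exact ⟨contDiff_infty.2 fun n => (key n).1, contDiff_infty.2 fun n => (key n).2⟩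

theorem sol_periodic (ha : Continuous a) (hpos : ∀ s, 0 < a s) (hper : ∀ s, a (s + P) = a s)
    {lam kap : ℝ} {v w : ℝ → ℝ} (h : Sol a lam kap v w) (hv : v P = v 0) (hw : w P = w 0) :
    ∀ s, v (s + P) = v s ∧ w (s + P) = w s := by
  have h' : Sol a lam kap (fun s => v (s + P)) (fun s => w (s + P)) := by
    refine ⟨fun s => ?_, fun s => ?_⟩
    · have h1 := (h.1 (s + P)).comp_add_const s P
      rw [hper] at h1
      exact h1
    · have h1 := (h.2 (s + P)).comp_add_const s P
      rw [hper] at h1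
      exact h1
  have h2 := sol_eq ha hpos (s0 := 0) h' h (by simpa using hv) (by simpa using hw)
  exact fun s => ⟨congrFun h2.1 s, congrFun h2.2 s⟩

theorem mode_of_sol (ha : ContDiff ℝ ∞ a) (hpos : ∀ s, 0 < a s) (hper : ∀ s, a (s + P) = a s)
    {lam kap : ℝ} {v1 w1 v2 w2 : ℝ → ℝ} (h1 : Sol a lam kap v1 w1) (h2 : Sol a lam kap v2 w2)
    (e1 : v1 P = v1 0 ∧ w1 P = w1 0) (e2 : v2 P = v2 0 ∧ w2 P = w2 0) :
    (fun s => (v1 s : ℂ) + Complex.I * (v2 s : ℂ)) ∈ mode P a lam kap ∧
      ∀ s, deriv (fun s => (v1 s : ℂ) + Complex.I * (v2 s : ℂ)) s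
        = ((w1 s / a s : ℝ) : ℂ) + Complex.I * ((w2 s / a s : ℝ) : ℂ) := by
  have ha1 : ∀ s, HasDerivAt a (deriv a s) s := fun s =>
    ((ha.differentiable (by simp)) s).hasDerivAt
  have hd1 : ∀ s, HasDerivAt (fun s => (v1 s : ℂ) + Complex.I * (v2 s : ℂ))
      (((w1 s / a s : ℝ) : ℂ) + Complex.I * ((w2 s / a s : ℝ) : ℂ)) s :=
    fun s => kra_cplx (h1.1 s) (h2.1 s)
  have hd : deriv (fun s => (v1 s : ℂ) + Complex.I * (v2 s : ℂ)) = fun s =>
      ((w1 s / a s : ℝ) : ℂ) + Complex.I * ((w2 s / a s : ℝ) : ℂ) :=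
    funext fun s => (hd1 s).deriv
  have hq : ∀ {v w : ℝ → ℝ}, Sol a lam kap v w → ∀ s, HasDerivAt (fun s => w s / a s)
      (((kap ^ 2 / a s - lam * a s) * v s * a s - w s * deriv a s) / a s ^ 2) s :=
    fun h s => (h.2 s).div (ha1 s) (hpos s).ne'
  have hd2 : ∀ s, deriv (fun s => ((w1 s / a s : ℝ) : ℂ) + Complex.I * ((w2 s / a s : ℝ) : ℂ)) s =
      (((((kap ^ 2 / a s - lam * a s) * v1 s * a s - w1 s * deriv a s) / a s ^ 2 : ℝ)) : ℂ) +
      Complex.I * (((((kap ^ 2 / a s - lam * a s) * v2 s * a s - w2 s * deriv a s) / a s ^ 2 : ℝ))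
        : ℂ) := fun s => (kra_cplx (hq h1 s) (hq h2 s)).deriv
  have hp1 := sol_periodic ha.continuous hpos hper h1 e1.1 e1.2
  have hp2 := sol_periodic ha.continuous hpos hper h2 e2.1 e2.2
  refine ⟨⟨?_, ?_, ?_⟩, fun s => congrFun hd s⟩
  · have c1 := (sol_contDiff ha hpos h1).1
    have c2 := (sol_contDiff ha hpos h2).1
    exact (Complex.ofRealCLM.contDiff.comp c1).add
      (contDiff_const.mul (Complex.ofRealCLM.contDiff.comp c2))
  · intro s
    simp only [(hp1 s).1, (hp2 s).1]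
  · intro s
    have hne : (a s : ℂ) ≠ 0 := by exact_mod_cast (hpos s).ne'
    rw [hd, hd2]
    push_cast
    field_simp
    ring

end Pool.Agent.TOR
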