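import Pool.Agent.TOR.ODE

/-!
MODULE TMA (the transfer matrix; imports ODE, a stub is enough). Everywhere `a` is continuous and positive.

* `exists_sol`: `exists_lin` with `p = 1/a`, `q = κ²/a - λ a` (`w s / a s = (1/a s) * w s`).
* `sol_eq`: two solutions with the same data at one point are equal: `lin_unique`, `lin_unique_left` on `[s0, r]`, `[r, s0]`.
* `wronskian`: `v w' - w v'` is constant for two solutions (derivative 0, `is_const_of_deriv_eq_zero`).
* `isTm_tm`: `M = !![v1 t, v2 t; w1 t, w2 t]` with the solutions with data `(1,0)`, `(0,1)` at `s`; for a solution `(v,w)`,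
  `v = v s • v1 + w s • v2` by uniqueness (linear combinations of solutions are solutions). Then `Exists.choose_spec`.
* `tm_eq`: from the solutions with data `(1,0)` and `(0,1)`.
* `tm_self`, `tm_comp`: `tm_eq` (the product of the matrices: `Matrix.mul_apply`, `Fin.sum_univ_two`).
* `tm_det`: wronskian of the solutions with data `(1,0)`, `(0,1)` (`Matrix.det_fin_two`).
* `tm_shift`: if `b r = a (r + c)` and `(v,w)` solves for `a` then `(v(·+c), w(·+c))` solves for `b`; and conversely; `tm_eq`.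
* `tm_local`: `b` equal to `a` on `[s,t]`: `lin_unique` shows that a solution for `b` agrees on `[s,t]` with the solution for `a` with the same data at `s`.
-/

set_option autoImplicit false

namespace Pool.Agent.TOR

open Set

variable {a b : ℝ → ℝ}

private theorem TMA_p (ha : Continuous a) (hpos : ∀ s, 0 < a s) : Continuous (fun s => 1 / a s) :=
  continuous_const.div ha (fun s => (hpos s).ne')

private theorem TMA_q (ha : Continuous a) (hpos : ∀ s, 0 < a s) (lam kap : ℝ) :
    Continuous (fun s => kap ^ 2 / a s - lam * a s) :=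
  (continuous_const.div ha (fun s => (hpos s).ne')).sub (continuous_const.mul ha)

private theorem TMA_v {lam kap : ℝ} {v w : ℝ → ℝ} (h : Sol a lam kap v w) :
    ∀ r, HasDerivAt v ((fun s => 1 / a s) r * w r) r := by
  intro r
  have h1 := h.1 r
  have h2 : (fun s => 1 / a s) r * w r = w r / a r := by
    show 1 / a r * w r = w r / a r
    ring
  rw [h2]
  exact h1

private theorem TMA_w {lam kap : ℝ} {v w : ℝ → ℝ} (h : Sol a lam kap v w) :
    ∀ r, HasDerivAt w ((fun s => kap ^ 2 / a s - lam * a s) r * v r) r := by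
  intro r
  exact h.2 r


theorem exists_sol (ha : Continuous a) (hpos : ∀ s, 0 < a s) (lam kap s0 x y : ℝ) :
    ∃ v w : ℝ → ℝ, Sol a lam kap v w ∧ v s0 = x ∧ w s0 = y := by
  obtain ⟨v, w, h1, h2, h3, h4⟩ := exists_lin (TMA_p ha hpos) (TMA_q ha hpos lam kap) s0 x y
  refine ⟨v, w, ⟨fun s => ?_, fun s => ?_⟩, h3, h4⟩
  · have h5 := h1 s
    have h6 : 1 / a s * w s = w s / a s := by ring
    rw [← h6]
    exact h5
  · exact h2 s

theorem sol_eq (ha : Continuous a) (hpos : ∀ s, 0 < a s) {lam kap s0 : ℝ}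
    {v w v' w' : ℝ → ℝ} (h : Sol a lam kap v w) (h' : Sol a lam kap v' w')
    (hv : v s0 = v' s0) (hw : w s0 = w' s0) : v = v' ∧ w = w' := by
  have key : ∀ r, v r = v' r ∧ w r = w' r := by
    intro r
    rcases le_total s0 r with hr | hr
    · exact lin_unique (TMA_p ha hpos).continuousOn (TMA_q ha hpos lam kap).continuousOn
        (fun _ _ => rfl) (fun _ _ => rfl) (TMA_v h) (TMA_w h) (TMA_v h') (TMA_w h') hv hw r
        ⟨hr, le_rfl⟩
    · exact lin_unique_left (TMA_p ha hpos).continuousOn (TMA_q ha hpos lam kap).continuousOn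
        (fun _ _ => rfl) (fun _ _ => rfl) (TMA_v h) (TMA_w h) (TMA_v h') (TMA_w h') hv hw r
        ⟨le_rfl, hr⟩
  exact ⟨funext fun r => (key r).1, funext fun r => (key r).2⟩

theorem Sol.comb {lam kap : ℝ} {v w v' w' : ℝ → ℝ} (h : Sol a lam kap v w)
    (h' : Sol a lam kap v' w') (x y : ℝ) :
    Sol a lam kap (fun s => x * v s + y * v' s) (fun s => x * w s + y * w' s) := by
  refine ⟨fun s => ?_, fun s => ?_⟩
  · refine (((h.1 s).const_mul x).fun_add ((h'.1 s).const_mul y)).congr_deriv ?_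
    ring
  · refine (((h.2 s).const_mul x).fun_add ((h'.2 s).const_mul y)).congr_deriv ?_
    ring

theorem wronskian {lam kap : ℝ} {v w v' w' : ℝ → ℝ} (h : Sol a lam kap v w)
    (h' : Sol a lam kap v' w') (s t : ℝ) : v s * w' s - w s * v' s = v t * w' t - w t * v' t := by
  have hd : ∀ r, HasDerivAt (fun s => v s * w' s - w s * v' s) 0 r := by
    intro r
    refine (((h.1 r).fun_mul (h'.2 r)).fun_sub ((h.2 r).fun_mul (h'.1 r))).congr_deriv ?_
    ring
  exact is_const_of_deriv_eq_zero (fun r => (hd r).differentiableAt) (fun r => (hd r).deriv) s t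

theorem isTm_tm (ha : Continuous a) (hpos : ∀ s, 0 < a s) (lam kap s t : ℝ) :
    IsTm a lam kap s t (tm a lam kap s t) := by
  have hex : ∃ M, IsTm a lam kap s t M := by
    obtain ⟨v1, w1, h1, e1, f1⟩ := exists_sol ha hpos lam kap s 1 0
    obtain ⟨v2, w2, h2, e2, f2⟩ := exists_sol ha hpos lam kap s 0 1
    refine ⟨!![v1 t, v2 t; w1 t, w2 t], ?_⟩
    intro v w h
    obtain ⟨g1, g2⟩ := sol_eq ha hpos h (h1.comb h2 (v s) (w s)) (s0 := s)
      (by simp only [e1, e2]; ring) (by simp only [f1, f2]; ring)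
    have g3 := congrFun g1 t
    have g4 := congrFun g2 t
    simp only [Matrix.of_apply, Matrix.cons_val', Matrix.cons_val_zero, Matrix.cons_val_one,
      Matrix.cons_val_fin_one]
    constructor
    · rw [g3]; ring
    · rw [g4]; ring
  rw [tm, dif_pos hex]
  exact hex.choose_spec

theorem tm_eq (ha : Continuous a) (hpos : ∀ s, 0 < a s) {lam kap s t : ℝ}
    {M : Matrix (Fin 2) (Fin 2) ℝ} (h : IsTm a lam kap s t M) : tm a lam kap s t = M := by
  obtain ⟨v1, w1, h1, e1, f1⟩ := exists_sol ha hpos lam kap s 1 0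
  obtain ⟨v2, w2, h2, e2, f2⟩ := exists_sol ha hpos lam kap s 0 1
  have a1 := isTm_tm ha hpos lam kap s t v1 w1 h1
  have a2 := isTm_tm ha hpos lam kap s t v2 w2 h2
  have b1 := h v1 w1 h1
  have b2 := h v2 w2 h2
  rw [e1, f1, mul_one, mul_zero, mul_one, mul_zero, add_zero, add_zero] at a1 b1
  rw [e2, f2, mul_one, mul_zero, mul_one, mul_zero, zero_add, zero_add] at a2 b2
  ext i j
  fin_cases i <;> fin_cases j
  · show tm a lam kap s t 0 0 = M 0 0
    rw [← a1.1, ← b1.1]
  · show tm a lam kap s t 0 1 = M 0 1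
    rw [← a2.1, ← b2.1]
  · show tm a lam kap s t 1 0 = M 1 0
    rw [← a1.2, ← b1.2]
  · show tm a lam kap s t 1 1 = M 1 1
    rw [← a2.2, ← b2.2]

theorem tm_self (ha : Continuous a) (hpos : ∀ s, 0 < a s) (lam kap s : ℝ) :
    tm a lam kap s s = 1 := by
  apply tm_eq ha hpos
  intro v w _
  simp

theorem tm_comp (ha : Continuous a) (hpos : ∀ s, 0 < a s) (lam kap s t r : ℝ) :
    tm a lam kap s r = tm a lam kap t r * tm a lam kap s t := by
  apply tm_eq ha hpos
  intro v w h
  obtain ⟨a1, a2⟩ := isTm_tm ha hpos lam kap s t v w h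
  obtain ⟨b1, b2⟩ := isTm_tm ha hpos lam kap t r v w h
  rw [Matrix.mul_apply, Matrix.mul_apply, Matrix.mul_apply, Matrix.mul_apply, Fin.sum_univ_two,
    Fin.sum_univ_two, Fin.sum_univ_two, Fin.sum_univ_two]
  constructor
  · rw [b1, a1, a2]; ring
  · rw [b2, a1, a2]; ring

theorem tm_det (ha : Continuous a) (hpos : ∀ s, 0 < a s) (lam kap s t : ℝ) :
    (tm a lam kap s t).det = 1 := by
  obtain ⟨v1, w1, h1, e1, f1⟩ := exists_sol ha hpos lam kap s 1 0
  obtain ⟨v2, w2, h2, e2, f2⟩ := exists_sol ha hpos lam kap s 0 1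
  have a1 := isTm_tm ha hpos lam kap s t v1 w1 h1
  have a2 := isTm_tm ha hpos lam kap s t v2 w2 h2
  have hw := wronskian h1 h2 s t
  rw [e1, f1, mul_one, mul_zero, mul_one, mul_zero, add_zero, add_zero] at a1
  rw [e2, f2, mul_one, mul_zero, mul_one, mul_zero, zero_add, zero_add] at a2
  rw [e1, e2, f1, f2, a1.1, a1.2, a2.1, a2.2] at hw
  rw [Matrix.det_fin_two]
  linarith

theorem tm_shift (ha : Continuous a) (hpos : ∀ s, 0 < a s) {c : ℝ}
    (hb : ∀ r, b r = a (r + c)) (lam kap s t : ℝ) :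
    tm b lam kap s t = tm a lam kap (s + c) (t + c) := by
  have hba : b = fun r => a (r + c) := funext hb
  have hbc : Continuous b := by
    rw [hba]
    exact ha.comp (continuous_id.add continuous_const)
  have hbp : ∀ s, 0 < b s := by
    intro s
    rw [hb]
    exact hpos _
  apply tm_eq hbc hbp
  intro v w h
  have hsol : Sol a lam kap (fun r => v (r - c)) (fun r => w (r - c)) := by
    refine ⟨fun r => ?_, fun r => ?_⟩
    · have h1 := (h.1 (r - c)).comp_sub_const r c
      rw [hb, sub_add_cancel] at h1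
      exact h1
    · have h1 := (h.2 (r - c)).comp_sub_const r c
      rw [hb, sub_add_cancel] at h1
      exact h1
  have h2 := isTm_tm ha hpos lam kap (s + c) (t + c) _ _ hsol
  simp only [add_sub_cancel_right] at h2
  exact h2

theorem tm_local (ha : Continuous a) (hpos : ∀ s, 0 < a s) (hb : Continuous b)
    (hbpos : ∀ s, 0 < b s) {s t : ℝ} (hst : s ≤ t) (hab : ∀ r ∈ Icc s t, a r = b r)
    (lam kap : ℝ) : tm a lam kap s t = tm b lam kap s t := by
  apply tm_eq ha hpos
  intro v w h
  obtain ⟨v', w', h', e1, e2⟩ := exists_sol hb hbpos lam kap s (v s) (w s)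
  obtain ⟨g1, g2⟩ := lin_unique (s := s) (t := t) (TMA_p ha hpos).continuousOn
    (TMA_q ha hpos lam kap).continuousOn
    (p' := fun s => 1 / b s) (q' := fun s => kap ^ 2 / b s - lam * b s)
    (fun r hr => by simp only [hab r hr]) (fun r hr => by simp only [hab r hr])
    (TMA_v h) (TMA_w h) (TMA_v h') (TMA_w h') e1.symm e2.symm t ⟨hst, le_rfl⟩
  obtain ⟨g3, g4⟩ := isTm_tm hb hbpos lam kap s t v' w' h'
  rw [e1, e2] at g3 g4
  rw [g1, g2]
  exact ⟨g3, g4⟩

end Pool.Agent.TOR
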