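import Pool.Agent.TOR.Defs

/-!
MODULE WRD (the product over the cells is the nested word; needs only Defs).

Induction on `l` generalizing `i X`. `l = []`: `prodM f 1 = f 0 * 1 = F^(2i) X`. Step `b :: bs`: `prodM f (3 n) = prodM (fun u => f (3u+2)
* f (3u+1) * f (3u)) n` (`prodM_three`, induction on `n`), with `n = 3^bs.length` and `f t = F^(rr (b::bs) i (t+1)) * X`:
`rr (b::bs) i (3u+1) = 2i + b`, `rr (b::bs) i (3u+2) = 2i+1-b`, `rr (b::bs) i (3u+3) = rr bs (i+1) (u+1)`
(`(3u+1) % 3 = 1` by omega, `(3u+3)/3 = u+1`). So the new factors are `F^(rr bs (i+1) (u+1)) * (X F^(2i+1-b) X F^(2i+b) X)`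
and the induction hypothesis applies.
-/

set_option autoImplicit false

namespace Pool.Agent.TOR

theorem prodM_three (f : ℕ → Matrix (Fin 2) (Fin 2) ℝ) (n : ℕ) :
    prodM f (3 * n) = prodM (fun u => f (3 * u + 2) * f (3 * u + 1) * f (3 * u)) n := by
  induction n with
  | zero => rfl
  | succ n ih =>
    have e : 3 * (n + 1) = 3 * n + 1 + 1 + 1 := by ring
    rw [e, prodM, prodM, prodM, ih, prodM]
    simp only [Matrix.mul_assoc]

theorem prod_mono (F : Matrix (Fin 2) (Fin 2) ℝ) (l : List Bool) (i : ℕ)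
    (X : Matrix (Fin 2) (Fin 2) ℝ) :
    prodM (fun t => F ^ rr l i ((t : ℤ) + 1) * X) (3 ^ l.length) = mono F l i X := by
  induction l generalizing i X with
  | nil =>
    simp [prodM, rr, mono]
  | cons b bs ih =>
    have e : 3 ^ (b :: bs).length = 3 * 3 ^ bs.length := by
      rw [List.length_cons, pow_succ]; ring
    rw [e, prodM_three, mono, ← ih]
    congr 1
    funext u
    have c1 : rr (b :: bs) i (((3 * u : ℕ) : ℤ) + 1) = 2 * i + b.toNat := by
      rw [rr, if_pos (by omega)]
    have c2 : rr (b :: bs) i (((3 * u + 1 : ℕ) : ℤ) + 1) = 2 * i + 1 - b.toNat := by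
      rw [rr, if_neg (by omega), if_pos (by omega)]
    have c3 : rr (b :: bs) i (((3 * u + 2 : ℕ) : ℤ) + 1) = rr bs (i + 1) ((u : ℤ) + 1) := by
      rw [rr, if_neg (by omega), if_neg (by omega)]
      congr 1
      omega
    rw [c1, c2, c3]
    simp only [Matrix.mul_assoc]

end Pool.Agent.TOR
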