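import Pool.Agent.TOR.CFG
import Pool.Agent.TOR.TMA
import Pool.Agent.TOR.WRD

/-!
MODULE MON (the period matrix is a word; imports CFG, TMA, WRD, UUC, stubs are enough). `a = prof P l eta`, `δ = dl P l`, everything continuous and `≥ 1`.

* `tm_flat`: `tm (fun _ => 1) lam kap (δ x) (δ (x + r)) = F^r`, `F = tm (fun _ => 1) lam kap 0 δ`, `r : ℕ`: induction on `r` with `tm_comp`, `tm_shift`
  (translation by `δ(x + r)`), `tm_self`.
* `tm_cell`: for `j < 3^len`: on `[δ pos j, δ(pos j + 1)]` (a cell in `SS l`), `a s = 1 + eta bump P δ (s - δ(pos j + 1/2))` (`bsum_cell`), so by `tm_local` and `tm_shift`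
  with `c = -δ(pos j+1/2)`: `tm a (δ pos j) (δ(pos j+1)) = X`, `X = tm (fun s => 1 + eta * bump P δ s) lam kap (-(δ/2)) (δ/2)`.
* `tm_gap`: for `j < 3^len`: on `[δ(pos j + 1), δ pos (j+1)]`, `a = 1`: a point `s` there lies in the closed cell `n` for some integer `pos j + 1 ≤ n < pos (j+1)` (if
  the gap is a single point, `rr = 0`, then it is `tm_self`; else `n = ⌊s/δ⌋`, or `n = pos(j+1) - 1` at the right end), and `n ∉ SS l`: otherwise `n = pos i + m U` with
  `0 ≤ n < U` (`pos (j+1) ≤ pos (3^len) = U`), so `m = 0`, and `pos j < pos i < pos (j+1)` contradicts `pos_strictMono`. `bsum_gap`, `tm_local`, `tm_flat` with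
  `pos (j+1) = pos j + 1 + rr l 0 (j+1)`: `tm a (δ(pos j+1)) (δ pos (j+1)) = F^(rr l 0 (j+1))`.
* Induction on `n ≤ 3^len`: `tm a 0 (δ pos n) = prodM (fun t => F^(rr l 0 (t+1)) * X) n` (`tm_comp` twice); `n = 3^len`: `δ UU l = P` (`dl_mul`), `prod_mono`.
-/

set_option autoImplicit false

namespace Pool.Agent.TOR

open Set

private theorem MON_one_pos (s : ℝ) : (0 : ℝ) < (fun _ : ℝ => (1 : ℝ)) s := one_pos

theorem tm_flat (lam kap δ x : ℝ) (r : ℕ) :
    tm (fun _ => 1) lam kap (δ * x) (δ * (x + r)) = (tm (fun _ => 1) lam kap 0 δ) ^ r := by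
  induction r with
  | zero =>
    rw [Nat.cast_zero, add_zero, pow_zero]
    exact tm_self continuous_const MON_one_pos lam kap (δ * x)
  | succ r ih =>
    rw [tm_comp continuous_const MON_one_pos lam kap (δ * x) (δ * (x + r)), ih, pow_succ']
    congr 1
    have h := tm_shift (a := fun _ => (1 : ℝ)) (b := fun _ => (1 : ℝ)) continuous_const
      MON_one_pos (c := δ * (x + r)) (fun _ => rfl) lam kap 0 δ
    rw [h]
    congr 1
    · ring
    · push_cast; ring

private theorem MON_prof_cont (P : ℝ) (l : List Bool) (eta : ℝ) : Continuous (prof P l eta) :=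
  (prof_contDiff P l eta).continuous

private theorem MON_prof_pos (P : ℝ) (l : List Bool) {eta : ℝ} (he : 0 ≤ eta) (s : ℝ) :
    0 < prof P l eta s := lt_of_lt_of_le one_pos (one_le_prof P l he s)

theorem tm_cell {P : ℝ} (hP : 0 < P) (l : List Bool) {eta : ℝ} (he : 0 ≤ eta) (lam kap : ℝ) {j : ℕ}
    (hj : j < 3 ^ l.length) :
    tm (prof P l eta) lam kap (dl P l * pos l j) (dl P l * ((pos l j : ℝ) + 1))
      = tm (fun s => 1 + eta * bump P (dl P l) s) lam kap (-(dl P l / 2)) (dl P l / 2) := by
  have hδ := dl_pos hP l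
  have hbc : Continuous (fun s => 1 + eta * bump P (dl P l) s) :=
    continuous_const.add (continuous_const.mul (bump_contDiff P (dl P l)).continuous)
  have hbp : ∀ s, 0 < (fun s => 1 + eta * bump P (dl P l) s) s := fun s => by
    have := mul_nonneg he (bump_nonneg P (dl P l) s)
    show 0 < 1 + eta * bump P (dl P l) s
    linarith
  have hcc : Continuous (fun s => 1 + eta * bump P (dl P l) (s - dl P l * ((pos l j : ℝ) + 1 / 2))) :=
    hbc.comp (continuous_id.sub continuous_const)
  have hcp : ∀ s, 0 < (fun s => 1 + eta * bump P (dl P l) (s - dl P l * ((pos l j : ℝ) + 1 / 2))) s :=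
    fun s => hbp (s - dl P l * ((pos l j : ℝ) + 1 / 2))
  have h1 := tm_local (MON_prof_cont P l eta) (MON_prof_pos P l he) hcc hcp
    (s := dl P l * pos l j) (t := dl P l * ((pos l j : ℝ) + 1)) (by nlinarith)
    (fun r hr => by
      have hS : ((pos l j : ℕ) : ℤ) ∈ SS l := ⟨j, hj, 0, by simp⟩
      have := bsum_cell hP hS (s := r) (by exact_mod_cast hr)
      show 1 + eta * bsum P l r = _
      rw [this]
      simp only [Int.cast_natCast]) lam kap
  rw [h1]
  have h2 := tm_shift (a := fun s => 1 + eta * bump P (dl P l) s)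
    (b := fun s => 1 + eta * bump P (dl P l) (s - dl P l * ((pos l j : ℝ) + 1 / 2))) hbc hbp
    (c := -(dl P l * ((pos l j : ℝ) + 1 / 2))) (fun r => by simp only [sub_eq_add_neg]) lam kap
    (dl P l * pos l j) (dl P l * ((pos l j : ℝ) + 1))
  rw [h2]
  congr 1 <;> ring

private theorem MON_not_mem {l : List Bool} {j : ℕ} (hj : j < 3 ^ l.length) {n : ℤ}
    (h1 : (pos l j : ℤ) + 1 ≤ n) (h2 : n < (pos l (j + 1) : ℤ)) : n ∉ SS l := by
  rintro ⟨i, hi, m, hm⟩
  have hU := pos_lt_UU hi
  have hle : pos l (j + 1) ≤ UU l := (pos_strictMono l).monotone hj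
  have hle' : (pos l (j + 1) : ℤ) ≤ UU l := by exact_mod_cast hle
  have hU' : (pos l i : ℤ) < UU l := by exact_mod_cast hU
  have h0 : (0 : ℤ) ≤ pos l i := by positivity
  have h0' : (0 : ℤ) ≤ pos l j := by positivity
  have hUp : (0 : ℤ) < UU l := by exact_mod_cast UU_pos l
  have hm0 : m = 0 := by
    have a1 : m < 1 := by
      by_contra hc
      push Not at hc
      nlinarith
    have a2 : -1 < m := by
      by_contra hc
      push Not at hc
      nlinarith
    omega
  subst hm0
  rw [zero_mul, add_zero] at hm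
  subst hm
  have b1 : pos l j < pos l i := by exact_mod_cast (by linarith : (pos l j : ℤ) < pos l i)
  have b2 : pos l i < pos l (j + 1) := by exact_mod_cast h2
  have c1 := (pos_strictMono l).lt_iff_lt.1 b1
  have c2 := (pos_strictMono l).lt_iff_lt.1 b2
  omega

theorem tm_gap {P : ℝ} (hP : 0 < P) (l : List Bool) {eta : ℝ} (he : 0 ≤ eta) (lam kap : ℝ) {j : ℕ}
    (hj : j < 3 ^ l.length) :
    tm (prof P l eta) lam kap (dl P l * ((pos l j : ℝ) + 1)) (dl P l * pos l (j + 1))
      = (tm (fun _ => 1) lam kap 0 (dl P l)) ^ rr l 0 ((j : ℤ) + 1) := by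
  have hδ := dl_pos hP l
  have hp : (pos l (j + 1) : ℝ) = ((pos l j : ℝ) + 1) + (rr l 0 ((j : ℤ) + 1) : ℕ) := by
    have : pos l (j + 1) = pos l j + 1 + rr l 0 ((j : ℤ) + 1) := rfl
    rw [this]
    push_cast
    ring
  rcases Nat.eq_zero_or_pos (rr l 0 ((j : ℤ) + 1)) with h0 | h0
  · rw [hp, h0, Nat.cast_zero, add_zero, pow_zero]
    exact tm_self (MON_prof_cont P l eta) (MON_prof_pos P l he) lam kap _
  · have h1 := tm_local (b := fun _ => (1 : ℝ)) (MON_prof_cont P l eta) (MON_prof_pos P l he)
      continuous_const MON_one_pos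
      (s := dl P l * ((pos l j : ℝ) + 1)) (t := dl P l * pos l (j + 1))
      (by
        rw [hp]
        have : (0 : ℝ) ≤ (rr l 0 ((j : ℤ) + 1) : ℕ) := by positivity
        nlinarith)
      (fun r hr => by
        obtain ⟨hr1, hr2⟩ := hr
        show 1 + eta * bsum P l r = 1
        have key : bsum P l r = 0 := by
          rcases hr2.lt_or_eq with hlt | heq
          · have hf1 : (⌊r / dl P l⌋ : ℝ) ≤ r / dl P l := Int.floor_le _
            have hf2 : r / dl P l < ⌊r / dl P l⌋ + 1 := Int.lt_floor_add_one _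
            rw [le_div_iff₀ hδ] at hf1
            rw [div_lt_iff₀ hδ] at hf2
            have g1 : (pos l j : ℤ) + 1 ≤ ⌊r / dl P l⌋ := by
              rw [Int.le_floor]
              push_cast
              rw [le_div_iff₀ hδ]
              linarith
            have g2 : ⌊r / dl P l⌋ < (pos l (j + 1) : ℤ) := by
              rw [Int.floor_lt]
              push_cast
              rw [div_lt_iff₀ hδ]
              linarith
            exact bsum_gap hP (MON_not_mem hj g1 g2) ⟨by linarith, by linarith⟩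
          · have e1 : pos l (j + 1) = pos l j + 1 + rr l 0 ((j : ℤ) + 1) := rfl
            have g1 : (pos l j : ℤ) + 1 ≤ (pos l (j + 1) : ℤ) - 1 := by
              rw [e1]; push_cast; omega
            have g2 : (pos l (j + 1) : ℤ) - 1 < (pos l (j + 1) : ℤ) := by omega
            refine bsum_gap hP (MON_not_mem hj g1 g2) ⟨?_, ?_⟩
            · rw [heq]
              push_cast
              nlinarith
            · rw [heq]
              push_cast
              nlinarith
        rw [key, mul_zero, add_zero]) lam kap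
    rw [h1, hp]
    exact tm_flat lam kap (dl P l) ((pos l j : ℝ) + 1) _

theorem tm_prof {P : ℝ} (hP : 0 < P) (l : List Bool) {eta : ℝ} (he : 0 ≤ eta) (lam kap : ℝ) :
    tm (prof P l eta) lam kap 0 P = mono (tm (fun _ => 1) lam kap 0 (dl P l)) l 0
      (tm (fun s => 1 + eta * bump P (dl P l) s) lam kap (-(dl P l / 2)) (dl P l / 2)) := by
  rw [← prod_mono]
  have key : ∀ n, n ≤ 3 ^ l.length → tm (prof P l eta) lam kap 0 (dl P l * pos l n)
      = prodM (fun t => (tm (fun _ => 1) lam kap 0 (dl P l)) ^ rr l 0 ((t : ℤ) + 1) *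
        (tm (fun s => 1 + eta * bump P (dl P l) s) lam kap (-(dl P l / 2)) (dl P l / 2))) n := by
    intro n
    induction n with
    | zero =>
      intro _
      have : pos l 0 = 0 := rfl
      rw [this, Nat.cast_zero, mul_zero]
      exact tm_self (MON_prof_cont P l eta) (MON_prof_pos P l he) lam kap 0
    | succ n ih =>
      intro hn
      have hn' : n < 3 ^ l.length := hn
      show _ = _ * prodM _ n
      rw [← ih hn'.le,
        tm_comp (MON_prof_cont P l eta) (MON_prof_pos P l he) lam kap 0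
          (dl P l * ((pos l n : ℝ) + 1)) (dl P l * pos l (n + 1)),
        tm_comp (MON_prof_cont P l eta) (MON_prof_pos P l he) lam kap 0
          (dl P l * pos l n) (dl P l * ((pos l n : ℝ) + 1)),
        tm_gap hP l he lam kap hn', tm_cell hP l he lam kap hn', mul_assoc]
  have h := key (3 ^ l.length) le_rfl
  have e : dl P l * (pos l (3 ^ l.length) : ℕ) = P := dl_mul P l
  rw [e] at h
  exact h

end Pool.Agent.TOR
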