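import Pool.Agent.TOR.Defs

/-!
MODULE ODE (global existence and uniqueness for the linear system; needs only Defs).

`exists_lin`: `v' = p w, w' = q v` with `p q` continuous has a global solution with given data at `s0`.
Suggested proof. In `E = ℝ × ℝ` (sup norm). First on `[s0 - T, s0 + T]`, `T > 0`: `K ≥ 0` a bound of `|p|, |q|` there
(`IsCompact.exists_bound_of_continuousOn`), `R = ‖(x,y)‖ exp(K T)`, `cl r = max (-R) (min R r)` (1-Lipschitz, `|cl r| ≤ R`,
`|cl r| ≤ |r|` for `R ≥ 0`, `cl r = r` for `|r| ≤ R`). The field `f t z = (p t * cl z.2, q t * cl z.1)` is bounded by `K R` and `K`-Lipschitz, so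
`IsPicardLindelof f ⟨s0,_⟩ (x,y) (K R T) 0 (K R) K` and `IsPicardLindelof.exists_eq_forall_mem_Icc_hasDerivWithinAt₀` gives `α` on the
interval (see Pool/Agent/QPE/OFD.lean `exists_flow` for the exact use). Gronwall (`norm_le_gronwallBound_of_norm_deriv_right_le`, for the right half;
for the left half apply it to `t ↦ α (2 s0 - t)` or `(−t)`) with `‖α'‖ ≤ K ‖α‖` gives `‖α t‖ ≤ R`, so `cl` can be removed.
Glueing: choose `α_n` for `T = n+1`; by uniqueness (`ODE_solution_unique_of_mem_Icc` or `ODE_solution_unique_of_mem_Icc_right` and the reflected one)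
`α_n = α_m` on `[s0-(n+1), s0+(n+1)]`, `n ≤ m`; `α t = α_{⌈|t-s0|⌉₊} t`; near `t` it equals `α_N`, `N = ⌈|t-s0|⌉₊ + 1`, hence the derivative.
(Any other proof is fine, e.g. with steps of fixed length, or reduce to `s0 = 0` and to `t ≥ 0` plus reflection `v(-t), -w(-t)`.)
`lin_unique`: on `[s,t]`; two solutions of the linear system with coefficients equal on `[s,t]` and the same data at `s` agree on `[s,t]`: apply
`ODE_solution_unique_of_mem_Icc_right` (Lipschitz constant = bound of the coefficients on the compact interval).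
`lin_unique_left`: the same with data at `t`: reflect (`r ↦ v(-r), -w(-r)` solves the system with `p(-r), q(-r)`) or
`ODE_solution_unique_of_mem_Icc_left`.
-/

set_option autoImplicit false

namespace Pool.Agent.TOR

open Set

private theorem ODE_prod {v w : ℝ → ℝ} {a b t : ℝ} (h1 : HasDerivAt v a t)
    (h2 : HasDerivAt w b t) : HasDerivAt (fun r => (v r, w r)) (a, b) t := h1.prodMk h2

private theorem ODE_lip {p q : ℝ → ℝ} {S : Set ℝ} (hS : IsCompact S) (hp : ContinuousOn p S)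
    (hq : ContinuousOn q S) : ∃ K : NNReal, (∀ t ∈ S, |p t| ≤ K ∧ |q t| ≤ K) ∧
      ∀ t ∈ S, LipschitzWith K (fun z : ℝ × ℝ => (p t * z.2, q t * z.1)) := by
  obtain ⟨C, hC⟩ := hS.exists_bound_of_continuousOn hp
  obtain ⟨D, hD⟩ := hS.exists_bound_of_continuousOn hq
  have hb : ∀ t ∈ S, |p t| ≤ (max C D).toNNReal ∧ |q t| ≤ (max C D).toNNReal := fun t ht =>
    ⟨((hC t ht).trans (le_max_left _ _)).trans (Real.le_coe_toNNReal _),
      ((hD t ht).trans (le_max_right _ _)).trans (Real.le_coe_toNNReal _)⟩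
  refine ⟨(max C D).toNNReal, hb, fun t ht => LipschitzWith.of_dist_le_mul fun z z' => ?_⟩
  rw [Prod.dist_eq, Prod.dist_eq, Real.dist_eq, Real.dist_eq, Real.dist_eq, Real.dist_eq,
    ← mul_sub, ← mul_sub, abs_mul, abs_mul]
  refine max_le ?_ ?_
  · exact mul_le_mul (hb t ht).1 (le_max_right _ _) (abs_nonneg _) (NNReal.coe_nonneg _)
  · exact mul_le_mul (hb t ht).2 (le_max_left _ _) (abs_nonneg _) (NNReal.coe_nonneg _)

private theorem ODE_growth {α g : ℝ → ℝ × ℝ} {K a b : ℝ} (hab : a ≤ b)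
    (h : ∀ t ∈ Icc a b, HasDerivAt α (g t) t) (hg : ∀ t ∈ Icc a b, ‖g t‖ ≤ K * ‖α t‖) :
    ‖α b‖ ≤ ‖α a‖ * Real.exp (K * (b - a)) := by
  have := norm_le_gronwallBound_of_norm_deriv_right_le (f := α) (f' := g) (δ := ‖α a‖) (K := K)
    (ε := 0) (a := a) (b := b)
    (fun t ht => (h t ht).continuousAt.continuousWithinAt)
    (fun t ht => (h t (Ico_subset_Icc_self ht)).hasDerivWithinAt) le_rfl
    (fun t ht => by simpa using hg t (Ico_subset_Icc_self ht)) b (right_mem_Icc.2 hab)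
  rwa [gronwallBound_ε0] at this

private theorem ODE_growth' {α g : ℝ → ℝ × ℝ} {K a b : ℝ} (hab : a ≤ b)
    (h : ∀ t ∈ Icc a b, HasDerivAt α (g t) t) (hg : ∀ t ∈ Icc a b, ‖g t‖ ≤ K * ‖α t‖) :
    ‖α a‖ ≤ ‖α b‖ * Real.exp (K * (b - a)) := by
  have hm : ∀ t ∈ Icc a b, a + b - t ∈ Icc a b := fun t ht =>
    ⟨by linarith [ht.2], by linarith [ht.1]⟩
  have := ODE_growth (α := fun t => α (a + b - t)) (g := fun t => -g (a + b - t)) hab
    (fun t ht => by
      have h1 : HasDerivAt (fun t : ℝ => a + b - t) (-1) t := by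
        simpa using (hasDerivAt_id t).const_sub (a + b)
      have h2 := (h _ (hm t ht)).scomp t h1
      rw [neg_one_smul] at h2
      exact h2)
    (fun t ht => by simpa using hg _ (hm t ht))
  simpa using this

/-- truncation -/
private noncomputable def ODE_cl (R r : ℝ) : ℝ := max (-R) (min R r)

private theorem ODE_cl_sub (R a b : ℝ) : |ODE_cl R a - ODE_cl R b| ≤ |a - b| := by
  unfold ODE_cl
  refine (abs_max_sub_max_le_max _ _ _ _).trans (max_le (by simp) ?_)
  refine (abs_min_sub_min_le_max _ _ _ _).trans (max_le (by simp) le_rfl)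

private theorem ODE_cl_le {R : ℝ} (hR : 0 ≤ R) (r : ℝ) : |ODE_cl R r| ≤ R :=
  abs_le.2 ⟨le_max_left _ _, max_le (by linarith) (min_le_left _ _)⟩

private theorem ODE_cl_le' {R : ℝ} (hR : 0 ≤ R) (r : ℝ) : |ODE_cl R r| ≤ |r| := by
  have h0 : ODE_cl R 0 = 0 := by
    unfold ODE_cl
    rw [min_eq_right hR, max_eq_right (by linarith)]
  have := ODE_cl_sub R r 0
  rwa [h0, sub_zero, sub_zero] at this

private theorem ODE_cl_eq {R r : ℝ} (h : |r| ≤ R) : ODE_cl R r = r := by
  obtain ⟨h1, h2⟩ := abs_le.1 h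
  unfold ODE_cl
  rw [min_eq_right h2, max_eq_right h1]

private theorem ODE_local {p q : ℝ → ℝ} (hp : Continuous p) (hq : Continuous q) (s0 x y : ℝ)
    {T : ℝ} (hT : 0 < T) : ∃ α : ℝ → ℝ × ℝ, α s0 = (x, y) ∧
      ∀ t ∈ Ioo (s0 - T) (s0 + T), HasDerivAt α (p t * (α t).2, q t * (α t).1) t := by
  obtain ⟨K, hK, -⟩ := ODE_lip (isCompact_Icc (a := s0 - T) (b := s0 + T)) hp.continuousOn
    hq.continuousOn
  obtain ⟨R, hRdef⟩ : ∃ R : ℝ, R = ‖(x, y)‖ * Real.exp (K * T) := ⟨_, rfl⟩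
  have hR : 0 ≤ R := by rw [hRdef]; positivity
  obtain ⟨f, hf⟩ : ∃ f : ℝ → ℝ × ℝ → ℝ × ℝ,
      f = fun t z => (p t * ODE_cl R z.2, q t * ODE_cl R z.1) := ⟨_, rfl⟩
  have hfn : ∀ t ∈ Icc (s0 - T) (s0 + T), ∀ z, ‖f t z‖ ≤ K * ‖z‖ := by
    intro t ht z
    rw [hf, Prod.norm_def, Prod.norm_def]
    simp only [Real.norm_eq_abs, abs_mul]
    refine max_le ?_ ?_
    · exact mul_le_mul (hK t ht).1 ((ODE_cl_le' hR _).trans (le_max_right _ _)) (abs_nonneg _)
        (NNReal.coe_nonneg _)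
    · exact mul_le_mul (hK t ht).2 ((ODE_cl_le' hR _).trans (le_max_left _ _)) (abs_nonneg _)
        (NNReal.coe_nonneg _)
  have hpl : IsPicardLindelof f (tmin := s0 - T) (tmax := s0 + T)
      ⟨s0, ⟨by linarith, by linarith⟩⟩ (x, y) (K * R.toNNReal * T.toNNReal) 0
      (K * R.toNNReal) K := by
    refine ⟨fun t ht => ?_, fun z _ => ?_, fun t ht z _ => ?_, ?_⟩
    · refine (LipschitzWith.of_dist_le_mul fun z z' => ?_).lipschitzOnWith
      rw [hf, Prod.dist_eq, Prod.dist_eq, Real.dist_eq, Real.dist_eq, Real.dist_eq, Real.dist_eq,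
        ← mul_sub, ← mul_sub, abs_mul, abs_mul]
      refine max_le ?_ ?_
      · exact mul_le_mul (hK t ht).1 ((ODE_cl_sub _ _ _).trans (le_max_right _ _)) (abs_nonneg _)
          (NNReal.coe_nonneg _)
      · exact mul_le_mul (hK t ht).2 ((ODE_cl_sub _ _ _).trans (le_max_left _ _)) (abs_nonneg _)
          (NNReal.coe_nonneg _)
    · rw [hf]
      exact ((hp.mul continuous_const).prodMk (hq.mul continuous_const)).continuousOn
    · rw [hf, Prod.norm_def, NNReal.coe_mul, Real.coe_toNNReal _ hR]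
      simp only [Real.norm_eq_abs, abs_mul]
      refine max_le ?_ ?_
      · exact mul_le_mul (hK t ht).1 (ODE_cl_le hR _) (abs_nonneg _) (NNReal.coe_nonneg _)
      · exact mul_le_mul (hK t ht).2 (ODE_cl_le hR _) (abs_nonneg _) (NNReal.coe_nonneg _)
    · have e1 : s0 + T - s0 = T := by ring
      have e2 : s0 - (s0 - T) = T := by ring
      simp only [e1, e2, max_self, NNReal.coe_mul, NNReal.coe_zero, sub_zero]
      rw [Real.coe_toNNReal T hT.le]
  obtain ⟨α, h0, hα⟩ := hpl.exists_eq_forall_mem_Icc_hasDerivWithinAt₀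
  simp only at h0
  have hd : ∀ t ∈ Ioo (s0 - T) (s0 + T), HasDerivAt α (f t (α t)) t := fun t ht =>
    (hα t (Ioo_subset_Icc_self ht)).hasDerivAt (Icc_mem_nhds ht.1 ht.2)
  refine ⟨α, h0, fun t ht => ?_⟩
  have hb : ‖α t‖ ≤ R := by
    have hexp : ∀ r, r ≤ T → ‖α s0‖ * Real.exp (K * r) ≤ R := by
      intro r hr
      rw [h0, hRdef]
      exact mul_le_mul_of_nonneg_left (Real.exp_le_exp.2
        (mul_le_mul_of_nonneg_left hr (NNReal.coe_nonneg _))) (norm_nonneg _)
    rcases le_total s0 t with h | h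
    · refine (ODE_growth (g := fun t => f t (α t)) h
        (fun r hr => hd r ⟨by linarith [hr.1], by linarith [hr.2, ht.2]⟩)
        (fun r hr => hfn r ⟨by linarith [hr.1], by linarith [hr.2, ht.2]⟩ _)).trans ?_
      exact hexp _ (by linarith [ht.2])
    · refine (ODE_growth' (g := fun t => f t (α t)) h
        (fun r hr => hd r ⟨by linarith [hr.1, ht.1], by linarith [hr.2]⟩)
        (fun r hr => hfn r ⟨by linarith [hr.1, ht.1], by linarith [hr.2]⟩ _)).trans ?_
      exact hexp _ (by linarith [ht.1])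
  have h1 : |(α t).1| ≤ R := (norm_fst_le (α t)).trans hb
  have h2 : |(α t).2| ≤ R := (norm_snd_le (α t)).trans hb
  have := hd t ht
  rw [hf] at this
  simp only [ODE_cl_eq h1, ODE_cl_eq h2] at this
  exact this

private theorem ODE_eqOn {p q : ℝ → ℝ} (hp : Continuous p) (hq : Continuous q) {s0 T : ℝ}
    (hT : 0 < T) {α β : ℝ → ℝ × ℝ} (h0 : α s0 = β s0)
    (hα : ∀ t ∈ Ioo (s0 - T) (s0 + T), HasDerivAt α (p t * (α t).2, q t * (α t).1) t)
    (hβ : ∀ t ∈ Ioo (s0 - T) (s0 + T), HasDerivAt β (p t * (β t).2, q t * (β t).1) t) :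
    EqOn α β (Ioo (s0 - T) (s0 + T)) := by
  obtain ⟨K, -, hK⟩ := ODE_lip (isCompact_Icc (a := s0 - T) (b := s0 + T)) hp.continuousOn
    hq.continuousOn
  exact ODE_solution_unique_of_mem_Ioo (v := fun t z => (p t * z.2, q t * z.1))
    (s := fun _ => univ) (K := K) (t₀ := s0)
    (fun t ht => (hK t (Ioo_subset_Icc_self ht)).lipschitzOnWith) ⟨by linarith, by linarith⟩
    (fun t ht => ⟨hα t ht, mem_univ _⟩) (fun t ht => ⟨hβ t ht, mem_univ _⟩) h0

theorem exists_lin {p q : ℝ → ℝ} (hp : Continuous p) (hq : Continuous q) (s0 x y : ℝ) :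
    ∃ v w : ℝ → ℝ, (∀ t, HasDerivAt v (p t * w t) t) ∧ (∀ t, HasDerivAt w (q t * v t) t) ∧
      v s0 = x ∧ w s0 = y := by
  have h0 : ∀ t : ℝ, 0 < |t - s0| + 1 := fun t => by positivity
  choose α ha hα using fun (T : ℝ) (hT : 0 < T) => ODE_local hp hq s0 x y hT
  obtain ⟨β, hβ⟩ : ∃ β : ℝ → ℝ × ℝ, β = fun t => α (|t - s0| + 1) (h0 t) t := ⟨_, rfl⟩
  have hmem : ∀ t, t ∈ Ioo (s0 - (|t - s0| + 1)) (s0 + (|t - s0| + 1)) := fun t =>
    ⟨by linarith [neg_abs_le (t - s0)], by linarith [le_abs_self (t - s0)]⟩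
  have key : ∀ t, HasDerivAt β (p t * (β t).2, q t * (β t).1) t := by
    intro t
    have hT : 0 < |t - s0| + 2 := by positivity
    have hev : ∀ r, |r - t| < 1 → β r = α (|t - s0| + 2) hT r := by
      intro r hr
      have hle : |r - s0| + 1 ≤ |t - s0| + 2 := by
        have : |r - s0| ≤ |r - t| + |t - s0| := abs_sub_le r t s0
        linarith
      rw [hβ]
      refine ODE_eqOn hp hq (h0 r) (by rw [ha, ha]) (hα _ (h0 r)) (fun u hu => hα _ hT u ?_)
        (hmem r)
      exact ⟨by linarith [hu.1], by linarith [hu.2]⟩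
    have hevt : β =ᶠ[nhds t] α (|t - s0| + 2) hT := by
      filter_upwards [Metric.ball_mem_nhds t one_pos] with r hr
      exact hev r (by simpa [Real.dist_eq] using hr)
    have h1 := hα (|t - s0| + 2) hT t
      ⟨by linarith [(hmem t).1], by linarith [(hmem t).2]⟩
    rw [← hev t (by simp)] at h1
    exact h1.congr_of_eventuallyEq hevt
  have hs : β s0 = (x, y) := by rw [hβ]; exact ha _ _
  refine ⟨fun t => (β t).1, fun t => (β t).2, fun t => ?_, fun t => ?_, ?_, ?_⟩
  · exact (key t).fst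
  · exact (key t).snd
  · simp only [hs]
  · simp only [hs]

theorem lin_unique {p q p' q' : ℝ → ℝ} {s t : ℝ} (hp : ContinuousOn p (Icc s t))
    (hq : ContinuousOn q (Icc s t)) (hpp : ∀ r ∈ Icc s t, p' r = p r)
    (hqq : ∀ r ∈ Icc s t, q' r = q r) {v w v' w' : ℝ → ℝ}
    (h1 : ∀ r, HasDerivAt v (p r * w r) r) (h2 : ∀ r, HasDerivAt w (q r * v r) r)
    (h3 : ∀ r, HasDerivAt v' (p' r * w' r) r) (h4 : ∀ r, HasDerivAt w' (q' r * v' r) r)
    (hv : v s = v' s) (hw : w s = w' s) : ∀ r ∈ Icc s t, v r = v' r ∧ w r = w' r := by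
  obtain ⟨K, -, hK⟩ := ODE_lip (isCompact_Icc (a := s) (b := t)) hp hq
  have hf : ∀ r ∈ Icc s t, HasDerivAt (fun r => (v r, w r)) (p r * w r, q r * v r) r :=
    fun r _ => ODE_prod (h1 r) (h2 r)
  have hg : ∀ r ∈ Icc s t, HasDerivAt (fun r => (v' r, w' r)) (p r * w' r, q r * v' r) r :=
    fun r hr => by
      have := ODE_prod (h3 r) (h4 r)
      rwa [hpp r hr, hqq r hr] at this
  have h := ODE_solution_unique_of_mem_Icc_right (v := fun t z => (p t * z.2, q t * z.1))
    (s := fun _ => univ) (K := K) (f := fun r => (v r, w r)) (g := fun r => (v' r, w' r))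
    (a := s) (b := t) (fun r hr => (hK r (Ico_subset_Icc_self hr)).lipschitzOnWith)
    (fun r hr => (hf r hr).continuousAt.continuousWithinAt)
    (fun r hr => (hf r (Ico_subset_Icc_self hr)).hasDerivWithinAt) (fun _ _ => mem_univ _)
    (fun r hr => (hg r hr).continuousAt.continuousWithinAt)
    (fun r hr => (hg r (Ico_subset_Icc_self hr)).hasDerivWithinAt) (fun _ _ => mem_univ _)
    (by simp only [hv, hw])
  intro r hr
  have := h hr
  simpa using this

theorem lin_unique_left {p q p' q' : ℝ → ℝ} {s t : ℝ} (hp : ContinuousOn p (Icc s t))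
    (hq : ContinuousOn q (Icc s t)) (hpp : ∀ r ∈ Icc s t, p' r = p r)
    (hqq : ∀ r ∈ Icc s t, q' r = q r) {v w v' w' : ℝ → ℝ}
    (h1 : ∀ r, HasDerivAt v (p r * w r) r) (h2 : ∀ r, HasDerivAt w (q r * v r) r)
    (h3 : ∀ r, HasDerivAt v' (p' r * w' r) r) (h4 : ∀ r, HasDerivAt w' (q' r * v' r) r)
    (hv : v t = v' t) (hw : w t = w' t) : ∀ r ∈ Icc s t, v r = v' r ∧ w r = w' r := by
  obtain ⟨K, -, hK⟩ := ODE_lip (isCompact_Icc (a := s) (b := t)) hp hq
  have hf : ∀ r ∈ Icc s t, HasDerivAt (fun r => (v r, w r)) (p r * w r, q r * v r) r :=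
    fun r _ => ODE_prod (h1 r) (h2 r)
  have hg : ∀ r ∈ Icc s t, HasDerivAt (fun r => (v' r, w' r)) (p r * w' r, q r * v' r) r :=
    fun r hr => by
      have := ODE_prod (h3 r) (h4 r)
      rwa [hpp r hr, hqq r hr] at this
  have h := ODE_solution_unique_of_mem_Icc_left (v := fun t z => (p t * z.2, q t * z.1))
    (s := fun _ => univ) (K := K) (f := fun r => (v r, w r)) (g := fun r => (v' r, w' r))
    (a := s) (b := t) (fun r hr => (hK r (Ioc_subset_Icc_self hr)).lipschitzOnWith)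
    (fun r hr => (hf r hr).continuousAt.continuousWithinAt)
    (fun r hr => (hf r (Ioc_subset_Icc_self hr)).hasDerivWithinAt) (fun _ _ => mem_univ _)
    (fun r hr => (hg r hr).continuousAt.continuousWithinAt)
    (fun r hr => (hg r (Ioc_subset_Icc_self hr)).hasDerivWithinAt) (fun _ _ => mem_univ _)
    (by simp only [hv, hw])
  intro r hr
  have := h hr
  simpa using this

end Pool.Agent.TOR
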