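import Pool.Agent.TOR.Defs

/-!
MODULE RRC (the gap function; needs only Defs). All by induction on `l` (generalizing `i t`), the definition
`rr (b::bs) i t = if t%3 = 1 then 2i+b else if t%3 = 2 then 2i+1-b else rr bs (i+1) (t/3)`, and omega
(`b.toNat ≤ 1`; `Bool` cases).

* `rr_add`: `(t + 3^(n+1)) % 3 = t % 3` and `(t + 3^(n+1))/3 = t/3 + 3^n`.
* `rr_neg`: `t%3 = 1 ↔ (-t)%3 = 2`, and `(-t)/3 = -(t/3)` if `3 ∣ t`.
* `rr_le`, `rr_eq_max`: `rr l i t ≤ 2(i + len)`, equality iff `3^len ∣ t` (for `t % 3 ≠ 0` the value is `≤ 2i+1`; for `t = 3u`: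
  `3^(n+1) ∣ 3u ↔ 3^n ∣ u`).
* `rr_inj`: `b = b'` from `t = 1`, then `rr bs (i+1) u = rr (b::bs) i (3u)`.
-/

set_option autoImplicit false

namespace Pool.Agent.TOR

theorem rr_add (l : List Bool) (i : ℕ) (t : ℤ) : rr l i (t + 3 ^ l.length) = rr l i t := by
  induction l generalizing i t with
  | nil => rfl
  | cons b bs ih =>
    have e : (3 : ℤ) ^ (b :: bs).length = 3 * 3 ^ bs.length := by
      rw [List.length_cons, pow_succ]; ring
    have m1 : (t + 3 ^ (b :: bs).length) % 3 = t % 3 := by
      rw [e, Int.add_mul_emod_self_left]
    have m2 : (t + 3 ^ (b :: bs).length) / 3 = t / 3 + 3 ^ bs.length := by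
      rw [e, Int.add_mul_ediv_left _ _ (by norm_num)]
    rw [rr, rr, m1, m2, ih]

theorem rr_add_mul (l : List Bool) (i : ℕ) (t k : ℤ) :
    rr l i (t + k * 3 ^ l.length) = rr l i t := by
  induction l generalizing i t with
  | nil => rfl
  | cons b bs ih =>
    have e : k * (3 : ℤ) ^ (b :: bs).length = 3 * (k * 3 ^ bs.length) := by
      rw [List.length_cons, pow_succ]; ring
    have m1 : (t + k * 3 ^ (b :: bs).length) % 3 = t % 3 := by
      rw [e, Int.add_mul_emod_self_left]
    have m2 : (t + k * 3 ^ (b :: bs).length) / 3 = t / 3 + k * 3 ^ bs.length := by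
      rw [e, Int.add_mul_ediv_left _ _ (by norm_num)]
    rw [rr, rr, m1, m2, ih]

theorem rr_neg (l : List Bool) (i : ℕ) (t : ℤ) : rr l i (-t) = rr (l.map not) i t := by
  induction l generalizing i t with
  | nil => rfl
  | cons b bs ih =>
    rw [List.map_cons, rr, rr]
    by_cases h1 : t % 3 = 1
    · have h2 : (-t) % 3 = 2 := by omega
      rw [if_neg (by omega), if_pos h2, if_pos h1]
      cases b <;> simp
    · by_cases h2 : t % 3 = 2
      · have h3 : (-t) % 3 = 1 := by omega
        rw [if_pos h3, if_neg h1, if_pos h2]
        cases b <;> simp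
      · have h3 : (-t) / 3 = -(t / 3) := by omega
        rw [if_neg (by omega), if_neg (by omega), if_neg h1, if_neg h2, h3, ih]

theorem rr_le (l : List Bool) (i : ℕ) (t : ℤ) : rr l i t ≤ 2 * (i + l.length) := by
  induction l generalizing i t with
  | nil => simp [rr]
  | cons b bs ih =>
    rw [rr, List.length_cons]
    have hb : b.toNat ≤ 1 := Bool.toNat_le b
    have hi := ih (i + 1) (t / 3)
    split_ifs
    · omega
    · omega
    · omega

theorem rr_eq_max (l : List Bool) (i : ℕ) (t : ℤ) :
    rr l i t = 2 * (i + l.length) ↔ (3 : ℤ) ^ l.length ∣ t := by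
  induction l generalizing i t with
  | nil => simp [rr]
  | cons b bs ih =>
    have hb : b.toNat ≤ 1 := Bool.toNat_le b
    have hi := ih (i + 1) (t / 3)
    have e : (3 : ℤ) ^ (b :: bs).length = 3 * 3 ^ bs.length := by
      rw [List.length_cons, pow_succ]; ring
    rw [rr]
    by_cases h1 : t % 3 = 1
    · rw [if_pos h1]
      constructor
      · intro h
        rw [List.length_cons] at h
        omega
      · intro h
        rw [e] at h
        have h3 : (3 : ℤ) ∣ t := (Dvd.intro _ rfl).trans h
        omega
    · by_cases h2 : t % 3 = 2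
      · rw [if_neg h1, if_pos h2]
        constructor
        · intro h
          rw [List.length_cons] at h
          omega
        · intro h
          rw [e] at h
          have h3 : (3 : ℤ) ∣ t := (Dvd.intro _ rfl).trans h
          omega
      · rw [if_neg h1, if_neg h2, e]
        have h3 : t = 3 * (t / 3) := by omega
        constructor
        · intro h
          rw [List.length_cons] at h
          have h4 := hi.1 (by omega)
          rw [h3]
          exact mul_dvd_mul_left 3 h4
        · intro h
          rw [h3] at h
          have h4 := hi.2 (Int.dvd_of_mul_dvd_mul_left (by norm_num) h)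
          rw [List.length_cons]
          omega

theorem rr_inj (l l' : List Bool) (i : ℕ) (hl : l.length = l'.length)
    (h : ∀ t, rr l i t = rr l' i t) : l = l' := by
  induction l generalizing l' i with
  | nil =>
    cases l' with
    | nil => rfl
    | cons b' bs' => simp at hl
  | cons b bs ih =>
    cases l' with
    | nil => simp at hl
    | cons b' bs' =>
      have hl' : bs.length = bs'.length := by simpa using hl
      have hb : b = b' := by
        have h1 := h 1
        rw [rr, rr, if_pos (by norm_num), if_pos (by norm_num)] at h1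
        cases b <;> cases b' <;> simp_all
      have hbs : bs = bs' := by
        apply ih bs' (i + 1) hl'
        intro u
        have h1 := h (3 * u)
        rw [rr, rr, if_neg (by omega), if_neg (by omega), if_neg (by omega),
          if_neg (by omega)] at h1
        have e : 3 * u / 3 = u := by omega
        rw [e] at h1
        exact h1
      rw [hb, hbs]

end Pool.Agent.TOR
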