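import Pool.Agent.TOR.TMA

/-!
MODULE WRA (how the trace of the period matrix varies with `λ`; imports TMA, a stub is enough).

Notation: `(v1,w1), (v2,w2)` = solutions for `λ` with data `(1,0), (0,1)` at `0`; `(v1',w1'), (v2',w2')` the same for `μ`.
* `wron_lam`: `d/ds (v w' - w v') = (λ-μ) a v v'`... precisely for `(v,w)` a solution for `lam` and `(v',w')` a solution for `mu`:
  `(v' w - w' v)' = v' (κ²/a - λ a) v + (w'/a) w - (κ²/a - μ a) v' v - w' (w/a) = (μ - λ) a v v'`, so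
  `v' P w P - w' P v P - (v' 0 w 0 - w' 0 v 0) = (μ - λ) ∫_0^P a v v'` (`intervalIntegral.integral_eq_sub_of_hasDerivAt`).
* `trace_sub`: with `M = tm a lam kap 0 P = !![v1 P, v2 P; w1 P, w2 P]`, `M' = tm a mu kap 0 P = !![A, B; C, D]` (`A = v1' P, B = v2' P, C = w1' P, D = w2' P`,
  `A D - B C = 1`), `I_ij = ∫_0^P a v_i v_j'` four applications of `wron_lam`:
  `v_j' P w_i P - w_j' P v_i P = (v_j'(0) w_i(0) - w_j'(0) v_i(0)) + (μ - λ) I_ij`. The initial values are `0` for `i=j`; `i=1,j=2`: `-1`; `i=2,j=1`: `1`.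
  Solve for `v1 P` and `w2 P`: `v1 P = A (D v1 P - B w1 P) + B (A w1 P - C v1 P)` since `AD - BC = 1`, similarly
  `w2 P = C (D v2 P - B w2 P) + D (A w2 P - C v2 P)`. With `D v1 P - B w1 P = 1 + (λ - μ) I_12`, `A w1 P - C v1 P = (μ - λ) I_11`,
  `D v2 P - B w2 P = (λ - μ) I_22`, `A w2 P - C v2 P = 1 + (μ - λ) I_21`. Hence
  `tr M - tr M' = (λ - μ) (A I_12 - B I_11 + C I_22 - D I_21)`.
-/

set_option autoImplicit false

namespace Pool.Agent.TOR

open Set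

private theorem WRA_cont_v {a : ℝ → ℝ} {lam kap : ℝ} {v w : ℝ → ℝ} (h : Sol a lam kap v w) :
    Continuous v := continuous_iff_continuousAt.2 fun s => (h.1 s).continuousAt


theorem wron_lam {a : ℝ → ℝ} (ha : Continuous a) (hpos : ∀ s, 0 < a s) {lam mu kap P : ℝ}
    {v w v' w' : ℝ → ℝ} (h : Sol a lam kap v w) (h' : Sol a mu kap v' w') :
    v' P * w P - w' P * v P - (v' 0 * w 0 - w' 0 * v 0)
      = (mu - lam) * ∫ s in (0 : ℝ)..P, a s * v s * v' s := by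
  have hd : ∀ s, HasDerivAt (fun s => v' s * w s - w' s * v s) ((mu - lam) * (a s * v s * v' s))
      s := by
    intro s
    have hs := (hpos s).ne'
    refine (((h'.1 s).fun_mul (h.2 s)).fun_sub ((h'.2 s).fun_mul (h.1 s))).congr_deriv ?_
    field_simp
    ring
  have hint := intervalIntegral.integral_eq_sub_of_hasDerivAt (a := (0 : ℝ)) (b := P)
    (fun s _ => hd s) (by
      apply Continuous.intervalIntegrable
      exact continuous_const.mul ((ha.mul (WRA_cont_v h)).mul (WRA_cont_v h')))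
  rw [intervalIntegral.integral_const_mul] at hint
  rw [hint]

theorem trace_sub {a : ℝ → ℝ} (ha : Continuous a) (hpos : ∀ s, 0 < a s) {lam mu kap P : ℝ}
    {v1 w1 v2 w2 v1' w1' v2' w2' : ℝ → ℝ} (h1 : Sol a lam kap v1 w1) (h2 : Sol a lam kap v2 w2)
    (h1' : Sol a mu kap v1' w1') (h2' : Sol a mu kap v2' w2')
    (e1 : v1 0 = 1 ∧ w1 0 = 0) (e2 : v2 0 = 0 ∧ w2 0 = 1)
    (e1' : v1' 0 = 1 ∧ w1' 0 = 0) (e2' : v2' 0 = 0 ∧ w2' 0 = 1) :
    (tm a lam kap 0 P).trace - (tm a mu kap 0 P).trace = (lam - mu) *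
      ((tm a mu kap 0 P) 0 0 * (∫ s in (0 : ℝ)..P, a s * v1 s * v2' s)
        - (tm a mu kap 0 P) 0 1 * (∫ s in (0 : ℝ)..P, a s * v1 s * v1' s)
        + (tm a mu kap 0 P) 1 0 * (∫ s in (0 : ℝ)..P, a s * v2 s * v2' s)
        - (tm a mu kap 0 P) 1 1 * (∫ s in (0 : ℝ)..P, a s * v2 s * v1' s)) := by
  have m1 := isTm_tm ha hpos lam kap 0 P v1 w1 h1
  have m2 := isTm_tm ha hpos lam kap 0 P v2 w2 h2
  have m1' := isTm_tm ha hpos mu kap 0 P v1' w1' h1'
  have m2' := isTm_tm ha hpos mu kap 0 P v2' w2' h2'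
  rw [e1.1, e1.2, mul_one, mul_zero, mul_one, mul_zero, add_zero, add_zero] at m1
  rw [e2.1, e2.2, mul_one, mul_zero, mul_one, mul_zero, zero_add, zero_add] at m2
  rw [e1'.1, e1'.2, mul_one, mul_zero, mul_one, mul_zero, add_zero, add_zero] at m1'
  rw [e2'.1, e2'.2, mul_one, mul_zero, mul_one, mul_zero, zero_add, zero_add] at m2'
  have hdet := tm_det ha hpos mu kap 0 P
  rw [Matrix.det_fin_two] at hdet
  have E11 := wron_lam ha hpos (P := P) h1 h1'
  have E12 := wron_lam ha hpos (P := P) h1 h2'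
  have E21 := wron_lam ha hpos (P := P) h2 h1'
  have E22 := wron_lam ha hpos (P := P) h2 h2'
  rw [e1.1, e1.2, e1'.1, e1'.2, m1.1, m1.2, m1'.1, m1'.2] at E11
  rw [e1.1, e1.2, e2'.1, e2'.2, m1.1, m1.2, m2'.1, m2'.2] at E12
  rw [e2.1, e2.2, e1'.1, e1'.2, m2.1, m2.2, m1'.1, m1'.2] at E21
  rw [e2.1, e2.2, e2'.1, e2'.2, m2.1, m2.2, m2'.1, m2'.2] at E22
  rw [Matrix.trace_fin_two, Matrix.trace_fin_two]
  linear_combination (-(tm a mu kap 0 P 0 0)) * E12 + (tm a mu kap 0 P 0 1) * E11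
    - (tm a mu kap 0 P 1 0) * E22 + (tm a mu kap 0 P 1 1) * E21
    - (tm a lam kap 0 P 0 0 + tm a lam kap 0 P 1 1) * hdet

end Pool.Agent.TOR
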